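import Pool.Agent.Helper584.FS.Lemmas

set_option autoImplicit false

open MeasureTheory Set

namespace Pool.Agent.Helper584.FS


def seq (P : Set E) : ℕ → Set E
  | 0 => P
  | k + 1 => next (seq P k)

/-- The parallelepiped with vertex `o` and edge vectors `e 0, e 1, e 2`. -/
def box (o : E) (e : Fin 3 → E) : Set E :=
  (fun t : Fin 3 → ℝ => o + ∑ i, t i • e i) '' Icc 0 1

namespace X_next_face

theorem nf_fact (V : Finset E) (F : Set E) (hF : IsExtreme ℝ (convexHull ℝ (V : Set E)) F)
    (c : E → ℝ) (hc : ∀ v ∈ V, 0 ≤ c v) (hs : ∑ v ∈ V, c v = 1) (hx : ∑ v ∈ V, c v • v ∈ F)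
    (v : E) (hv : v ∈ V) (hcv : 0 < c v) : v ∈ F := by
  classical
  have hs' : c v + ∑ w ∈ V.erase v, c w = 1 := by
    rw [Finset.add_sum_erase V c hv]
    exact hs
  have hx' : c v • v + ∑ w ∈ V.erase v, c w • w ∈ F := by
    rw [Finset.add_sum_erase V (fun w => c w • w) hv]
    exact hx
  have hc' : ∀ w ∈ V.erase v, 0 ≤ c w := fun w hw => hc w (Finset.mem_of_mem_erase hw)
  have hsn : 0 ≤ ∑ w ∈ V.erase v, c w := Finset.sum_nonneg hc'
  have hvP : v ∈ convexHull ℝ (V : Set E) := subset_convexHull ℝ _ hv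
  by_cases h1 : ∑ w ∈ V.erase v, c w = 0
  · have h2 := (Finset.sum_eq_zero_iff_of_nonneg hc').mp h1
    have h3 : ∑ w ∈ V.erase v, c w • w = 0 :=
      Finset.sum_eq_zero fun w hw => by rw [h2 w hw, zero_smul]
    have h4 : c v = 1 := by linarith
    rw [h3, h4, one_smul, add_zero] at hx'
    exact hx'
  · have hpos : 0 < ∑ w ∈ V.erase v, c w := lt_of_le_of_ne hsn (Ne.symm h1)
    obtain ⟨t, ht⟩ : ∃ t : ℝ, t = ∑ w ∈ V.erase v, c w := ⟨_, rfl⟩
    rw [← ht] at hpos hs'
    obtain ⟨y, hy⟩ : ∃ y : E, y = ∑ w ∈ V.erase v, (t⁻¹ * c w) • w := ⟨_, rfl⟩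
    have hyP : y ∈ convexHull ℝ (V : Set E) := by
      rw [hy]
      refine (convex_convexHull ℝ _).sum_mem (fun w hw => ?_) ?_ (fun w hw => ?_)
      · have := hc' w hw
        positivity
      · rw [← Finset.mul_sum, ← ht, inv_mul_cancel₀ hpos.ne']
      · exact subset_convexHull ℝ _ (Finset.mem_of_mem_erase hw)
    have hty : t • y = ∑ w ∈ V.erase v, c w • w := by
      rw [hy, Finset.smul_sum]
      refine Finset.sum_congr rfl fun w _ => ?_
      rw [smul_smul, ← mul_assoc, mul_inv_cancel₀ hpos.ne', one_mul]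
    rw [← hty] at hx'
    exact hF.left_mem_of_mem_openSegment hvP hyP hx' ⟨c v, t, hcv, hpos, hs', rfl⟩

theorem nf_restrict (V W : Finset E) (hWV : W ⊆ V) (c : E → ℝ)
    (h0 : ∀ v ∈ V, v ∉ W → c v = 0) :
    ∑ v ∈ W, c v = ∑ v ∈ V, c v ∧ ∑ v ∈ W, c v • v = ∑ v ∈ V, c v • v := by
  constructor
  · exact Finset.sum_subset hWV h0
  · exact Finset.sum_subset hWV fun v hv hvW => by rw [h0 v hv hvW, zero_smul]

theorem M_subset_hull (V : Finset E) : M V ⊆ convexHull ℝ (V : Set E) := by
  rintro x ⟨c, hc, hs, rfl⟩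
  exact (convex_convexHull ℝ _).sum_mem (fun v hv => (hc v hv).1) hs
    (fun v hv => subset_convexHull ℝ _ hv)

theorem next_face (P F : Set E) (hP : ∃ V : Finset E, P = convexHull ℝ (V : Set E))
    (hF : IsExtreme ℝ P F) (hFc : Convex ℝ F) :
    (∃ W : Finset E, F = convexHull ℝ (W : Set E)) ∧ IsExtreme ℝ (next P) (next F) := by
  classical
  obtain ⟨V0, hV0⟩ := hP
  obtain ⟨V, hVV, hCP⟩ := min_vertices V0
  have hPV : P = convexHull ℝ (V : Set E) := hV0.trans hVV.symm
  rw [hPV] at hF ⊢
  obtain ⟨W, hW⟩ : ∃ W : Finset E, W = V.filter (fun v => v ∈ F) := ⟨_, rfl⟩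
  have hWV : W ⊆ V := by rw [hW]; exact Finset.filter_subset _ _
  have hWF : ∀ v, v ∈ W ↔ v ∈ V ∧ v ∈ F := by
    intro v
    rw [hW, Finset.mem_filter]
  have hzero : ∀ c : E → ℝ, (∀ v ∈ V, 0 ≤ c v) → ∑ v ∈ V, c v = 1 → ∑ v ∈ V, c v • v ∈ F →
      ∀ v ∈ V, v ∉ W → c v = 0 := by
    intro c hc hs hx v hv hvW
    by_contra hne
    have hpos : 0 < c v := lt_of_le_of_ne (hc v hv) (Ne.symm hne)
    exact hvW ((hWF v).mpr ⟨hv, nf_fact V F hF c hc hs hx v hv hpos⟩)
  have hFW : F = convexHull ℝ (W : Set E) := by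
    apply Set.Subset.antisymm
    · intro x hx
      have hxV := hF.subset hx
      rw [Finset.mem_convexHull'] at hxV
      obtain ⟨c, hc, hs, rfl⟩ := hxV
      have hz := hzero c hc hs hx
      obtain ⟨e1, e2⟩ := nf_restrict V W hWV c hz
      rw [Finset.mem_convexHull']
      exact ⟨c, fun v hv => hc v (hWV hv), e1.trans hs, e2⟩
    · refine convexHull_min (fun v hv => ?_) hFc
      exact ((hWF v).mp (by simpa using hv)).2
  have hCPW : CP W := by
    intro v hv hmem
    refine hCP v (hWV hv) (convexHull_mono ?_ hmem)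
    intro w hw
    have hw' : w ∈ W.erase v := Finset.mem_coe.mp hw
    have : w ∈ V.erase v := Finset.mem_erase.mpr
      ⟨(Finset.mem_erase.mp hw').1, hWV (Finset.mem_erase.mp hw').2⟩
    exact Finset.mem_coe.mpr this
  refine ⟨⟨W, hFW⟩, ?_⟩
  have hnF : next F = M W := by rw [hFW, next_eq W hCPW]
  rw [next_eq V hCP, hnF]
  refine ⟨?_, ?_⟩
  · rintro x ⟨c, hc, hs, rfl⟩
    have hz : ∀ v ∈ V, v ∉ W → (if v ∈ W then c v else 0) = 0 := by
      intro v _ hvW
      rw [if_neg hvW]
    obtain ⟨e1, e2⟩ := nf_restrict V W hWV (fun v => if v ∈ W then c v else 0) hz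
    refine ⟨fun v => if v ∈ W then c v else 0, fun v hv => ?_, ?_, ?_⟩
    · by_cases hvW : v ∈ W
      · simp only [if_pos hvW]
        exact hc v hvW
      · simp only [if_neg hvW]
        norm_num
    · rw [← e1, ← hs]
      exact Finset.sum_congr rfl fun v hv => by simp only [if_pos hv]
    · rw [← e2]
      exact Finset.sum_congr rfl fun v hv => by simp only [if_pos hv]
  · intro x1 hx1 x2 hx2 z hz hseg
    have hzF : z ∈ F := by
      rw [hFW]
      exact M_subset_hull W hz
    have hx1F : x1 ∈ F := hF.left_mem_of_mem_openSegment (M_subset_hull V hx1)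
      (M_subset_hull V hx2) hzF hseg
    obtain ⟨c, hc, hs, rfl⟩ := hx1
    have hz' := hzero c (fun v hv => (hc v hv).1) hs hx1F
    obtain ⟨e1, e2⟩ := nf_restrict V W hWV c hz'
    exact ⟨c, fun v hv => hc v (hWV hv), e1.trans hs, e2⟩


end X_next_face
alias next_face := X_next_face.next_face

namespace X_tri_centroid

theorem tri_centroid_seq (P : Set E) (k : ℕ) : seq P (k + 1) = seq (next P) k := by
  induction k with
  | zero => rfl
  | succ k ih =>
    show next (seq P (k + 1)) = next (seq (next P) k)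
    rw [ih]

theorem tri_centroid (a b c : E) (h : AffineIndependent ℝ ![a, b, c]) (k : ℕ) :
    (1 / 3 : ℝ) • (a + b + c) ∈ seq (convexHull ℝ {a, b, c}) k := by
  classical
  induction k generalizing a b c with
  | zero =>
    show (1 / 3 : ℝ) • (a + b + c) ∈ convexHull ℝ {a, b, c}
    have hconv := convex_convexHull ℝ ({a, b, c} : Set E)
    have ha : a ∈ convexHull ℝ ({a, b, c} : Set E) := subset_convexHull ℝ _ (by simp)
    have hb : b ∈ convexHull ℝ ({a, b, c} : Set E) := subset_convexHull ℝ _ (by simp)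
    have hc : c ∈ convexHull ℝ ({a, b, c} : Set E) := subset_convexHull ℝ _ (by simp)
    have h1 : (1 / 2 : ℝ) • a + (1 / 2 : ℝ) • b ∈ convexHull ℝ ({a, b, c} : Set E) :=
      hconv ha hb (by norm_num) (by norm_num) (by norm_num)
    have h2 := hconv h1 hc (a := (2 / 3 : ℝ)) (b := (1 / 3 : ℝ)) (by norm_num) (by norm_num)
      (by norm_num)
    have e : (1 / 3 : ℝ) • (a + b + c) =
        (2 / 3 : ℝ) • ((1 / 2 : ℝ) • a + (1 / 2 : ℝ) • b) + (1 / 3 : ℝ) • c := by
      module
    rw [e]
    exact h2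
  | succ k ih =>
    rw [tri_centroid_seq]
    have hinj := h.injective
    have hab : a ≠ b := by
      intro e
      have := @hinj 0 1 (by simpa using e)
      exact absurd this (by decide)
    have hac : a ≠ c := by
      intro e
      have := @hinj 0 2 (by simpa using e)
      exact absurd this (by decide)
    have hbc : b ≠ c := by
      intro e
      have := @hinj 1 2 (by simpa using e)
      exact absurd this (by decide)
    have hV : CP ({a, b, c} : Finset E) := by
      intro v hv hmem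
      have key : ∀ i : Fin 3, (![a, b, c] : Fin 3 → E) i = v → False := by
        intro i hi
        have hsub : ((({a, b, c} : Finset E).erase v : Finset E) : Set E) ⊆
            (![a, b, c] : Fin 3 → E) '' (Set.univ \ {i}) := by
          intro w hw
          rw [Finset.mem_coe, Finset.mem_erase] at hw
          obtain ⟨hwv, hw⟩ := hw
          simp only [Finset.mem_insert, Finset.mem_singleton] at hw
          rcases hw with rfl | rfl | rfl
          · refine ⟨0, ⟨Set.mem_univ _, ?_⟩, rfl⟩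
            intro h0
            rw [Set.mem_singleton_iff] at h0
            rw [← h0] at hi
            exact hwv (by simpa using hi)
          · refine ⟨1, ⟨Set.mem_univ _, ?_⟩, rfl⟩
            intro h0
            rw [Set.mem_singleton_iff] at h0
            rw [← h0] at hi
            exact hwv (by simpa using hi)
          · refine ⟨2, ⟨Set.mem_univ _, ?_⟩, rfl⟩
            intro h0
            rw [Set.mem_singleton_iff] at h0
            rw [← h0] at hi
            exact hwv (by simpa using hi)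
        have h1 := convexHull_subset_affineSpan (𝕜 := ℝ) _ (convexHull_mono hsub hmem)
        rw [← hi] at h1
        exact h.notMem_affineSpan_diff i Set.univ h1
      simp only [Finset.mem_insert, Finset.mem_singleton] at hv
      rcases hv with hv | hv | hv
      · exact key 0 (by simpa using hv.symm)
      · exact key 1 (by simpa using hv.symm)
      · exact key 2 (by simpa using hv.symm)
    have hnext : next (convexHull ℝ {a, b, c}) =
        convexHull ℝ {midpoint ℝ b c, midpoint ℝ a c, midpoint ℝ a b} := by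
      have h1 := next_eq ({a, b, c} : Finset E) hV
      rw [M_hull] at h1
      have h2 : (({a, b, c} : Finset E) : Set E) = {a, b, c} := by
        simp
      rw [h2] at h1
      rw [h1]
      congr 1
      ext m
      simp only [Set.mem_setOf_eq, Finset.mem_insert, Finset.mem_singleton, Set.mem_insert_iff,
        Set.mem_singleton_iff]
      constructor
      · rintro ⟨v, hv, w, hw, hvw, rfl⟩
        rcases hv with rfl | rfl | rfl <;> rcases hw with rfl | rfl | rfl
        · exact absurd rfl hvw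
        · right; right; rfl
        · right; left; rfl
        · right; right; exact midpoint_comm _ _
        · exact absurd rfl hvw
        · left; rfl
        · right; left; exact midpoint_comm _ _
        · left; exact midpoint_comm _ _
        · exact absurd rfl hvw
      · rintro (rfl | rfl | rfl)
        · exact ⟨b, by simp, c, by simp, hbc, rfl⟩
        · exact ⟨a, by simp, c, by simp, hac, rfl⟩
        · exact ⟨a, by simp, b, by simp, hab, rfl⟩
    rw [hnext]
    set G : E := (1 / 3 : ℝ) • (a + b + c) with hG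
    have hf : Function.Injective (AffineMap.homothety G (-1 / 2 : ℝ) : E →ᵃ[ℝ] E) := by
      intro x y hxy
      simp only [AffineMap.homothety_apply, vsub_eq_sub, vadd_eq_add] at hxy
      have h1 : (-1 / 2 : ℝ) • (x - G) = (-1 / 2 : ℝ) • (y - G) := add_right_cancel hxy
      have h2 := smul_right_injective E (by norm_num : (-1 / 2 : ℝ) ≠ 0) h1
      exact sub_left_inj.mp h2
    have hai := h.map' (AffineMap.homothety G (-1 / 2 : ℝ) : E →ᵃ[ℝ] E) hf
    have hcomp : (AffineMap.homothety G (-1 / 2 : ℝ) : E →ᵃ[ℝ] E) ∘ ![a, b, c] =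
        ![midpoint ℝ b c, midpoint ℝ a c, midpoint ℝ a b] := by
      ext1 i
      fin_cases i
      · simp only [Function.comp, AffineMap.homothety_apply, vsub_eq_sub, vadd_eq_add, hG,
          midpoint_eq_smul_add, invOf_eq_inv]
        show (-1 / 2 : ℝ) • (a - (1 / 3 : ℝ) • (a + b + c)) + (1 / 3 : ℝ) • (a + b + c) =
          (2⁻¹ : ℝ) • (b + c)
        module
      · simp only [Function.comp, AffineMap.homothety_apply, vsub_eq_sub, vadd_eq_add, hG,
          midpoint_eq_smul_add, invOf_eq_inv]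
        show (-1 / 2 : ℝ) • (b - (1 / 3 : ℝ) • (a + b + c)) + (1 / 3 : ℝ) • (a + b + c) =
          (2⁻¹ : ℝ) • (a + c)
        module
      · simp only [Function.comp, AffineMap.homothety_apply, vsub_eq_sub, vadd_eq_add, hG,
          midpoint_eq_smul_add, invOf_eq_inv]
        show (-1 / 2 : ℝ) • (c - (1 / 3 : ℝ) • (a + b + c)) + (1 / 3 : ℝ) • (a + b + c) =
          (2⁻¹ : ℝ) • (a + b)
        module
    rw [hcomp] at hai
    have hfin := ih _ _ _ hai
    have e : (1 / 3 : ℝ) • (midpoint ℝ b c + midpoint ℝ a c + midpoint ℝ a b) = G := by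
      simp only [midpoint_eq_smul_add, invOf_eq_inv, hG]
      module
    rw [e] at hfin
    exact hfin


end X_tri_centroid
alias tri_centroid := X_tri_centroid.tri_centroid

namespace X_para_center

theorem pc_convex (a u v : E) (α β γ : ℝ) :
    Convex ℝ {x : E | ∃ s t : ℝ, x = a + s • u + t • v ∧ γ ≤ α * s + β * t} := by
  rintro x ⟨s1, t1, rfl, h1⟩ y ⟨s2, t2, rfl, h2⟩ p q hp hq hpq
  refine ⟨p * s1 + q * s2, p * t1 + q * t2, ?_, ?_⟩
  · obtain rfl : p = 1 - q := by linarith
    module
  · have e1 := mul_le_mul_of_nonneg_left h1 hp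
    have e2 := mul_le_mul_of_nonneg_left h2 hq
    have e3 : γ = p * γ + q * γ := by rw [← add_mul, hpq, one_mul]
    calc γ = p * γ + q * γ := e3
      _ ≤ p * (α * s1 + β * t1) + q * (α * s2 + β * t2) := add_le_add e1 e2
      _ = _ := by ring

theorem pc_sep (a u v : E) (h : LinearIndependent ℝ ![u, v]) (α β γ s0 t0 : ℝ) (S : Set E)
    (hS : ∀ x ∈ S, ∃ s t : ℝ, x = a + s • u + t • v ∧ γ ≤ α * s + β * t)
    (h0 : α * s0 + β * t0 < γ) (x0 : E) (hx0 : x0 = a + s0 • u + t0 • v) :
    x0 ∉ convexHull ℝ S := by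
  intro hmem
  have h1 := convexHull_min (t := {x : E | ∃ s t : ℝ, x = a + s • u + t • v ∧ γ ≤ α * s + β * t})
    hS (pc_convex a u v α β γ) hmem
  obtain ⟨s, t, he, hle⟩ := h1
  have h2 : (s0 - s) • u + (t0 - t) • v = 0 := by
    have h3 : a + s0 • u + t0 • v = a + s • u + t • v := hx0.symm.trans he
    have h4 : (s0 - s) • u + (t0 - t) • v = (a + s0 • u + t0 • v) - (a + s • u + t • v) := by
      module
    rw [h4, h3, sub_self]
  obtain ⟨h5, h6⟩ := (LinearIndependent.pair_iff.1 h) _ _ h2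
  have : s = s0 := by linarith
  have : t = t0 := by linarith
  subst_vars
  linarith

theorem pc_CP (a u v : E) (h : LinearIndependent ℝ ![u, v]) :
    CP ({a, a + u, a + v, a + u + v} : Finset E) := by
  intro x hx
  have hx' := hx
  simp only [Finset.mem_insert, Finset.mem_singleton] at hx'
  have q0 : a = a + (0 : ℝ) • u + (0 : ℝ) • v := by module
  have q1 : a + u = a + (1 : ℝ) • u + (0 : ℝ) • v := by module
  have q2 : a + v = a + (0 : ℝ) • u + (1 : ℝ) • v := by module
  have q3 : a + u + v = a + (1 : ℝ) • u + (1 : ℝ) • v := by module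
  have hmem : ∀ y ∈ (({a, a + u, a + v, a + u + v} : Finset E).erase x : Finset E),
      y ≠ x ∧ (y = a ∨ y = a + u ∨ y = a + v ∨ y = a + u + v) := by
    intro y hy
    rw [Finset.mem_erase] at hy
    refine ⟨hy.1, ?_⟩
    have := hy.2
    simpa only [Finset.mem_insert, Finset.mem_singleton] using this
  rcases hx' with hx' | hx' | hx' | hx'
  · refine pc_sep a u v h 1 1 1 0 0 _ ?_ (by norm_num) x (hx'.trans q0)
    intro y hy
    obtain ⟨hne, hy'⟩ := hmem y hy
    rcases hy' with h1 | h1 | h1 | h1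
    · exact absurd (h1.trans hx'.symm) hne
    · exact ⟨1, 0, h1.trans q1, by norm_num⟩
    · exact ⟨0, 1, h1.trans q2, by norm_num⟩
    · exact ⟨1, 1, h1.trans q3, by norm_num⟩
  · refine pc_sep a u v h (-1) 1 0 1 0 _ ?_ (by norm_num) x (hx'.trans q1)
    intro y hy
    obtain ⟨hne, hy'⟩ := hmem y hy
    rcases hy' with h1 | h1 | h1 | h1
    · exact ⟨0, 0, h1.trans q0, by norm_num⟩
    · exact absurd (h1.trans hx'.symm) hne
    · exact ⟨0, 1, h1.trans q2, by norm_num⟩
    · exact ⟨1, 1, h1.trans q3, by norm_num⟩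
  · refine pc_sep a u v h 1 (-1) 0 0 1 _ ?_ (by norm_num) x (hx'.trans q2)
    intro y hy
    obtain ⟨hne, hy'⟩ := hmem y hy
    rcases hy' with h1 | h1 | h1 | h1
    · exact ⟨0, 0, h1.trans q0, by norm_num⟩
    · exact ⟨1, 0, h1.trans q1, by norm_num⟩
    · exact absurd (h1.trans hx'.symm) hne
    · exact ⟨1, 1, h1.trans q3, by norm_num⟩
  · refine pc_sep a u v h (-1) (-1) (-1) 1 1 _ ?_ (by norm_num) x (hx'.trans q3)
    intro y hy
    obtain ⟨hne, hy'⟩ := hmem y hy
    rcases hy' with h1 | h1 | h1 | h1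
    · exact ⟨0, 0, h1.trans q0, by norm_num⟩
    · exact ⟨1, 0, h1.trans q1, by norm_num⟩
    · exact ⟨0, 1, h1.trans q2, by norm_num⟩
    · exact absurd (h1.trans hx'.symm) hne

theorem pc_mid (x y z : E) (h : z = (1 / 2 : ℝ) • x + (1 / 2 : ℝ) • y) : z = midpoint ℝ x y := by
  rw [h, midpoint_eq_smul_add, smul_add]
  norm_num

theorem pc_mid_mem {S : Set E} {x y z : E} (hx : x ∈ convexHull ℝ S) (hy : y ∈ convexHull ℝ S)
    (h : z = (1 / 2 : ℝ) • x + (1 / 2 : ℝ) • y) : z ∈ convexHull ℝ S := by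
  rw [h]
  exact (convex_convexHull ℝ S) hx hy (by norm_num) (by norm_num) (by norm_num)

theorem pc_next (a u v : E) (h : LinearIndependent ℝ ![u, v]) :
    next (convexHull ℝ {a, a + u, a + v, a + u + v}) =
      convexHull ℝ {a + (1 / 2 : ℝ) • v, (a + (1 / 2 : ℝ) • v) + (1 / 2 : ℝ) • (u - v),
        (a + (1 / 2 : ℝ) • v) + (1 / 2 : ℝ) • (u + v),
        (a + (1 / 2 : ℝ) • v) + (1 / 2 : ℝ) • (u - v) + (1 / 2 : ℝ) • (u + v)} := by
  have hV := next_eq _ (pc_CP a u v h)
  have hcoe : ((({a, a + u, a + v, a + u + v} : Finset E)) : Set E) = {a, a + u, a + v, a + u + v} := by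
    simp only [Finset.coe_insert, Finset.coe_singleton]
  rw [hcoe] at hV
  rw [hV, M_hull]
  have hli := LinearIndependent.pair_iff.1 h
  have hu0 : u ≠ 0 := by
    intro h0
    have := hli 1 0 (by rw [h0]; simp)
    exact one_ne_zero this.1
  have hv0 : v ≠ 0 := by
    intro h0
    have := hli 0 1 (by rw [h0]; simp)
    exact one_ne_zero this.2
  set S : Set E := {a + (1 / 2 : ℝ) • v, (a + (1 / 2 : ℝ) • v) + (1 / 2 : ℝ) • (u - v),
        (a + (1 / 2 : ℝ) • v) + (1 / 2 : ℝ) • (u + v),
        (a + (1 / 2 : ℝ) • v) + (1 / 2 : ℝ) • (u - v) + (1 / 2 : ℝ) • (u + v)} with hS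
  have m1 : a + (1 / 2 : ℝ) • v ∈ convexHull ℝ S := subset_convexHull ℝ S (by simp [hS])
  have m2 : (a + (1 / 2 : ℝ) • v) + (1 / 2 : ℝ) • (u - v) ∈ convexHull ℝ S :=
    subset_convexHull ℝ S (by simp [hS])
  have m3 : (a + (1 / 2 : ℝ) • v) + (1 / 2 : ℝ) • (u + v) ∈ convexHull ℝ S :=
    subset_convexHull ℝ S (by simp [hS])
  have m4 : (a + (1 / 2 : ℝ) • v) + (1 / 2 : ℝ) • (u - v) + (1 / 2 : ℝ) • (u + v) ∈ convexHull ℝ S :=
    subset_convexHull ℝ S (by simp [hS])
  have m0 : a + (1 / 2 : ℝ) • u + (1 / 2 : ℝ) • v ∈ convexHull ℝ S :=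
    pc_mid_mem m1 m4 (by module)
  apply Set.Subset.antisymm
  · refine convexHull_min ?_ (convex_convexHull ℝ S)
    rintro m ⟨x, hx, y, hy, hxy, rfl⟩
    simp only [Finset.mem_insert, Finset.mem_singleton] at hx hy
    have em : ∀ z : E, z ∈ convexHull ℝ S → z = (1 / 2 : ℝ) • x + (1 / 2 : ℝ) • y →
        midpoint ℝ x y ∈ convexHull ℝ S := by
      intro z hz he
      rw [← pc_mid x y z he]
      exact hz
    rcases hx with rfl | rfl | rfl | rfl <;> rcases hy with rfl | rfl | rfl | rfl
    · exact absurd rfl hxy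
    · exact em _ m2 (by module)
    · exact em _ m1 (by module)
    · exact em _ m0 (by module)
    · exact em _ m2 (by module)
    · exact absurd rfl hxy
    · exact em _ m0 (by module)
    · exact em _ m4 (by module)
    · exact em _ m1 (by module)
    · exact em _ m0 (by module)
    · exact absurd rfl hxy
    · exact em _ m3 (by module)
    · exact em _ m0 (by module)
    · exact em _ m4 (by module)
    · exact em _ m3 (by module)
    · exact absurd rfl hxy
  · refine convexHull_mono ?_
    intro m hm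
    simp only [hS, Set.mem_insert_iff, Set.mem_singleton_iff] at hm
    rcases hm with rfl | rfl | rfl | rfl
    · refine ⟨a, by simp, a + v, by simp, ?_, pc_mid _ _ _ (by module)⟩
      intro h0
      exact hv0 (by simpa using h0)
    · refine ⟨a, by simp, a + u, by simp, ?_, pc_mid _ _ _ (by module)⟩
      intro h0
      exact hu0 (by simpa using h0)
    · refine ⟨a + v, by simp, a + u + v, by simp, ?_, pc_mid _ _ _ (by module)⟩
      intro h0
      exact hu0 (by simpa using h0)
    · refine ⟨a + u, by simp, a + u + v, by simp, ?_, pc_mid _ _ _ (by module)⟩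
      intro h0
      exact hv0 (by simpa using h0)

theorem pc_seq (P : Set E) (k : ℕ) : seq P (k + 1) = seq (next P) k := by
  induction k with
  | zero => rfl
  | succ k ih =>
    show next (seq P (k + 1)) = next (seq (next P) k)
    rw [ih]

theorem para_center (a u v : E) (h : LinearIndependent ℝ ![u, v]) (k : ℕ) :
    a + (1 / 2 : ℝ) • u + (1 / 2 : ℝ) • v ∈ seq (convexHull ℝ {a, a + u, a + v, a + u + v}) k := by
  induction k generalizing a u v with
  | zero =>
    show _ ∈ convexHull ℝ _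
    have m1 : a ∈ convexHull ℝ {a, a + u, a + v, a + u + v} := subset_convexHull ℝ _ (by simp)
    have m2 : a + u + v ∈ convexHull ℝ {a, a + u, a + v, a + u + v} :=
      subset_convexHull ℝ _ (by simp)
    exact pc_mid_mem m1 m2 (by module)
  | succ k ih =>
    rw [pc_seq, pc_next a u v h]
    have h' : LinearIndependent ℝ ![(1 / 2 : ℝ) • (u - v), (1 / 2 : ℝ) • (u + v)] := by
      rw [LinearIndependent.pair_iff]
      intro s t hst
      have e : ((s + t) / 2) • u + ((t - s) / 2) • v = 0 := by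
        rw [← hst]; module
      obtain ⟨e1, e2⟩ := (LinearIndependent.pair_iff.1 h) _ _ e
      constructor <;> linarith
    have := ih (a + (1 / 2 : ℝ) • v) ((1 / 2 : ℝ) • (u - v)) ((1 / 2 : ℝ) • (u + v)) h'
    have e : a + (1 / 2 : ℝ) • u + (1 / 2 : ℝ) • v = (a + (1 / 2 : ℝ) • v) +
        (1 / 2 : ℝ) • ((1 / 2 : ℝ) • (u - v)) + (1 / 2 : ℝ) • ((1 / 2 : ℝ) • (u + v)) := by
      module
    rw [e]
    exact this


end X_para_center
alias para_center := X_para_center.para_center

namespace X_box_flip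

theorem box_flip_key (o : E) (e : Fin 3 → E) (i : Fin 3) (t : Fin 3 → ℝ) :
    (o + e i) + ∑ j, (Function.update t i (1 - t i)) j • (Function.update e i (-(e i))) j =
      o + ∑ j, t j • e j := by
  have h : ∀ j, (Function.update t i (1 - t i)) j • (Function.update e i (-(e i))) j =
      t j • e j - (if j = i then e i else 0) := by
    intro j
    by_cases hj : j = i
    · subst hj
      simp only [Function.update_self, if_true]
      module
    · simp only [Function.update_of_ne hj, if_neg hj, sub_zero]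
  simp only [h]
  rw [Finset.sum_sub_distrib, Finset.sum_ite_eq' Finset.univ i (fun _ => e i),
    if_pos (Finset.mem_univ i)]
  abel

theorem box_flip_mem (i : Fin 3) (t : Fin 3 → ℝ) (ht : t ∈ Icc (0 : Fin 3 → ℝ) 1) :
    Function.update t i (1 - t i) ∈ Icc (0 : Fin 3 → ℝ) 1 := by
  constructor
  · intro j
    by_cases hj : j = i
    · subst hj
      have := ht.2 j
      simp only [Function.update_self, Pi.zero_apply, Pi.one_apply] at this ⊢
      linarith
    · simp only [Function.update_of_ne hj]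
      exact ht.1 j
  · intro j
    by_cases hj : j = i
    · subst hj
      have := ht.1 j
      simp only [Function.update_self, Pi.zero_apply, Pi.one_apply] at this ⊢
      linarith
    · simp only [Function.update_of_ne hj]
      exact ht.2 j

theorem box_flip (o : E) (e : Fin 3 → E) (i : Fin 3) :
    box o e = box (o + e i) (Function.update e i (-(e i))) := by
  ext x
  constructor
  · rintro ⟨t, ht, rfl⟩
    exact ⟨Function.update t i (1 - t i), box_flip_mem i t ht, box_flip_key o e i t⟩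
  · rintro ⟨s, hs, rfl⟩
    refine ⟨Function.update s i (1 - s i), box_flip_mem i s hs, ?_⟩
    have h := box_flip_key o e i (Function.update s i (1 - s i))
    have e2 : Function.update (Function.update s i (1 - s i)) i
        (1 - (Function.update s i (1 - s i)) i) = s := by
      rw [Function.update_self, Function.update_idem, sub_sub_cancel, Function.update_eq_self]
    rw [e2] at h
    exact h.symm


end X_box_flip
alias box_flip := X_box_flip.box_flip

namespace X_box_polytope

theorem box_polytope (o : E) (e : Fin 3 → E) :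
    box o e = convexHull ℝ (((Finset.univ : Finset (Fin 3 → Bool)).image
      (fun s => o + ∑ i, (if s i then (1 : ℝ) else 0) • e i) : Finset E) : Set E) := by
  obtain ⟨A, hA⟩ : ∃ A : (Fin 3 → ℝ) →ᵃ[ℝ] E, ∀ t, A t = o + ∑ i, t i • e i := by
    refine ⟨(∑ i, (LinearMap.proj i : (Fin 3 → ℝ) →ₗ[ℝ] ℝ).smulRight (e i)).toAffineMap +
      AffineMap.const ℝ (Fin 3 → ℝ) o, fun t => ?_⟩
    simp [add_comm]
  have h1 : box o e = A '' Icc 0 1 := by
    unfold box
    congr 1
    funext t
    exact (hA t).symm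
  have h2 : (Icc 0 1 : Set (Fin 3 → ℝ)) = convexHull ℝ (Set.univ.pi (fun _ : Fin 3 => ({0, 1} : Set ℝ))) := by
    rw [convexHull_pi]
    simp only [convexHull_pair, segment_eq_Icc (zero_le_one' ℝ)]
    exact (Set.pi_univ_Icc (0 : Fin 3 → ℝ) 1).symm
  rw [h1, h2, AffineMap.image_convexHull]
  congr 1
  ext y
  simp only [Finset.coe_image, Finset.coe_univ, Set.image_univ, Set.mem_range, Set.mem_image, Set.mem_pi,
    Set.mem_univ, true_implies, Set.mem_insert_iff, Set.mem_singleton_iff]
  constructor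
  · rintro ⟨t, ht, rfl⟩
    refine ⟨fun i => decide (t i = 1), ?_⟩
    rw [hA]
    congr 1
    refine Finset.sum_congr rfl (fun i _ => ?_)
    rcases ht i with h | h
    · simp [h]
    · simp [h]
  · rintro ⟨s, rfl⟩
    refine ⟨fun i => if s i then 1 else 0, fun i => ?_, hA _⟩
    by_cases h : s i
    · right
      simp [h]
    · left
      simp [h]


end X_box_polytope
alias box_polytope := X_box_polytope.box_polytope

namespace X_box_CP

theorem box_CP (o : E) (e : Fin 3 → E) (he : LinearIndependent ℝ e) :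
    CP ((Finset.univ : Finset (Fin 3 → Bool)).image
      (fun s => o + ∑ i, (if s i then (1 : ℝ) else 0) • e i)) := by
  classical
  let b := basisOfLinearIndependentOfCardEqFinrank he (by simp [E])
  have hb : ∀ i, b i = e i := fun i => by simp [b]
  intro v hv hcon
  obtain ⟨s, -, rfl⟩ := Finset.mem_image.1 hv
  let σ : Fin 3 → ℝ := fun i => if s i then -1 else 1
  let L : E →ₗ[ℝ] ℝ := b.constr ℝ σ
  have hL : ∀ i, L (e i) = σ i := fun i => by
    rw [← hb i]
    exact b.constr_basis ℝ σ i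
  have hvert : ∀ s' : Fin 3 → Bool, L (o + ∑ i, (if s' i then (1 : ℝ) else 0) • e i) =
      L o + ∑ i, (if s' i then (1 : ℝ) else 0) * σ i := by
    intro s'
    rw [map_add, map_sum]
    simp only [map_smul, smul_eq_mul, hL]
  have hsub : (((((Finset.univ : Finset (Fin 3 → Bool)).image
      (fun s => o + ∑ i, (if s i then (1 : ℝ) else 0) • e i))).erase
        (o + ∑ i, (if s i then (1 : ℝ) else 0) • e i) : Finset E) : Set E) ⊆
      {x | L (o + ∑ i, (if s i then (1 : ℝ) else 0) • e i) + 1 ≤ L x} := by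
    intro x hx
    have hx1 := Finset.mem_coe.1 hx
    obtain ⟨hne, hx2⟩ := Finset.mem_erase.1 hx1
    obtain ⟨s', -, hs'⟩ := Finset.mem_image.1 hx2
    have hss : s' ≠ s := fun h => hne (by rw [← hs', h])
    obtain ⟨j, hj⟩ : ∃ j, s' j ≠ s j := by
      by_contra hall
      push Not at hall
      exact hss (funext hall)
    show L (o + ∑ i, (if s i then (1 : ℝ) else 0) • e i) + 1 ≤ L x
    rw [← hs', hvert, hvert]
    have hterm : ∀ i, (if s' i then (1 : ℝ) else 0) * σ i =
        (if s i then (1 : ℝ) else 0) * σ i + (if s' i = s i then 0 else 1) := by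
      intro i
      simp only [σ]
      cases s' i <;> cases s i <;> simp
    have hsum : ∑ i, (if s' i then (1 : ℝ) else 0) * σ i =
        ∑ i, (if s i then (1 : ℝ) else 0) * σ i + ∑ i, (if s' i = s i then (0 : ℝ) else 1) := by
      rw [← Finset.sum_add_distrib]
      exact Finset.sum_congr rfl fun i _ => hterm i
    have hge : (1 : ℝ) ≤ ∑ i, (if s' i = s i then (0 : ℝ) else 1) := by
      have h1 := Finset.single_le_sum (f := fun i => (if s' i = s i then (0 : ℝ) else 1))
        (fun i _ => by split_ifs <;> norm_num) (Finset.mem_univ j)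
      simp only [if_neg hj] at h1
      exact h1
    rw [hsum]
    linarith
  have hfin := convexHull_min hsub (convex_halfSpace_ge L.isLinear _) hcon
  have hfin2 : L (o + ∑ i, (if s i then (1 : ℝ) else 0) • e i) + 1 ≤
      L (o + ∑ i, (if s i then (1 : ℝ) else 0) • e i) := hfin
  linarith


end X_box_CP
alias box_CP := X_box_CP.box_CP

namespace X_box_face

theorem mem_R (o u v : E) (x : E) :
    x ∈ convexHull ℝ {o, o + u, o + v, o + u + v} ↔
      ∃ a b : ℝ, 0 ≤ a ∧ a ≤ 1 ∧ 0 ≤ b ∧ b ≤ 1 ∧ x = o + a • u + b • v := by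
  constructor
  · intro hx
    have hconv : Convex ℝ {x : E | ∃ a b : ℝ, 0 ≤ a ∧ a ≤ 1 ∧ 0 ≤ b ∧ b ≤ 1 ∧
        x = o + a • u + b • v} := by
      rintro x ⟨a, b, ha, ha', hb, hb', rfl⟩ y ⟨c, d, hc, hc', hd, hd', rfl⟩ p q hp hq hpq
      refine ⟨p * a + q * c, p * b + q * d, by positivity, ?_, by positivity, ?_, ?_⟩
      · nlinarith
      · nlinarith
      · have : o = p • o + q • o := by rw [← add_smul, hpq, one_smul]
        calc p • (o + a • u + b • v) + q • (o + c • u + d • v)
            = (p • o + q • o) + (p * a + q * c) • u + (p * b + q * d) • v := by module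
          _ = _ := by rw [← this]
    refine convexHull_min ?_ hconv hx
    rintro y (rfl | rfl | rfl | rfl)
    · exact ⟨0, 0, by norm_num, by norm_num, by norm_num, by norm_num, by simp⟩
    · exact ⟨1, 0, by norm_num, by norm_num, by norm_num, by norm_num, by simp⟩
    · exact ⟨0, 1, by norm_num, by norm_num, by norm_num, by norm_num, by simp⟩
    · exact ⟨1, 1, by norm_num, by norm_num, by norm_num, by norm_num, by simp⟩
  · rintro ⟨a, b, ha, ha', hb, hb', rfl⟩
    set S : Set E := {o, o + u, o + v, o + u + v} with hS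
    have h0 : o ∈ convexHull ℝ S := subset_convexHull ℝ S (by simp [hS])
    have h1 : o + u ∈ convexHull ℝ S := subset_convexHull ℝ S (by simp [hS])
    have h2 : o + v ∈ convexHull ℝ S := subset_convexHull ℝ S (by simp [hS])
    have h3 : o + u + v ∈ convexHull ℝ S := subset_convexHull ℝ S (by simp [hS])
    have hc := convex_convexHull ℝ S
    have k1 : (1 - a) • o + a • (o + u) ∈ convexHull ℝ S :=
      hc h0 h1 (by linarith) ha (by ring)
    have k2 : (1 - a) • (o + v) + a • (o + u + v) ∈ convexHull ℝ S :=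
      hc h2 h3 (by linarith) ha (by ring)
    have k3 := hc k1 k2 (show (0:ℝ) ≤ 1 - b by linarith) hb (by ring)
    have e : (1 - b) • ((1 - a) • o + a • (o + u)) + b • ((1 - a) • (o + v) + a • (o + u + v))
        = o + a • u + b • v := by module
    rwa [e] at k3

theorem box_face (o : E) (e : Fin 3 → E) (he : LinearIndependent ℝ e) :
    IsExtreme ℝ (box o e) (convexHull ℝ {o, o + e 0, o + e 1, o + e 0 + e 1}) := by
  have key : ∀ x1 ∈ box o e, ∀ x2 ∈ box o e,
      ∀ x ∈ convexHull ℝ {o, o + e 0, o + e 1, o + e 0 + e 1}, x ∈ openSegment ℝ x1 x2 →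
      x1 ∈ convexHull ℝ {o, o + e 0, o + e 1, o + e 0 + e 1} := by
    rintro x1 ⟨t, ht, rfl⟩ x2 ⟨s, hs, rfl⟩ x hx ⟨p, q, hp, hq, hpq, hxe⟩
    obtain ⟨a, b, ha, ha', hb, hb', rfl⟩ := (mem_R _ _ _ _).1 hx
    rw [mem_R]
    have hz : ∑ i : Fin 3, (![p * t 0 + q * s 0 - a, p * t 1 + q * s 1 - b,
        p * t 2 + q * s 2] : Fin 3 → ℝ) i • e i = 0 := by
      simp only [Fin.sum_univ_three] at hxe ⊢
      simp only [Matrix.cons_val_zero, Matrix.cons_val_one, Matrix.cons_val]
      have ho : o = p • o + q • o := by rw [← add_smul, hpq, one_smul]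
      have h2 : p • (o + (t 0 • e 0 + t 1 • e 1 + t 2 • e 2)) +
          q • (o + (s 0 • e 0 + s 1 • e 1 + s 2 • e 2)) - (o + a • e 0 + b • e 1) = 0 := by
        rw [sub_eq_zero]; exact hxe
      have h3 : (p * t 0 + q * s 0 - a) • e 0 + (p * t 1 + q * s 1 - b) • e 1 +
          (p * t 2 + q * s 2) • e 2 =
          p • (o + (t 0 • e 0 + t 1 • e 1 + t 2 • e 2)) +
          q • (o + (s 0 • e 0 + s 1 • e 1 + s 2 • e 2)) - ((p • o + q • o) + a • e 0 + b • e 1) := by
        module
      rw [h3, ← ho]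
      exact h2
    have hi := Fintype.linearIndependent_iff.1 he _ hz 2
    simp only [Matrix.cons_val] at hi
    have t2 : 0 ≤ t 2 := ht.1 2
    have s2 : 0 ≤ s 2 := hs.1 2
    have t20 : t 2 = 0 := by
      have : 0 ≤ q * s 2 := by positivity
      have : 0 ≤ p * t 2 := by positivity
      have : p * t 2 = 0 := by linarith
      rcases mul_eq_zero.1 this with h | h
      · exact absurd h hp.ne'
      · exact h
    refine ⟨t 0, t 1, ht.1 0, ht.2 0, ht.1 1, ht.2 1, ?_⟩
    simp only [Fin.sum_univ_three, t20, zero_smul, add_zero, add_assoc]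
  refine ⟨?_, ?_⟩
  · intro x hx
    obtain ⟨a, b, ha, ha', hb, hb', rfl⟩ := (mem_R _ _ _ _).1 hx
    refine ⟨![a, b, 0], ⟨?_, ?_⟩, ?_⟩
    · intro i
      fin_cases i <;> simp [ha, hb]
    · intro i
      fin_cases i <;> simp [ha', hb']
    · simp [Fin.sum_univ_three, add_assoc]
  · intro x1 h1 x2 h2 x hx hs
    exact key x1 h1 x2 h2 x hx hs


end X_box_face
alias box_face := X_box_face.box_face

namespace X_box_corner

theorem box_corner (o : E) (e : Fin 3 → E) (he : LinearIndependent ℝ e) :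
    IsExtreme ℝ (M ((Finset.univ : Finset (Fin 3 → Bool)).image
      (fun s => o + ∑ i, (if s i then (1 : ℝ) else 0) • e i)))
      (convexHull ℝ {o + (1 / 2 : ℝ) • e 0, o + (1 / 2 : ℝ) • e 1, o + (1 / 2 : ℝ) • e 2}) := by
  classical
  obtain ⟨V, hV⟩ : ∃ V : Finset E, V = (Finset.univ : Finset (Fin 3 → Bool)).image
      (fun s => o + ∑ i, (if s i then (1 : ℝ) else 0) • e i) := ⟨_, rfl⟩
  rw [← hV]
  let b : Module.Basis (Fin 3) ℝ E := basisOfLinearIndependentOfCardEqFinrank he (by simp)
  have hb : ∀ i, b i = e i := fun i => by simp [b]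
  obtain ⟨T, hT⟩ : ∃ T : Fin 3 → E → ℝ, T = fun i x => b.repr (x - o) i := ⟨_, rfl⟩
  have hrec : ∀ x, x = o + ∑ i, T i x • e i := by
    intro x
    have h1 := b.sum_repr (x - o)
    simp only [hb] at h1
    rw [hT]
    simp only
    rw [h1]
    abel
  have hTcoef : ∀ (t : Fin 3 → ℝ) (i : Fin 3), T i (o + ∑ j, t j • e j) = t i := by
    intro t i
    rw [hT]
    simp only
    rw [add_sub_cancel_left]
    have h1 : ∑ j, t j • e j = ∑ j, t j • b j := by simp only [hb]
    rw [h1, b.repr_sum_self]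
  have hTlin : ∀ (c : E → ℝ) (x : E), ∑ v ∈ V, c v = 1 → ∑ v ∈ V, c v • v = x →
      ∀ i, T i x = ∑ v ∈ V, c v * T i v := by
    intro c x h1 h2 i
    have h3 : x - o = ∑ v ∈ V, c v • (v - o) := by
      simp only [smul_sub]
      rw [Finset.sum_sub_distrib, ← Finset.sum_smul, h1, h2, one_smul]
    rw [hT]
    simp only
    rw [h3, map_sum, Finsupp.finset_sum_apply]
    refine Finset.sum_congr rfl fun v _ => ?_
    rw [map_smul, Finsupp.smul_apply, smul_eq_mul]
  have hTV : ∀ v ∈ V, ∀ i, T i v = 0 ∨ T i v = 1 := by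
    intro v hv i
    rw [hV, Finset.mem_image] at hv
    obtain ⟨s, _, rfl⟩ := hv
    rw [hTcoef (fun i => if s i then (1 : ℝ) else 0) i]
    by_cases h : s i
    · right; simp [h]
    · left; simp [h]
  have hoV : o ∈ V := by
    rw [hV, Finset.mem_image]
    exact ⟨fun _ => false, Finset.mem_univ _, by simp⟩
  have hTo : ∀ i, T i o = 0 := by
    intro i
    rw [hT]
    simp
  have hf : ∀ x ∈ M V, (∀ i, 0 ≤ T i x) ∧ 1 / 2 ≤ ∑ i, T i x := by
    rintro x ⟨c, hc, h1, h2⟩
    have hl := hTlin c x h1 h2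
    refine ⟨fun i => ?_, ?_⟩
    · rw [hl i]
      refine Finset.sum_nonneg fun v hv => mul_nonneg (hc v hv).1 ?_
      rcases hTV v hv i with h | h <;> rw [h]
      exact zero_le_one
    · have h3 : ∑ i, T i x = ∑ v ∈ V, c v * ∑ i, T i v := by
        simp only [hl]
        rw [Finset.sum_comm]
        refine Finset.sum_congr rfl fun v _ => ?_
        rw [Finset.mul_sum]
      have h4 : ∀ v ∈ V, c v * (1 - (if v = o then 1 else 0)) ≤ c v * ∑ i, T i v := by
        intro v hv
        refine mul_le_mul_of_nonneg_left ?_ (hc v hv).1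
        by_cases hvo : v = o
        · rw [if_pos hvo, sub_self]
          refine Finset.sum_nonneg fun i _ => ?_
          rcases hTV v hv i with h | h <;> rw [h]
          exact zero_le_one
        · rw [if_neg hvo, sub_zero]
          by_contra hlt
          push_neg at hlt
          apply hvo
          have h5 : ∀ i, T i v = 0 := by
            intro i
            rcases hTV v hv i with h | h
            · exact h
            · exfalso
              have h6 : T i v ≤ ∑ j, T j v := by
                refine Finset.single_le_sum (f := fun j => T j v) (fun j _ => ?_) (Finset.mem_univ i)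
                rcases hTV v hv j with h' | h' <;> simp only [h'] <;> norm_num
              linarith
          rw [hrec v]
          simp [h5]
      have h5 : ∑ v ∈ V, c v * (1 - (if v = o then (1:ℝ) else 0)) = 1 - c o := by
        have h6 : ∀ v ∈ V, c v * (1 - (if v = o then (1:ℝ) else 0)) =
            c v - (if v = o then c v else 0) := by
          intro v _
          by_cases h : v = o <;> simp [h]
        rw [Finset.sum_congr rfl h6, Finset.sum_sub_distrib, h1, Finset.sum_ite_eq' V o c,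
          if_pos hoV]
      have h7 := Finset.sum_le_sum h4
      rw [h5, ← h3] at h7
      have := (hc o hoV).2
      linarith
  have hconv : Convex ℝ (M V) := by
    rintro x ⟨c, hc, h1, h2⟩ y ⟨d, hd, h3, h4⟩ a a' ha ha' haa
    refine ⟨fun v => a * c v + a' * d v, fun v hv => ⟨?_, ?_⟩, ?_, ?_⟩
    · have := (hc v hv).1
      have := (hd v hv).1
      positivity
    · have h5 := mul_le_mul_of_nonneg_left (hc v hv).2 ha
      have h6 := mul_le_mul_of_nonneg_left (hd v hv).2 ha'
      have h7 : a * (1/2) + a' * (1/2) = 1/2 := by rw [← add_mul, haa, one_mul]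
      linarith
    · rw [Finset.sum_add_distrib, ← Finset.mul_sum, ← Finset.mul_sum, h1, h3, mul_one, mul_one, haa]
    · rw [← h2, ← h4, Finset.smul_sum, Finset.smul_sum, ← Finset.sum_add_distrib]
      refine Finset.sum_congr rfl fun v _ => ?_
      rw [add_smul, mul_smul, mul_smul]
  have hvert : ∀ i, o + (1 / 2 : ℝ) • e i ∈ M V := by
    intro i
    have hiV : o + e i ∈ V := by
      rw [hV, Finset.mem_image]
      refine ⟨fun j => decide (j = i), Finset.mem_univ _, ?_⟩
      simp
    have hne : o + e i ≠ o := by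
      intro h
      have : e i = 0 := by simpa using h
      exact he.ne_zero i this
    refine ⟨fun v => (if v = o then 1/2 else 0) + (if v = o + e i then 1/2 else 0),
      fun v hv => ⟨?_, ?_⟩, ?_, ?_⟩
    · positivity
    · by_cases h1 : v = o
      · have h2 : v ≠ o + e i := fun h => hne (h.symm.trans h1)
        simp only
        rw [if_pos h1, if_neg h2]
        norm_num
      · simp only
        rw [if_neg h1]
        split_ifs <;> norm_num
    · rw [Finset.sum_add_distrib, Finset.sum_ite_eq' V o, Finset.sum_ite_eq' V (o + e i),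
        if_pos hoV, if_pos hiV]
      norm_num
    · simp only [add_smul, ite_smul, zero_smul]
      rw [Finset.sum_add_distrib, Finset.sum_ite_eq' V o, Finset.sum_ite_eq' V (o + e i),
        if_pos hoV, if_pos hiV, smul_add, ← add_assoc, ← add_smul]
      norm_num
  have hsub : convexHull ℝ {o + (1 / 2 : ℝ) • e 0, o + (1 / 2 : ℝ) • e 1, o + (1 / 2 : ℝ) • e 2} ⊆
      M V := by
    refine convexHull_min ?_ hconv
    intro x hx
    simp only [mem_insert_iff, mem_singleton_iff] at hx
    rcases hx with rfl | rfl | rfl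
    · exact hvert 0
    · exact hvert 1
    · exact hvert 2
  have hTaff : ∀ i (x y : E) (a a' : ℝ), a + a' = 1 → T i (a • x + a' • y) = a * T i x + a' * T i y := by
    intro i x y a a' haa
    have h1 : a • x + a' • y - o = a • (x - o) + a' • (y - o) := by
      have : o = (a + a') • o := by rw [haa, one_smul]
      rw [smul_sub, smul_sub]
      conv_lhs => rw [this]
      rw [add_smul]
      abel
    rw [hT]
    simp only
    rw [h1, map_add, map_smul, map_smul, Finsupp.add_apply, Finsupp.smul_apply,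
      Finsupp.smul_apply, smul_eq_mul, smul_eq_mul]
  have hfT : convexHull ℝ {o + (1 / 2 : ℝ) • e 0, o + (1 / 2 : ℝ) • e 1, o + (1 / 2 : ℝ) • e 2} ⊆
      {x | ∑ i, T i x = 1 / 2} := by
    refine convexHull_min ?_ ?_
    · intro x hx
      have hv : ∀ i, ∑ j, T j (o + (1 / 2 : ℝ) • e i) = 1 / 2 := by
        intro i
        have h1 : o + (1 / 2 : ℝ) • e i = o + ∑ j, (if j = i then (1/2 : ℝ) else 0) • e j := by
          simp
        rw [h1]
        have h2 : ∀ j ∈ Finset.univ, T j (o + ∑ j, (if j = i then (1/2 : ℝ) else 0) • e j) =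
            if j = i then (1/2 : ℝ) else 0 := fun j _ => hTcoef (fun j => if j = i then (1/2:ℝ) else 0) j
        rw [Finset.sum_congr rfl h2]
        simp
      simp only [mem_insert_iff, mem_singleton_iff] at hx
      rcases hx with rfl | rfl | rfl
      · exact hv 0
      · exact hv 1
      · exact hv 2
    · intro x hx y hy a a' ha ha' haa
      simp only [mem_setOf_eq] at hx hy ⊢
      simp only [hTaff _ x y a a' haa]
      rw [Finset.sum_add_distrib, ← Finset.mul_sum, ← Finset.mul_sum, hx, hy, ← add_mul, haa, one_mul]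
  have hback : ∀ x ∈ M V, ∑ i, T i x = 1 / 2 →
      x ∈ convexHull ℝ {o + (1 / 2 : ℝ) • e 0, o + (1 / 2 : ℝ) • e 1, o + (1 / 2 : ℝ) • e 2} := by
    intro x hx h1
    have h0 := (hf x hx).1
    have hx' : x = (2 * T 0 x) • (o + (1 / 2 : ℝ) • e 0) + (2 * T 1 x) • (o + (1 / 2 : ℝ) • e 1) +
        (2 * T 2 x) • (o + (1 / 2 : ℝ) • e 2) := by
      have h2 := hrec x
      rw [Fin.sum_univ_three] at h2 h1
      have h3 : o = (2 * T 0 x + 2 * T 1 x + 2 * T 2 x) • o := by
        have : 2 * T 0 x + 2 * T 1 x + 2 * T 2 x = 1 := by linarith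
        rw [this, one_smul]
      conv_lhs => rw [h2, h3]
      module
    rw [Fin.sum_univ_three] at h1
    have hc := convex_convexHull ℝ
      ({o + (1 / 2 : ℝ) • e 0, o + (1 / 2 : ℝ) • e 1, o + (1 / 2 : ℝ) • e 2} : Set E)
    have m0 : o + (1 / 2 : ℝ) • e 0 ∈ convexHull ℝ
      ({o + (1 / 2 : ℝ) • e 0, o + (1 / 2 : ℝ) • e 1, o + (1 / 2 : ℝ) • e 2} : Set E) :=
      subset_convexHull ℝ _ (by simp)
    have m1 : o + (1 / 2 : ℝ) • e 1 ∈ convexHull ℝ
      ({o + (1 / 2 : ℝ) • e 0, o + (1 / 2 : ℝ) • e 1, o + (1 / 2 : ℝ) • e 2} : Set E) :=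
      subset_convexHull ℝ _ (by simp)
    have m2 : o + (1 / 2 : ℝ) • e 2 ∈ convexHull ℝ
      ({o + (1 / 2 : ℝ) • e 0, o + (1 / 2 : ℝ) • e 1, o + (1 / 2 : ℝ) • e 2} : Set E) :=
      subset_convexHull ℝ _ (by simp)
    have hs := hc.sum_mem (t := Finset.univ) (w := fun i : Fin 3 => 2 * T i x)
      (z := fun i : Fin 3 => o + (1 / 2 : ℝ) • e i)
      (fun i _ => mul_nonneg zero_le_two (h0 i))
      (by rw [Fin.sum_univ_three]; linarith)
      (by
        intro i _
        fin_cases i
        · exact m0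
        · exact m1
        · exact m2)
    rw [Fin.sum_univ_three] at hs
    rw [hx']
    exact hs
  refine ⟨hsub, ?_⟩
  intro x hx y hy z hz hzo
  obtain ⟨a, a', ha, ha', haa, rfl⟩ := hzo
  have h1 := hfT hz
  simp only [mem_setOf_eq, hTaff _ x y a a' haa] at h1
  rw [Finset.sum_add_distrib, ← Finset.mul_sum, ← Finset.mul_sum] at h1
  have h2 := (hf x hx).2
  have h3 := (hf y hy).2
  refine hback x hx ?_
  have h4 := mul_le_mul_of_nonneg_left h3 ha'.le
  have h5 : a * ∑ i, T i x ≤ a * (1/2) := by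
    have : a' = 1 - a := by linarith
    rw [this] at h1 h4
    linarith
  have h6 := le_of_mul_le_mul_left h5 ha
  linarith


end X_box_corner
alias box_corner := X_box_corner.box_corner

namespace X_para_volume

theorem vol_img (o : E) (e : Fin 3 → E) : ∃ c : ENNReal, ∀ S : Set (Fin 3 → ℝ),
    volume ((fun t : Fin 3 → ℝ => o + ∑ i, t i • e i) '' S) = c * volume S := by
  let g : (Fin 3 → ℝ) →ₗ[ℝ] (Fin 3 → ℝ) :=
    { toFun := fun t => ∑ i, t i • (e i).ofLp
      map_add' := by
        intro x y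
        simp [add_smul, Finset.sum_add_distrib]
      map_smul' := by
        intro a x
        simp [mul_smul, Finset.smul_sum] }
  refine ⟨ENNReal.ofReal |LinearMap.det g|, fun S => ?_⟩
  have hmp := (EuclideanSpace.volume_preserving_symm_measurableEquiv_toLp (Fin 3)).symm
  have h1 := hmp.measure_preimage_equiv ((fun t : Fin 3 → ℝ => o + ∑ i, t i • e i) '' S)
  rw [← h1]
  have h2 : ((MeasurableEquiv.toLp 2 (Fin 3 → ℝ)).symm.symm) ⁻¹' ((fun t : Fin 3 → ℝ => o + ∑ i, t i • e i) '' S) =
      (fun x => o.ofLp + x) '' (g '' S) := by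
    ext x
    constructor
    · rintro ⟨t, ht, hx⟩
      refine ⟨g t, ⟨t, ht, rfl⟩, ?_⟩
      have hx' : o + ∑ i, t i • e i = WithLp.toLp 2 x := hx
      have := congrArg WithLp.ofLp hx'
      simp only [WithLp.ofLp_add, WithLp.ofLp_sum, WithLp.ofLp_smul] at this
      exact this
    · rintro ⟨_, ⟨t, ht, rfl⟩, hx⟩
      refine ⟨t, ht, ?_⟩
      show o + ∑ i, t i • e i = WithLp.toLp 2 x
      rw [← hx]
      have h3 : o.ofLp + g t = (o + ∑ i, t i • e i).ofLp := by
        simp only [WithLp.ofLp_add, WithLp.ofLp_sum, WithLp.ofLp_smul]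
        rfl
      show o + ∑ i, t i • e i = WithLp.toLp 2 (o.ofLp + g t)
      rw [h3]
  rw [h2, Set.image_add_left, measure_preimage_add, Measure.addHaar_image_linearMap]

theorem mix {D : Set (Fin 3 → ℝ)} (hD : Convex ℝ D) {a b c a' b' c' : ℝ}
    (h : ![a, b, c] ∈ D) (h' : ![a', b', c'] ∈ D) (l : ℝ) (h0 : 0 ≤ l) (h1 : l ≤ 1) :
    ![a + l * (a' - a), b + l * (b' - b), c + l * (c' - c)] ∈ D := by
  have := hD h h' (sub_nonneg.2 h1) h0 (by ring)
  convert this using 1
  ext i
  fin_cases i <;> simp <;> ring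

theorem para_volume (o : E) (e : Fin 3 → E) (he : LinearIndependent ℝ e) (C : Set E)
    (hC : Convex ℝ C)
    (h8 : ∀ s : Fin 3 → ℝ, (∀ i, s i = 1 / 6 ∨ s i = 5 / 6) → o + ∑ i, s i • e i ∈ C)
    (h1 : o + (1 / 2 : ℝ) • e 0 + (1 / 2 : ℝ) • e 1 ∈ C)
    (h2 : o + e 2 + (1 / 2 : ℝ) • e 0 + (1 / 2 : ℝ) • e 1 ∈ C) :
    ENNReal.ofReal (318 / 1000) * volume (box o e) ≤ volume C := by
  obtain ⟨c, hc⟩ := vol_img o e
  set D : Set (Fin 3 → ℝ) := (fun t : Fin 3 → ℝ => o + ∑ i, t i • e i) ⁻¹' C with hDdef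
  have hD : Convex ℝ D := by
    intro x hx y hy a b ha hb hab
    have := hC hx hy ha hb hab
    show o + ∑ i, (a • x + b • y) i • e i ∈ C
    convert this using 1
    simp only [Pi.add_apply, Pi.smul_apply, smul_eq_mul, add_smul, mul_smul, Finset.sum_add_distrib,
      smul_add, Finset.smul_sum]
    have : o = a • o + b • o := by rw [← add_smul, hab, one_smul]
    nth_rewrite 1 [this]
    abel
  have hv : ∀ a b c : ℝ, (a = 1 / 6 ∨ a = 5 / 6) → (b = 1 / 6 ∨ b = 5 / 6) → (c = 1 / 6 ∨ c = 5 / 6) →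
      ![a, b, c] ∈ D := by
    intro a b c ha hb hc
    apply h8
    intro i
    fin_cases i
    · exact ha
    · exact hb
    · exact hc
  have hb0 : ![(1/2 : ℝ), 1/2, 0] ∈ D := by
    show o + ∑ i, (![(1/2 : ℝ), 1/2, 0] : Fin 3 → ℝ) i • e i ∈ C
    convert h1 using 1
    simp [Fin.sum_univ_three, add_assoc]
  have hb1 : ![(1/2 : ℝ), 1/2, 1] ∈ D := by
    show o + ∑ i, (![(1/2 : ℝ), 1/2, 1] : Fin 3 → ℝ) i • e i ∈ C
    convert h2 using 1
    simp [Fin.sum_univ_three]
    abel
  -- the cube
  have hl : ∀ t : ℝ, 1 / 6 ≤ t → t ≤ 5 / 6 → 0 ≤ (t - 1/6) * (3/2) ∧ (t - 1/6) * (3/2) ≤ 1 := by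
    intro t h h'
    constructor <;> linarith
  have c1 : ∀ a b c : ℝ, (1 / 6 ≤ a ∧ a ≤ 5 / 6) → (b = 1 / 6 ∨ b = 5 / 6) → (c = 1 / 6 ∨ c = 5 / 6) →
      ![a, b, c] ∈ D := by
    intro a b c ha hb hc
    have := mix hD (hv (1/6) b c (Or.inl rfl) hb hc) (hv (5/6) b c (Or.inr rfl) hb hc) _
      (hl a ha.1 ha.2).1 (hl a ha.1 ha.2).2
    convert this using 1
    ext i
    fin_cases i <;> simp <;> ring
  have c2 : ∀ a b c : ℝ, (1 / 6 ≤ a ∧ a ≤ 5 / 6) → (1 / 6 ≤ b ∧ b ≤ 5 / 6) → (c = 1 / 6 ∨ c = 5 / 6) →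
      ![a, b, c] ∈ D := by
    intro a b c ha hb hc
    have := mix hD (c1 a (1/6) c ha (Or.inl rfl) hc) (c1 a (5/6) c ha (Or.inr rfl) hc) _
      (hl b hb.1 hb.2).1 (hl b hb.1 hb.2).2
    convert this using 1
    ext i
    fin_cases i <;> simp <;> ring
  have c3 : ∀ a b c : ℝ, (1 / 6 ≤ a ∧ a ≤ 5 / 6) → (1 / 6 ≤ b ∧ b ≤ 5 / 6) → (1 / 6 ≤ c ∧ c ≤ 5 / 6) →
      ![a, b, c] ∈ D := by
    intro a b c ha hb hc
    have := mix hD (c2 a b (1/6) ha hb (Or.inl rfl)) (c2 a b (5/6) ha hb (Or.inr rfl)) _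
      (hl c hc.1 hc.2).1 (hl c hc.1 hc.2).2
    convert this using 1
    ext i
    fin_cases i <;> simp <;> ring
  -- pyramids
  have hu : ∀ t l : ℝ, 5 / 18 ≤ t → t ≤ 13 / 18 → 0 ≤ l → l ≤ 1 / 3 →
      (1 / 6 ≤ 1/2 + (t - 1/2) / (1 - l) ∧ 1/2 + (t - 1/2) / (1 - l) ≤ 5 / 6) := by
    intro t l h h' h0 h1
    have hp : 0 < 1 - l := by linarith
    constructor
    · have : -(1/3) ≤ (t - 1/2) / (1 - l) := by rw [le_div_iff₀ hp]; nlinarith
      linarith
    · have : (t - 1/2) / (1 - l) ≤ 1/3 := by rw [div_le_iff₀ hp]; nlinarith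
      linarith
  have p2 : ∀ a b c : ℝ, (5 / 18 ≤ a ∧ a ≤ 13 / 18) → (5 / 18 ≤ b ∧ b ≤ 13 / 18) → (5 / 6 < c ∧ c ≤ 8 / 9) →
      ![a, b, c] ∈ D := by
    intro a b c ha hb hc
    have l0 : 0 ≤ 6 * (c - 5/6) := by linarith
    have l1 : 6 * (c - 5/6) ≤ 1/3 := by linarith
    have hp : 1 - 6 * (c - 5/6) ≠ 0 := by
      have : 0 < 1 - 6 * (c - 5/6) := by linarith
      exact this.ne'
    have := mix hD (c3 _ _ (5/6) (hu a _ ha.1 ha.2 l0 l1) (hu b _ hb.1 hb.2 l0 l1) (by norm_num)) hb1
      (6 * (c - 5/6)) l0 (by linarith)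
    convert this using 1
    have e1 : ∀ t : ℝ, t = 1/2 + (t - 1/2) / (1 - 6 * (c - 5/6)) + 6 * (c - 5/6) * (1/2 - (1/2 + (t - 1/2) / (1 - 6 * (c - 5/6)))) := by
      intro t
      have h9 : (t - 1/2) / (1 - 6 * (c - 5/6)) * (1 - 6 * (c - 5/6)) = t - 1/2 := div_mul_cancel₀ _ hp
      linear_combination -h9
    ext i
    fin_cases i
    · exact e1 a
    · exact e1 b
    · show c = 5/6 + 6 * (c - 5/6) * (1 - 5/6)
      ring
  have p3 : ∀ a b c : ℝ, (5 / 18 ≤ a ∧ a ≤ 13 / 18) → (5 / 18 ≤ b ∧ b ≤ 13 / 18) → (1 / 9 ≤ c ∧ c < 1 / 6) →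
      ![a, b, c] ∈ D := by
    intro a b c ha hb hc
    have l0 : 0 ≤ 6 * (1/6 - c) := by linarith
    have l1 : 6 * (1/6 - c) ≤ 1/3 := by linarith
    have hp : 1 - 6 * (1/6 - c) ≠ 0 := by
      have : 0 < 1 - 6 * (1/6 - c) := by linarith
      exact this.ne'
    have := mix hD (c3 _ _ (1/6) (hu a _ ha.1 ha.2 l0 l1) (hu b _ hb.1 hb.2 l0 l1) (by norm_num)) hb0
      (6 * (1/6 - c)) l0 (by linarith)
    convert this using 1
    have e1 : ∀ t : ℝ, t = 1/2 + (t - 1/2) / (1 - 6 * (1/6 - c)) + 6 * (1/6 - c) * (1/2 - (1/2 + (t - 1/2) / (1 - 6 * (1/6 - c)))) := by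
      intro t
      have h9 : (t - 1/2) / (1 - 6 * (1/6 - c)) * (1 - 6 * (1/6 - c)) = t - 1/2 := div_mul_cancel₀ _ hp
      linear_combination -h9
    ext i
    fin_cases i
    · exact e1 a
    · exact e1 b
    · show c = 1/6 + 6 * (1/6 - c) * (0 - 1/6)
      ring
  -- volumes
  let B1 : Set (Fin 3 → ℝ) := Set.pi univ ![Icc (1/6 : ℝ) (5/6), Icc (1/6 : ℝ) (5/6), Icc (1/6 : ℝ) (5/6)]
  let B2 : Set (Fin 3 → ℝ) := Set.pi univ ![Icc (5/18 : ℝ) (13/18), Icc (5/18 : ℝ) (13/18), Ioc (5/6 : ℝ) (8/9)]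
  let B3 : Set (Fin 3 → ℝ) := Set.pi univ ![Icc (5/18 : ℝ) (13/18), Icc (5/18 : ℝ) (13/18), Ico (1/9 : ℝ) (1/6)]
  have hvec : ∀ t : Fin 3 → ℝ, t = ![t 0, t 1, t 2] := by
    intro t
    ext i
    fin_cases i <;> rfl
  have m1 : B1 ⊆ D := by
    intro t ht
    have a0 := ht 0 (mem_univ _)
    have a1 := ht 1 (mem_univ _)
    have a2 := ht 2 (mem_univ _)
    rw [hvec t]
    exact c3 _ _ _ a0 a1 a2
  have m2 : B2 ⊆ D := by
    intro t ht
    have a0 := ht 0 (mem_univ _)
    have a1 := ht 1 (mem_univ _)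
    have a2 := ht 2 (mem_univ _)
    rw [hvec t]
    exact p2 _ _ _ a0 a1 a2
  have m3 : B3 ⊆ D := by
    intro t ht
    have a0 := ht 0 (mem_univ _)
    have a1 := ht 1 (mem_univ _)
    have a2 := ht 2 (mem_univ _)
    rw [hvec t]
    exact p3 _ _ _ a0 a1 a2
  have v1 : volume B1 = ENNReal.ofReal (8/27) := by
    rw [volume_pi_pi, Fin.prod_univ_three]
    simp only [Matrix.cons_val_zero, Matrix.cons_val_one, Matrix.cons_val, Real.volume_Icc]
    rw [← ENNReal.ofReal_mul (by norm_num), ← ENNReal.ofReal_mul (by norm_num)]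
    norm_num
  have v2 : volume B2 = ENNReal.ofReal (16/1458) := by
    rw [volume_pi_pi, Fin.prod_univ_three]
    simp only [Matrix.cons_val_zero, Matrix.cons_val_one, Matrix.cons_val, Real.volume_Icc, Real.volume_Ioc]
    rw [← ENNReal.ofReal_mul (by norm_num), ← ENNReal.ofReal_mul (by norm_num)]
    norm_num
  have v3 : volume B3 = ENNReal.ofReal (16/1458) := by
    rw [volume_pi_pi, Fin.prod_univ_three]
    simp only [Matrix.cons_val_zero, Matrix.cons_val_one, Matrix.cons_val, Real.volume_Icc, Real.volume_Ico]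
    rw [← ENNReal.ofReal_mul (by norm_num), ← ENNReal.ofReal_mul (by norm_num)]
    norm_num
  have mb2 : MeasurableSet B2 := by
    apply MeasurableSet.univ_pi
    intro i
    fin_cases i
    · exact measurableSet_Icc
    · exact measurableSet_Icc
    · exact measurableSet_Ioc
  have mb3 : MeasurableSet B3 := by
    apply MeasurableSet.univ_pi
    intro i
    fin_cases i
    · exact measurableSet_Icc
    · exact measurableSet_Icc
    · exact measurableSet_Ico
  have d12 : Disjoint B1 B2 := by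
    rw [Set.disjoint_left]
    intro t h h'
    have a2 : t 2 ≤ 5/6 := (h 2 (mem_univ _)).2
    have b2 : 5/6 < t 2 := (h' 2 (mem_univ _)).1
    linarith
  have d123 : Disjoint (B1 ∪ B2) B3 := by
    rw [Set.disjoint_left]
    intro t h h'
    have b2 : t 2 < 1/6 := (h' 2 (mem_univ _)).2
    rcases h with h | h
    · have a2 : 1/6 ≤ t 2 := (h 2 (mem_univ _)).1
      linarith
    · have a2 : 5/6 < t 2 := (h 2 (mem_univ _)).1
      linarith
  have hvol : ENNReal.ofReal (318 / 1000) ≤ volume D := by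
    calc ENNReal.ofReal (318 / 1000) ≤ ENNReal.ofReal (8/27 + 16/1458 + 16/1458) :=
          ENNReal.ofReal_le_ofReal (by norm_num)
      _ = volume (B1 ∪ B2 ∪ B3) := by
          rw [measure_union d123 mb3, measure_union d12 mb2, v1, v2, v3,
            ENNReal.ofReal_add (by norm_num) (by norm_num), ENNReal.ofReal_add (by norm_num) (by norm_num)]
      _ ≤ volume D := measure_mono (Set.union_subset (Set.union_subset m1 m2) m3)
  have hbox : volume (box o e) = c := by
    unfold box
    rw [hc, Real.volume_Icc_pi]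
    simp
  rw [hbox]
  calc ENNReal.ofReal (318 / 1000) * c ≤ volume D * c := by gcongr
    _ = c * volume D := mul_comm _ _
    _ = volume ((fun t : Fin 3 → ℝ => o + ∑ i, t i • e i) '' D) := (hc D).symm
    _ ≤ volume C := measure_mono (Set.image_preimage_subset _ _)


end X_para_volume
alias para_volume := X_para_volume.para_volume

namespace X_box_interior

theorem box_interior (o : E) (e : Fin 3 → E) (he : LinearIndependent ℝ e) :
    (interior (box o e)).Nonempty := by
  have hcard : Fintype.card (Fin 3) = Module.finrank ℝ E := by simp [E]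
  have hsurj : Function.Surjective (Fintype.linearCombination ℝ e) := by
    have hspan := he.span_eq_top_of_card_eq_finrank' hcard
    rw [← LinearMap.range_eq_top, Fintype.range_linearCombination, hspan]
  have hopen : IsOpenMap (Fintype.linearCombination ℝ e) :=
    LinearMap.isOpenMap_of_finiteDimensional _ hsurj
  have hopen2 : IsOpenMap (fun t : Fin 3 → ℝ => o + ∑ i, t i • e i) := by
    have h := (Homeomorph.addLeft o).isOpenMap.comp hopen
    exact h
  have hU : IsOpen (Set.pi univ (fun _ : Fin 3 => Ioo (0:ℝ) 1)) :=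
    isOpen_set_pi finite_univ (fun _ _ => isOpen_Ioo)
  refine ⟨o + ∑ i, (fun _ : Fin 3 => (1/2 : ℝ)) i • e i, ?_⟩
  refine interior_maximal ?_ (hopen2 _ hU) ?_
  · unfold box
    refine image_mono ?_
    intro t ht
    refine ⟨fun i => ?_, fun i => ?_⟩
    · exact (ht i (mem_univ i)).1.le
    · exact (ht i (mem_univ i)).2.le
  · refine ⟨fun _ => 1/2, ?_, rfl⟩
    intro i _
    constructor <;> norm_num


end X_box_interior
alias box_interior := X_box_interior.box_interior

end Pool.Agent.Helper584.FS
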