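import Mathlib

set_option autoImplicit false

open MeasureTheory Set

namespace Pool.Agent.Helper584.FS

/-- Euclidean three-space. -/
abbrev E : Type := EuclideanSpace ℝ (Fin 3)

/-- A convex polyhedron: the convex hull of finitely many points, with nonempty interior
(equivalently, the points are not all in one plane). -/
def IsPolyhedron (P : Set E) : Prop :=
  (∃ V : Finset E, P = convexHull ℝ (V : Set E)) ∧ (interior P).Nonempty

/-- A tetrahedron: the convex hull of four affinely independent points. -/
def IsTetrahedron (P : Set E) : Prop :=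
  ∃ v : Fin 4 → E, AffineIndependent ℝ v ∧ P = convexHull ℝ (range v)

/-- The midpoints of the edges of `P`. An edge is a segment with distinct endpoints which is a
face (an extreme subset) of `P`. -/
def edgeMidpoints (P : Set E) : Set E :=
  {m | ∃ v w : E, v ≠ w ∧ IsExtreme ℝ P (segment ℝ v w) ∧ m = midpoint ℝ v w}

/-- The convex hull of the midpoints of all edges. -/
def next (P : Set E) : Set E := convexHull ℝ (edgeMidpoints P)

/-- Combinations of the points of `V` with all weights at most `1/2`. -/
def M (V : Finset E) : Set E :=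
  {x | ∃ c : E → ℝ, (∀ v ∈ V, 0 ≤ c v ∧ c v ≤ 1 / 2) ∧ ∑ v ∈ V, c v = 1 ∧ ∑ v ∈ V, c v • v = x}

/-- `V` is in convex position. -/
def CP (V : Finset E) : Prop := ∀ v ∈ V, v ∉ convexHull ℝ ((V.erase v : Finset E) : Set E)

/-- The cap cut off at `v`. -/
def cap (V : Finset E) (v : E) : Set E := AffineMap.homothety v (1 / 2 : ℝ) ''
  (convexHull ℝ (V : Set E) \ convexHull ℝ ((V.erase v : Finset E) : Set E))

/-- The six midpoints of the edges of a tetrahedron. -/
noncomputable def V6 (v : Fin 4 → E) : Finset E :=
  (Finset.univ.filter (fun p : Fin 4 × Fin 4 => p.1 < p.2)).image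
    (fun p => midpoint ℝ (v p.1) (v p.2))


end Pool.Agent.Helper584.FS
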