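import Pool.Agent.Helper584.FS.Defs

set_option autoImplicit false

open MeasureTheory Set

namespace Pool.Agent.Helper584.FS

namespace X_M_convex


theorem M_convex (V : Finset E) : Convex ℝ (M V) := by
  rintro x ⟨c, hc, hc1, hcx⟩ y ⟨d, hd, hd1, hdy⟩ a b ha hb hab
  refine ⟨fun v => a * c v + b * d v, ?_, ?_, ?_⟩
  · intro v hv
    obtain ⟨h1, h2⟩ := hc v hv
    obtain ⟨h3, h4⟩ := hd v hv
    constructor
    · positivity
    · show a * c v + b * d v ≤ 1 / 2
      have h5 : a * c v ≤ a * (1 / 2) := mul_le_mul_of_nonneg_left h2 ha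
      have h6 : b * d v ≤ b * (1 / 2) := mul_le_mul_of_nonneg_left h4 hb
      have h7 : a * (1 / 2) + b * (1 / 2) = 1 / 2 := by rw [← add_mul, hab, one_mul]
      linarith
  · rw [Finset.sum_add_distrib, ← Finset.mul_sum, ← Finset.mul_sum, hc1, hd1]
    linarith
  · rw [← hcx, ← hdy, Finset.smul_sum, Finset.smul_sum, ← Finset.sum_add_distrib]
    apply Finset.sum_congr rfl
    intro v _
    rw [add_smul, mul_smul, mul_smul]


end X_M_convex
alias M_convex := X_M_convex.M_convex

namespace X_M_compact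


theorem M_compact (V : Finset E) : IsCompact (M V) := by
  classical
  let S : Set (↥V → ℝ) := (Set.pi univ (fun _ => Icc (0 : ℝ) (1 / 2))) ∩ {c | ∑ v, c v = 1}
  have hS : IsCompact S := by
    apply (isCompact_univ_pi fun _ => isCompact_Icc).inter_right
    exact isClosed_eq (continuous_finsetSum _ fun v _ => continuous_apply v) continuous_const
  let f : (↥V → ℝ) → E := fun c => ∑ v, c v • (v : E)
  have hf : Continuous f :=
    continuous_finsetSum _ fun v _ => (continuous_apply v).smul continuous_const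
  have hM : M V = f '' S := by
    ext x
    constructor
    · rintro ⟨c, hc, hsum, hx⟩
      refine ⟨fun v => c v, ⟨fun v _ => ⟨(hc v v.2).1, (hc v v.2).2⟩, ?_⟩, ?_⟩
      · show ∑ v : ↥V, c v = 1
        rw [Finset.sum_coe_sort V (fun v => c v)]
        exact hsum
      · show ∑ v : ↥V, c v • (v : E) = x
        rw [Finset.sum_coe_sort V (fun v => c v • v)]
        exact hx
    · rintro ⟨c, ⟨hc, hsum⟩, rfl⟩
      have hval : ∀ v : ↥V, (fun w : E => if h : w ∈ V then c ⟨w, h⟩ else 0) (v : E) = c v := by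
        intro v
        show (if h : (v : E) ∈ V then c ⟨v, h⟩ else 0) = c v
        rw [dif_pos v.2]
      refine ⟨fun w : E => if h : w ∈ V then c ⟨w, h⟩ else 0, ?_, ?_, ?_⟩
      · intro v hv
        have h1 := hval ⟨v, hv⟩
        have h2 := hc ⟨v, hv⟩ (mem_univ _)
        show 0 ≤ (fun w : E => if h : w ∈ V then c ⟨w, h⟩ else 0) v ∧
          (fun w : E => if h : w ∈ V then c ⟨w, h⟩ else 0) v ≤ 1 / 2
        have h1' : (fun w : E => if h : w ∈ V then c ⟨w, h⟩ else 0) v = c ⟨v, hv⟩ := h1
        rw [h1']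
        exact ⟨h2.1, h2.2⟩
      · rw [← Finset.sum_coe_sort V]
        rw [Finset.sum_congr rfl (fun v _ => hval v)]
        exact hsum
      · rw [← Finset.sum_coe_sort V]
        show _ = ∑ v, c v • (v : E)
        refine Finset.sum_congr rfl fun v _ => ?_
        have := hval v
        show (fun w : E => if h : w ∈ V then c ⟨w, h⟩ else 0) (v : E) • (v : E) = c v • (v : E)
        rw [this]
  rw [hM]
  exact hS.image hf


end X_M_compact
alias M_compact := X_M_compact.M_compact

namespace X_two_half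


theorem two_half (V : Finset E) (x : E) (hx : x ∈ (M V).extremePoints ℝ) :
    ∃ v ∈ V, ∃ w ∈ V, v ≠ w ∧ x = midpoint ℝ v w := by
  classical
  rw [mem_extremePoints] at hx
  obtain ⟨⟨c, hc, hsum, hxc⟩, hext⟩ := hx
  have huniq : ∀ a ∈ V, ∀ b ∈ V, (c a ≠ 0 ∧ c a ≠ 1 / 2) → (c b ≠ 0 ∧ c b ≠ 1 / 2) → a = b := by
    intro a ha b hb hca hcb
    by_contra hab
    have a0 : 0 < c a := lt_of_le_of_ne (hc a ha).1 (Ne.symm hca.1)
    have a1 : c a < 1 / 2 := lt_of_le_of_ne (hc a ha).2 hca.2
    have b0 : 0 < c b := lt_of_le_of_ne (hc b hb).1 (Ne.symm hcb.1)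
    have b1 : c b < 1 / 2 := lt_of_le_of_ne (hc b hb).2 hcb.2
    obtain ⟨t, ht0, ht1, ht2, ht3, ht4⟩ : ∃ t : ℝ, 0 < t ∧ t ≤ c a ∧ t ≤ c b ∧ t ≤ 1 / 2 - c a ∧
        t ≤ 1 / 2 - c b := by
      refine ⟨min (min (c a) (c b)) (min (1 / 2 - c a) (1 / 2 - c b)), ?_, ?_, ?_, ?_, ?_⟩
      · exact lt_min (lt_min a0 b0) (lt_min (by linarith) (by linarith))
      · exact (min_le_left _ _).trans (min_le_left _ _)
      · exact (min_le_left _ _).trans (min_le_right _ _)
      · exact (min_le_right _ _).trans (min_le_left _ _)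
      · exact (min_le_right _ _).trans (min_le_right _ _)
    have hmem : ∀ τ : ℝ, |τ| ≤ t → x + τ • (a - b) ∈ M V := by
      intro τ hτ
      have h1 := abs_le.1 hτ
      refine ⟨fun v => c v + τ * ((if v = a then 1 else 0) - (if v = b then 1 else 0)), ?_, ?_, ?_⟩
      · intro v hv
        by_cases hva : v = a
        · subst hva
          simp only [if_true, hab, if_false]
          constructor <;> linarith [h1.1, h1.2]
        · by_cases hvb : v = b
          · subst hvb
            simp only [if_true, hva, if_false]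
            constructor <;> linarith [h1.1, h1.2]
          · simp only [hva, hvb, if_false, sub_self, mul_zero, add_zero]
            exact hc v hv
      · rw [Finset.sum_add_distrib, hsum, ← Finset.mul_sum, Finset.sum_sub_distrib,
          Finset.sum_ite_eq', Finset.sum_ite_eq', if_pos ha, if_pos hb]
        ring
      · have e : ∀ v, (c v + τ * ((if v = a then (1 : ℝ) else 0) - (if v = b then 1 else 0))) • v =
            c v • v + τ • ((if v = a then v else 0) - (if v = b then v else 0)) := by
          intro v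
          rw [add_smul, mul_smul, sub_smul, ite_smul, ite_smul, one_smul, zero_smul]
        simp_rw [e]
        rw [Finset.sum_add_distrib, hxc, ← Finset.smul_sum, Finset.sum_sub_distrib,
          Finset.sum_ite_eq', Finset.sum_ite_eq', if_pos ha, if_pos hb]
    have h1 := hmem t (by rw [abs_of_pos ht0])
    have h2 := hmem (-t) (by rw [abs_neg, abs_of_pos ht0])
    have h3 : x ∈ openSegment ℝ (x + t • (a - b)) (x + (-t) • (a - b)) := by
      refine ⟨1 / 2, 1 / 2, by norm_num, by norm_num, by norm_num, ?_⟩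
      module
    have h4 := (hext _ h1 _ h2 h3).1
    have h5 : t • (a - b) = 0 := by simpa using h4
    rcases smul_eq_zero.1 h5 with h6 | h6
    · exact ht0.ne' h6
    · exact hab (sub_eq_zero.1 h6)
  set H := V.filter (fun v => c v = 1 / 2) with hH
  have hsplit := Finset.sum_filter_add_sum_filter_not V (fun v => c v = 1 / 2) c
  have hHsum : ∑ v ∈ V.filter (fun v => c v = 1 / 2), c v = (H.card : ℝ) / 2 := by
    rw [Finset.sum_congr rfl (fun v hv => (Finset.mem_filter.1 hv).2), Finset.sum_const, nsmul_eq_mul]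
    ring
  rw [hHsum, hsum] at hsplit
  by_cases hK : ∃ a ∈ V, c a ≠ 0 ∧ c a ≠ 1 / 2
  · exfalso
    obtain ⟨a, ha, hca⟩ := hK
    have h1 : ∑ v ∈ V.filter (fun v => ¬ c v = 1 / 2), c v = c a := by
      rw [Finset.sum_eq_single a]
      · intro b hb hba
        have hb' := Finset.mem_filter.1 hb
        by_contra hcb
        exact hba (huniq b hb'.1 a ha ⟨hcb, hb'.2⟩ hca)
      · intro hna
        exact absurd (Finset.mem_filter.2 ⟨ha, hca.2⟩) hna
    rw [h1] at hsplit
    have a0 : 0 < c a := lt_of_le_of_ne (hc a ha).1 (Ne.symm hca.1)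
    have a1 : c a < 1 / 2 := lt_of_le_of_ne (hc a ha).2 hca.2
    have h2 : (H.card : ℝ) < 2 := by linarith
    have h3 : (1 : ℝ) < H.card := by linarith
    have h4 : H.card < 2 := by exact_mod_cast h2
    have h5 : 1 < H.card := by exact_mod_cast h3
    omega
  · push Not at hK
    have h0 : ∀ v ∈ V.filter (fun v => ¬ c v = 1 / 2), c v = 0 := by
      intro v hv
      have hv' := Finset.mem_filter.1 hv
      by_contra hne
      exact hv'.2 (hK v hv'.1 hne)
    rw [Finset.sum_eq_zero h0] at hsplit
    have h2 : H.card = 2 := by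
      have : (H.card : ℝ) = 2 := by linarith
      exact_mod_cast this
    obtain ⟨v, w, hvw, hHe⟩ := Finset.card_eq_two.1 h2
    have hv : v ∈ H := by rw [hHe]; simp
    have hw : w ∈ H := by rw [hHe]; simp
    refine ⟨v, (Finset.mem_filter.1 hv).1, w, (Finset.mem_filter.1 hw).1, hvw, ?_⟩
    rw [← hxc, ← Finset.sum_filter_add_sum_filter_not V (fun v => c v = 1 / 2) (fun v => c v • v)]
    have h6 : ∑ v ∈ V.filter (fun v => ¬ c v = 1 / 2), c v • v = 0 := by
      apply Finset.sum_eq_zero
      intro v hv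
      rw [h0 v hv, zero_smul]
    rw [h6, add_zero]
    have h7 : ∑ v ∈ V.filter (fun v => c v = 1 / 2), c v • v = ∑ v ∈ H, (1 / 2 : ℝ) • v :=
      Finset.sum_congr rfl (fun v hv => by rw [(Finset.mem_filter.1 hv).2])
    rw [h7, hHe, Finset.sum_pair hvw, midpoint_eq_smul_add]
    rw [← smul_add]
    norm_num


end X_two_half
alias two_half := X_two_half.two_half

namespace X_edge_of_extreme


theorem sum_delta (V : Finset E) (v : E) (hv : v ∈ V) (α : ℝ) :
    ∑ u ∈ V, (if u = v then α else 0) = α := by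
  rw [Finset.sum_ite_eq' V v (fun _ => α)]
  simp [hv]

theorem sum_delta_smul (V : Finset E) (v : E) (hv : v ∈ V) (α : ℝ) :
    ∑ u ∈ V, (if u = v then α else 0) • u = α • v := by
  have : ∀ u ∈ V, (if u = v then α else 0) • u = if u = v then α • v else 0 := by
    intro u _
    split_ifs with h
    · rw [h]
    · rw [zero_smul]
  rw [Finset.sum_congr rfl this, Finset.sum_ite_eq' V v (fun _ => α • v)]
  simp [hv]

theorem mid_eq (v w : E) : midpoint ℝ v w = (1 / 2 : ℝ) • v + (1 / 2 : ℝ) • w := by
  rw [midpoint_eq_smul_add, smul_add]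
  norm_num

theorem half (V : Finset E) (hV : CP V) (v w : E) (hv : v ∈ V) (hw : w ∈ V) (hvw : v ≠ w)
    (c : E → ℝ) (hc0 : ∀ u ∈ V, 0 ≤ c u) (hc1 : ∑ u ∈ V, c u = 1)
    (hcm : ∑ u ∈ V, c u • u = (1 / 2 : ℝ) • v + (1 / 2 : ℝ) • w) (u0 : E) (hu0 : u0 ∈ V)
    (h0v : u0 ≠ v) (h0w : u0 ≠ w) (hpos : 0 < c u0) : c v < 1 / 2 := by
  by_contra hcon
  rw [not_lt] at hcon
  apply hV w hw
  rw [Finset.mem_convexHull']
  have hve : v ∈ V.erase w := Finset.mem_erase.2 ⟨hvw, hv⟩
  have e1 : ∑ u ∈ V.erase w, c u + c w = 1 := by rw [Finset.sum_erase_add _ _ hw, hc1]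
  have e2 : ∑ u ∈ (V.erase w).erase v, c u + c v = ∑ u ∈ V.erase w, c u :=
    Finset.sum_erase_add _ _ hve
  have e3 : c u0 ≤ ∑ u ∈ (V.erase w).erase v, c u :=
    Finset.single_le_sum (f := c)
      (fun u hu => hc0 u (Finset.mem_of_mem_erase (Finset.mem_of_mem_erase hu)))
      (Finset.mem_erase.2 ⟨h0v, Finset.mem_erase.2 ⟨h0w, hu0⟩⟩)
  have hγ : 0 < 1 / 2 - c w := by linarith
  refine ⟨fun u => (c u - if u = v then (1 / 2 : ℝ) else 0) / (1 / 2 - c w), ?_, ?_, ?_⟩
  · intro u hu
    apply div_nonneg _ hγ.le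
    split_ifs with h
    · subst h
      linarith
    · rw [sub_zero]
      exact hc0 u (Finset.mem_of_mem_erase hu)
  · rw [← Finset.sum_div, Finset.sum_sub_distrib, sum_delta _ v hve (1 / 2),
      div_eq_one_iff_eq hγ.ne']
    linarith
  · have h1 : ∀ u ∈ V.erase w, ((c u - if u = v then (1 / 2 : ℝ) else 0) / (1 / 2 - c w)) • u =
        (1 / 2 - c w)⁻¹ • (c u • u - (if u = v then (1 / 2 : ℝ) else 0) • u) := by
      intro u _
      rw [← sub_smul, smul_smul, div_eq_inv_mul]
    rw [Finset.sum_congr rfl h1, ← Finset.smul_sum, Finset.sum_sub_distrib,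
      sum_delta_smul _ v hve (1 / 2)]
    have h2 : ∑ u ∈ V.erase w, c u • u + c w • w = (1 / 2 : ℝ) • v + (1 / 2 : ℝ) • w := by
      rw [Finset.sum_erase_add V (fun u => c u • u) hw, hcm]
    have h3 : ∑ u ∈ V.erase w, c u • u - (1 / 2 : ℝ) • v = (1 / 2 - c w) • w := by
      rw [eq_sub_of_add_eq h2, sub_smul]
      abel
    rw [h3, smul_smul, inv_mul_cancel₀ hγ.ne', one_smul]

theorem not_ext (V : Finset E) (hV : CP V) (v w : E) (hv : v ∈ V) (hw : w ∈ V) (hvw : v ≠ w)
    (hx : midpoint ℝ v w ∈ (M V).extremePoints ℝ)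
    (c : E → ℝ) (hc0 : ∀ u ∈ V, 0 ≤ c u) (hc1 : ∑ u ∈ V, c u = 1)
    (hcm : ∑ u ∈ V, c u • u = (1 / 2 : ℝ) • v + (1 / 2 : ℝ) • w) (u0 : E) (hu0 : u0 ∈ V)
    (h0v : u0 ≠ v) (h0w : u0 ≠ w) (hpos : 0 < c u0) : False := by
  have hcv := half V hV v w hv hw hvw c hc0 hc1 hcm u0 hu0 h0v h0w hpos
  have hcw := half V hV w v hw hv hvw.symm c hc0 hc1 (by rw [hcm, add_comm]) u0 hu0 h0w h0v hpos
  have hcv0 := hc0 v hv
  have hcw0 := hc0 w hw
  have hle : ∀ u ∈ V, c u ≤ 1 := by
    intro u hu
    rw [← hc1]
    exact Finset.single_le_sum (f := c) hc0 hu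
  obtain ⟨r, hr0, hr1, hr2, hr3⟩ : ∃ r : ℝ, 0 < r ∧ r ≤ 1 / 4 ∧ r ≤ 1 / 4 - c v / 2 ∧
      r ≤ 1 / 4 - c w / 2 := by
    refine ⟨min (1 / 4) (min (1 / 4 - c v / 2) (1 / 4 - c w / 2)), ?_, ?_, ?_, ?_⟩
    · refine lt_min (by norm_num) (lt_min ?_ ?_) <;> linarith
    · exact min_le_left _ _
    · exact (min_le_right _ _).trans (min_le_left _ _)
    · exact (min_le_right _ _).trans (min_le_right _ _)
  have hmem : ∀ ρ : ℝ, -r ≤ ρ → ρ ≤ r →
      (1 / 2 : ℝ) • v + (1 / 2 : ℝ) • w + ρ • (v - w) ∈ M V := by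
    intro ρ h1 h2
    refine ⟨fun u => (if u = v then 1 / 4 + ρ else 0) + (if u = w then 1 / 4 - ρ else 0) +
      1 / 2 * c u, ?_, ?_, ?_⟩
    · intro u hu
      have h3 := hc0 u hu
      have h4 := hle u hu
      by_cases huv : u = v
      · have huw : u ≠ w := by rw [huv]; exact hvw
        simp only [huv, if_true, if_neg hvw]
        constructor <;> linarith
      · by_cases huw : u = w
        · simp only [huw, if_true, if_neg hvw.symm]
          constructor <;> linarith
        · simp only [if_neg huv, if_neg huw]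
          constructor <;> linarith
    · rw [Finset.sum_add_distrib, Finset.sum_add_distrib, sum_delta V v hv, sum_delta V w hw,
        ← Finset.mul_sum, hc1]
      ring
    · have h3 : ∀ u ∈ V, ((if u = v then 1 / 4 + ρ else 0) + (if u = w then 1 / 4 - ρ else 0) +
          1 / 2 * c u) • u = ((if u = v then 1 / 4 + ρ else 0) • u +
          (if u = w then 1 / 4 - ρ else 0) • u) + (1 / 2 : ℝ) • (c u • u) := by
        intro u _
        rw [add_smul, add_smul, smul_smul]
      rw [Finset.sum_congr rfl h3, Finset.sum_add_distrib, Finset.sum_add_distrib,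
        sum_delta_smul V v hv, sum_delta_smul V w hw, ← Finset.smul_sum, hcm]
      module
  have hp := hmem r (by linarith) le_rfl
  have hm := hmem (-r) le_rfl (by linarith)
  have hseg : midpoint ℝ v w ∈ openSegment ℝ
      ((1 / 2 : ℝ) • v + (1 / 2 : ℝ) • w + r • (v - w))
      ((1 / 2 : ℝ) • v + (1 / 2 : ℝ) • w + (-r) • (v - w)) := by
    refine ⟨1 / 2, 1 / 2, by norm_num, by norm_num, by norm_num, ?_⟩
    rw [mid_eq]
    module
  have h5 := hx.2 hp hm hseg
  rw [mid_eq, add_eq_left] at h5
  rcases smul_eq_zero.1 h5 with h6 | h6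
  · exact hr0.ne' h6
  · exact hvw (sub_eq_zero.1 h6)

theorem edge_of_extreme (V : Finset E) (hV : CP V) (v w : E) (hv : v ∈ V) (hw : w ∈ V)
    (hvw : v ≠ w) (hx : midpoint ℝ v w ∈ (M V).extremePoints ℝ) :
    IsExtreme ℝ (convexHull ℝ (V : Set E)) (segment ℝ v w) := by
  refine ⟨segment_subset_convexHull hv hw, ?_⟩
  intro x₁ hx₁ x₂ hx₂ z hz hzo
  rw [Finset.mem_convexHull'] at hx₁ hx₂
  obtain ⟨a, ha0, ha1, rfl⟩ := hx₁
  obtain ⟨b, hb0, hb1, rfl⟩ := hx₂
  obtain ⟨p, q, hp, hq, hpq, hzz⟩ := hzo
  obtain ⟨s, t, hs, ht, hst, hz2⟩ := hz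
  -- weights of z
  have key : ∀ u0 ∈ V, u0 ≠ v → u0 ≠ w → a u0 = 0 := by
    intro u0 hu0 h0v h0w
    by_contra hne
    have hpos : 0 < a u0 := lt_of_le_of_ne (ha0 u0 hu0) (Ne.symm hne)
    -- g = p a + q b
    have hg0 : ∀ u ∈ V, 0 ≤ p * a u + q * b u := fun u hu =>
      add_nonneg (mul_nonneg hp.le (ha0 u hu)) (mul_nonneg hq.le (hb0 u hu))
    have hg1 : ∑ u ∈ V, (p * a u + q * b u) = 1 := by
      rw [Finset.sum_add_distrib, ← Finset.mul_sum, ← Finset.mul_sum, ha1, hb1]
      linarith
    have hgz : ∑ u ∈ V, (p * a u + q * b u) • u = z := by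
      rw [← hzz]
      have : ∀ u ∈ V, (p * a u + q * b u) • u = p • (a u • u) + q • (b u • u) := by
        intro u _
        rw [add_smul, smul_smul, smul_smul]
      rw [Finset.sum_congr rfl this, Finset.sum_add_distrib, ← Finset.smul_sum, ← Finset.smul_sum]
    have hgpos : 0 < p * a u0 + q * b u0 :=
      add_pos_of_pos_of_nonneg (mul_pos hp hpos) (mul_nonneg hq.le (hb0 u0 hu0))
    have main : ∀ (y y' : E) (σ τ : ℝ), y' ∈ V → 0 ≤ σ → 0 ≤ τ → σ + τ = 1 → τ ≤ σ →
        σ • y + τ • y' = z → 
        ((1 / 2 : ℝ) • y + (1 / 2 : ℝ) • y' = (1 / 2 : ℝ) • v + (1 / 2 : ℝ) • w) → False := by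
      intro y y' σ τ hy' hσ hτ hστ hle hyz hm
      have hσ2 : 1 / 2 ≤ σ := by linarith
      have hσp : 0 < σ := by linarith
      -- lambda = 1/(2 sigma)
      set l : ℝ := 1 / (2 * σ) with hl
      have hl0 : 0 < l := by positivity
      have hlσ : l * σ = 1 / 2 := by rw [hl]; field_simp
      have hl1 : l ≤ 1 := by
        rw [hl, div_le_one (by positivity)]
        linarith
      have hlτ : l * τ + (1 - l) = 1 / 2 := by
        have : τ = 1 - σ := by linarith
        rw [this, mul_sub, hlσ]
        ring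
      refine not_ext V hV v w hv hw hvw hx
        (fun u => l * (p * a u + q * b u) + (if u = y' then 1 - l else 0)) ?_ ?_ ?_ u0 hu0 h0v h0w ?_
      · intro u hu
        refine add_nonneg (mul_nonneg hl0.le (hg0 u hu)) ?_
        split_ifs
        · linarith
        · exact le_rfl
      · rw [Finset.sum_add_distrib, ← Finset.mul_sum, hg1, sum_delta V y' hy']
        ring
      · have : ∀ u ∈ V, (l * (p * a u + q * b u) + (if u = y' then 1 - l else 0)) • u =
            l • ((p * a u + q * b u) • u) + (if u = y' then 1 - l else 0) • u := by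
          intro u _
          rw [add_smul, smul_smul]
        rw [Finset.sum_congr rfl this, Finset.sum_add_distrib, ← Finset.smul_sum, hgz,
          sum_delta_smul V y' hy', ← hyz, ← hm, smul_add, smul_smul, smul_smul, hlσ, add_assoc,
          ← add_smul, hlτ]
      · refine add_pos_of_pos_of_nonneg (mul_pos hl0 hgpos) ?_
        split_ifs
        · linarith
        · exact le_rfl
    rcases le_total t s with h | h
    · exact main v w s t hw hs ht hst h hz2 rfl
    · exact main w v t s hv ht hs (by linarith) h (by rw [add_comm]; exact hz2) (add_comm _ _)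
  -- conclude
  have hs1 : ∑ u ∈ V, a u = a v + a w := by
    rw [← Finset.sum_subset (s₁ := {v, w})]
    · rw [Finset.sum_pair hvw]
    · intro u hu
      simp only [Finset.mem_insert, Finset.mem_singleton] at hu
      rcases hu with rfl | rfl <;> assumption
    · intro u hu hnu
      simp only [Finset.mem_insert, Finset.mem_singleton, not_or] at hnu
      exact key u hu hnu.1 hnu.2
  have hs2 : ∑ u ∈ V, a u • u = a v • v + a w • w := by
    rw [← Finset.sum_subset (s₁ := {v, w})]
    · rw [Finset.sum_pair hvw]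
    · intro u hu
      simp only [Finset.mem_insert, Finset.mem_singleton] at hu
      rcases hu with rfl | rfl <;> assumption
    · intro u hu hnu
      simp only [Finset.mem_insert, Finset.mem_singleton, not_or] at hnu
      rw [key u hu hnu.1 hnu.2, zero_smul]
  rw [hs2]
  exact ⟨a v, a w, ha0 v hv, ha0 w hw, by rw [← hs1]; exact ha1, rfl⟩


end X_edge_of_extreme
alias edge_of_extreme := X_edge_of_extreme.edge_of_extreme

namespace X_edge_mid_mem


theorem fs_seg_ext (v w : E) (h : v ≠ w) : v ∈ (segment ℝ v w).extremePoints ℝ := by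
  rw [mem_extremePoints_iff_left]
  refine ⟨left_mem_segment ℝ v w, ?_⟩
  intro x1 hx1 x2 hx2 hx
  rw [segment_eq_image'] at hx1 hx2
  obtain ⟨t1, ht1, rfl⟩ := hx1
  obtain ⟨t2, ht2, rfl⟩ := hx2
  obtain ⟨a, b, ha, hb, hab, he⟩ := hx
  have key : (a * t1 + b * t2) • (w - v) = 0 := by
    have h1 : a • (v + t1 • (w - v)) + b • (v + t2 • (w - v)) =
        (a + b) • v + (a * t1 + b * t2) • (w - v) := by module
    have h2 : a • (v + t1 • (w - v)) + b • (v + t2 • (w - v)) = v := he
    rw [h1, hab, one_smul] at h2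
    simpa using h2
  rcases smul_eq_zero.mp key with h0 | h0
  · have h3 : a * t1 = 0 := by
      have := mul_nonneg ha.le ht1.1
      have := mul_nonneg hb.le ht2.1
      linarith
    have h4 : t1 = 0 := by
      rcases mul_eq_zero.mp h3 with h5 | h5
      · exact absurd h5 ha.ne'
      · exact h5
    simp [h4]
  · exact absurd (sub_eq_zero.mp h0).symm h

theorem edge_mid_mem (V : Finset E) (m : E) (hm : m ∈ edgeMidpoints (convexHull ℝ (V : Set E))) :
    m ∈ M V := by
  classical
  obtain ⟨v, w, hvw, hE, rfl⟩ := hm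
  have hv : v ∈ V := by
    have := extremePoints_convexHull_subset (hE.extremePoints_subset_extremePoints (fs_seg_ext v w hvw))
    exact_mod_cast this
  have hw : w ∈ V := by
    have h1 := fs_seg_ext w v hvw.symm
    rw [segment_symm] at h1
    have := extremePoints_convexHull_subset (hE.extremePoints_subset_extremePoints h1)
    exact_mod_cast this
  refine ⟨fun x => (if x = v then 1 / 2 else 0) + (if x = w then 1 / 2 else 0), ?_, ?_, ?_⟩
  · intro x _
    by_cases h1 : x = v
    · have h2 : x ≠ w := by rw [h1]; exact hvw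
      simp only [if_pos h1, if_neg h2]
      norm_num
    · by_cases h2 : x = w
      · simp only [if_neg h1, if_pos h2]
        norm_num
      · simp only [if_neg h1, if_neg h2]
        norm_num
  · rw [Finset.sum_add_distrib, Finset.sum_ite_eq', Finset.sum_ite_eq', if_pos hv, if_pos hw]
    norm_num
  · simp only [add_smul, ite_smul, zero_smul]
    rw [Finset.sum_add_distrib, Finset.sum_ite_eq', Finset.sum_ite_eq', if_pos hv, if_pos hw,
      midpoint_eq_smul_add, smul_add]
    norm_num


end X_edge_mid_mem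
alias edge_mid_mem := X_edge_mid_mem.edge_mid_mem

namespace X_edge_mid_finite


theorem edge_mid_finite_left (v w : E) (h : v ≠ w) : v ∈ (segment ℝ v w).extremePoints ℝ := by
  rw [mem_extremePoints]
  refine ⟨left_mem_segment ℝ v w, ?_⟩
  have hw : w - v ≠ 0 := sub_ne_zero.2 (Ne.symm h)
  intro x hx y hy hv
  rw [segment_eq_image'] at hx hy
  obtain ⟨s, hs, rfl⟩ := hx
  obtain ⟨t, ht, rfl⟩ := hy
  obtain ⟨a, b, ha, hb, hab, hv⟩ := hv
  have h1 : (a * s + b * t) • (w - v) = 0 := by
    have h2 : a • (v + s • (w - v)) + b • (v + t • (w - v)) = (a + b) • v + (a * s + b * t) • (w - v) := by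
      module
    rw [h2, hab, one_smul] at hv
    simpa using hv
  rcases smul_eq_zero.1 h1 with h3 | h3
  · have hs0 : s = 0 := by
      have := mul_nonneg hb.le ht.1
      have := mul_nonneg ha.le hs.1
      have h4 : a * s = 0 := by linarith
      rcases mul_eq_zero.1 h4 with h5 | h5
      · exact absurd h5 ha.ne'
      · exact h5
    have ht0 : t = 0 := by
      have := mul_nonneg hb.le ht.1
      have := mul_nonneg ha.le hs.1
      have h4 : b * t = 0 := by linarith
      rcases mul_eq_zero.1 h4 with h5 | h5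
      · exact absurd h5 hb.ne'
      · exact h5
    simp [hs0, ht0]
  · exact absurd h3 hw

theorem edge_mid_finite (V : Finset E) : (edgeMidpoints (convexHull ℝ (V : Set E))).Finite := by
  refine Set.Finite.subset (Set.Finite.image (fun p : E × E => midpoint ℝ p.1 p.2)
    ((V.finite_toSet).prod V.finite_toSet)) ?_
  rintro m ⟨v, w, hvw, hext, rfl⟩
  have hv : v ∈ (convexHull ℝ (V : Set E)).extremePoints ℝ :=
    hext.extremePoints_subset_extremePoints (edge_mid_finite_left v w hvw)
  have hw : w ∈ (convexHull ℝ (V : Set E)).extremePoints ℝ := by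
    refine hext.extremePoints_subset_extremePoints ?_
    rw [segment_symm]
    exact edge_mid_finite_left w v (Ne.symm hvw)
  exact ⟨(v, w), ⟨extremePoints_convexHull_subset hv, extremePoints_convexHull_subset hw⟩, rfl⟩


end X_edge_mid_finite
alias edge_mid_finite := X_edge_mid_finite.edge_mid_finite

namespace X_ess_three


theorem push_weights (V : Finset E) (l b : E → ℝ) (x : E) (hl : ∀ v ∈ V, 0 ≤ l v)
    (hl1 : ∑ v ∈ V, l v = 1) (hlx : ∑ v ∈ V, l v • v = x) (hb : ∑ v ∈ V, b v = 0)
    (hbx : ∑ v ∈ V, b v • v = 0) (hneg : ∃ u ∈ V, b u < 0) :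
    ∃ u ∈ V, b u < 0 ∧ x ∈ convexHull ℝ ((V.erase u : Finset E) : Set E) := by
  classical
  have hN : (V.filter (fun u => b u < 0)).Nonempty := by
    obtain ⟨u, hu, hbu⟩ := hneg
    exact ⟨u, Finset.mem_filter.2 ⟨hu, hbu⟩⟩
  obtain ⟨u, hu, hmin⟩ := Finset.exists_min_image _ (fun u => l u / (- b u)) hN
  obtain ⟨huV, hbu⟩ := Finset.mem_filter.1 hu
  refine ⟨u, huV, hbu, ?_⟩
  set s := l u / (- b u) with hs
  have hs0 : 0 ≤ s := div_nonneg (hl u huV) (by linarith)
  have hcu : l u + s * b u = 0 := by
    rw [hs]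
    have : b u ≠ 0 := hbu.ne
    field_simp
    ring
  have hc0 : ∀ v ∈ V, 0 ≤ l v + s * b v := by
    intro v hv
    by_cases hbv : b v < 0
    · have h1 : s ≤ l v / (- b v) := hmin v (Finset.mem_filter.2 ⟨hv, hbv⟩)
      rw [le_div_iff₀ (by linarith)] at h1
      linarith
    · have : 0 ≤ s * b v := mul_nonneg hs0 (not_lt.1 hbv)
      linarith [hl v hv]
  have h1 : ∑ v ∈ V.erase u, (l v + s * b v) = 1 := by
    rw [Finset.sum_erase (f := fun v => l v + s * b v) _ hcu, Finset.sum_add_distrib,
      ← Finset.mul_sum, hb, hl1]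
    ring
  have h2 : ∑ v ∈ V.erase u, (l v + s * b v) • v = x := by
    rw [Finset.sum_erase (f := fun v => (l v + s * b v) • v) _ (by
      show (l u + s * b u) • u = 0
      rw [hcu, zero_smul])]
    simp only [add_smul, Finset.sum_add_distrib, mul_smul]
    rw [← Finset.smul_sum, hbx, hlx, smul_zero, add_zero]
  rw [← h2]
  exact (convex_convexHull ℝ _).sum_mem (fun v hv => hc0 v (Finset.mem_of_mem_erase hv)) h1
    (fun v hv => subset_convexHull ℝ _ (Finset.mem_coe.2 hv))

theorem ess_three (V : Finset E) (hcard : 5 ≤ V.card) (x : E)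
    (hx : x ∈ convexHull ℝ (V : Set E)) :
    {v ∈ (V : Set E) | x ∉ convexHull ℝ ((V.erase v : Finset E) : Set E)}.ncard ≤ 3 := by
  classical
  by_contra hcon
  push Not at hcon
  set S : Finset E := V.filter (fun v => x ∉ convexHull ℝ ((V.erase v : Finset E) : Set E)) with hS
  have hSe : {v ∈ (V : Set E) | x ∉ convexHull ℝ ((V.erase v : Finset E) : Set E)} =
      (S : Set E) := by
    ext v; simp [hS]
  rw [hSe, Set.ncard_coe_finset] at hcon
  obtain ⟨T, hTS, hT4⟩ := Finset.exists_subset_card_eq (show 4 ≤ S.card by omega)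
  obtain ⟨w, hwV, hwT⟩ := Finset.exists_mem_notMem_of_card_lt_card (show T.card < V.card by omega)
  have hTV : T ⊆ V := fun v hv => (Finset.mem_filter.1 (hTS hv)).1
  set U : Finset E := insert w T with hU
  have hUV : U ⊆ V := by
    intro v hv
    rcases Finset.mem_insert.1 hv with h | h
    · rw [h]; exact hwV
    · exact hTV h
  have hU5 : U.card = 5 := by
    rw [hU, Finset.card_insert_of_notMem hwT, hT4]
  have hfr : Module.finrank ℝ E + 1 < U.card := by
    rw [hU5, finrank_euclideanSpace_fin]; norm_num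
  obtain ⟨f, hf0, hf1, hf2⟩ :=
    Module.exists_nontrivial_relation_sum_zero_of_finrank_succ_lt_card hfr
  obtain ⟨l, hl, hl1, hlx⟩ := Finset.mem_convexHull'.1 hx
  have key : ∀ g : E → ℝ, ∑ e ∈ U, g e • e = 0 → ∑ e ∈ U, g e = 0 → (∃ e ∈ U, g e < 0) →
      g w < 0 := by
    intro g hg0 hg1 hg2
    obtain ⟨u, huV, hbu, hux⟩ := push_weights V l (fun v => if v ∈ U then g v else 0) x hl hl1 hlx
      (by
        rw [← Finset.sum_filter, Finset.filter_mem_eq_inter,
          Finset.inter_eq_right.2 hUV, hg1])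
      (by
        simp only [ite_smul, zero_smul]
        rw [← Finset.sum_filter, Finset.filter_mem_eq_inter,
          Finset.inter_eq_right.2 hUV, hg0])
      (by
        obtain ⟨e, he, hge⟩ := hg2
        exact ⟨e, hUV he, by simpa [he] using hge⟩)
    have huU : u ∈ U := by
      by_contra h
      simp [h] at hbu
    simp only [huU, if_true] at hbu
    rcases Finset.mem_insert.1 huU with h | h
    · rwa [← h]
    · exact absurd hux (Finset.mem_filter.1 (hTS h)).2
  have hf3 : ∃ x ∈ U, - f x ≠ 0 := by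
    obtain ⟨e, he, hfe⟩ := hf2
    exact ⟨e, he, neg_ne_zero.2 hfe⟩
  have hf1' : ∑ e ∈ U, - f e = 0 := by rw [Finset.sum_neg_distrib, hf1, neg_zero]
  have h1 : f w < 0 := key f hf0 hf1 (by
    obtain ⟨e, he, hfe⟩ := Finset.exists_pos_of_sum_zero_of_exists_nonzero (fun e => - f e) hf1' hf3
    exact ⟨e, he, by simpa using hfe⟩)
  have h2 : - f w < 0 := by
    refine key (fun e => - f e) ?_ ?_ ?_
    · simp only [neg_smul, Finset.sum_neg_distrib, hf0, neg_zero]
    · simp only [Finset.sum_neg_distrib, hf1, neg_zero]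
    · obtain ⟨e, he, hfe⟩ := Finset.exists_pos_of_sum_zero_of_exists_nonzero f hf1 hf2
      exact ⟨e, he, by simpa using hfe⟩
  linarith


end X_ess_three
alias ess_three := X_ess_three.ess_three

namespace X_sum_volume


theorem sum_volume (V : Finset E) (k : ℕ)
    (hk : ∀ x ∈ convexHull ℝ (V : Set E),
      {v ∈ (V : Set E) | x ∉ convexHull ℝ ((V.erase v : Finset E) : Set E)}.ncard ≤ k) :
    ∑ v ∈ V, volume (convexHull ℝ (V : Set E) \ convexHull ℝ ((V.erase v : Finset E) : Set E))
      ≤ (k : ENNReal) * volume (convexHull ℝ (V : Set E)) := by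
  classical
  set P : Set E := convexHull ℝ (V : Set E) with hP
  have hPm : MeasurableSet P := (V.finite_toSet.isCompact_convexHull (𝕜 := ℝ)).isClosed.measurableSet
  have hQm : ∀ v : E, MeasurableSet (convexHull ℝ ((V.erase v : Finset E) : Set E)) := fun v =>
    ((V.erase v).finite_toSet.isCompact_convexHull (𝕜 := ℝ)).isClosed.measurableSet
  have hDm : ∀ v : E, MeasurableSet (P \ convexHull ℝ ((V.erase v : Finset E) : Set E)) := fun v =>
    hPm.diff (hQm v)
  calc ∑ v ∈ V, volume (P \ convexHull ℝ ((V.erase v : Finset E) : Set E))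
      = ∑ v ∈ V, ∫⁻ x, (P \ convexHull ℝ ((V.erase v : Finset E) : Set E)).indicator 1 x := by
        refine Finset.sum_congr rfl fun v _ => ?_
        rw [lintegral_indicator_one (hDm v)]
    _ = ∫⁻ x, ∑ v ∈ V, (P \ convexHull ℝ ((V.erase v : Finset E) : Set E)).indicator 1 x := by
        rw [lintegral_finsetSum]
        intro v _
        exact measurable_one.indicator (hDm v)
    _ ≤ ∫⁻ x, P.indicator (fun _ => (k : ENNReal)) x := by
        refine lintegral_mono fun x => ?_
        by_cases hx : x ∈ P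
        · rw [indicator_of_mem hx]
          have h1 : ∑ v ∈ V, (P \ convexHull ℝ ((V.erase v : Finset E) : Set E)).indicator
              (1 : E → ENNReal) x =
              ((V.filter (fun v => x ∉ convexHull ℝ ((V.erase v : Finset E) : Set E))).card : ENNReal) := by
            rw [← Finset.sum_boole]
            refine Finset.sum_congr rfl fun v _ => ?_
            simp only [indicator_apply, mem_sdiff, hx, true_and, Pi.one_apply]
          have h2 : (V.filter (fun v => x ∉ convexHull ℝ ((V.erase v : Finset E) : Set E))).card ≤ k := by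
            have h3 := hk x hx
            have h4 : {v ∈ (V : Set E) | x ∉ convexHull ℝ ((V.erase v : Finset E) : Set E)} =
                ((V.filter (fun v => x ∉ convexHull ℝ ((V.erase v : Finset E) : Set E)) : Finset E) :
                  Set E) := by
              ext v
              simp
            rw [h4, Set.ncard_coe_finset] at h3
            exact h3
          calc (∑ v ∈ V, (P \ convexHull ℝ ((V.erase v : Finset E) : Set E)).indicator 1 x : ENNReal)
              = _ := h1
            _ ≤ (k : ENNReal) := by exact_mod_cast h2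
        · rw [indicator_of_notMem hx]
          refine le_of_eq (Finset.sum_eq_zero fun v _ => ?_)
          exact indicator_of_notMem (fun h => hx h.1) _
    _ = (k : ENNReal) * volume P := by
        rw [lintegral_indicator_const hPm]


end X_sum_volume
alias sum_volume := X_sum_volume.sum_volume

namespace X_min_vertices


theorem min_vertices (W : Finset E) :
    ∃ V : Finset E, convexHull ℝ (V : Set E) = convexHull ℝ (W : Set E) ∧ CP V := by
  classical
  induction W using Finset.strongInduction with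
  | H W ih =>
    by_cases h : CP W
    · exact ⟨W, rfl, h⟩
    · unfold CP at h
      push Not at h
      obtain ⟨v, hvW, hv⟩ := h
      obtain ⟨V, hV, hCP⟩ := ih _ (Finset.erase_ssubset hvW)
      refine ⟨V, ?_, hCP⟩
      rw [hV]
      have hconv : Convex ℝ (convexHull ℝ ((W.erase v : Finset E) : Set E)) := convex_convexHull ℝ _
      apply Set.Subset.antisymm
      · exact convexHull_mono (by exact_mod_cast Finset.erase_subset v W)
      · refine convexHull_min ?_ hconv
        intro x hx
        by_cases hxv : x = v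
        · rw [hxv]; exact hv
        · apply subset_convexHull
          simp only [Finset.coe_erase, Set.mem_diff, Set.mem_singleton_iff]
          exact ⟨hx, hxv⟩


end X_min_vertices
alias min_vertices := X_min_vertices.min_vertices

namespace X_tetra_of_card


theorem tetra_of_card (V : Finset E) (hV : V.card ≤ 4)
    (hi : (interior (convexHull ℝ (V : Set E))).Nonempty) :
    IsTetrahedron (convexHull ℝ (V : Set E)) := by
  classical
  have hspan : affineSpan ℝ (V : Set E) = ⊤ :=
    interior_convexHull_nonempty_iff_affineSpan_eq_top.1 hi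
  have hvs : Module.finrank ℝ (vectorSpan ℝ (V : Set E)) = 3 := by
    rw [← direction_affineSpan, hspan, AffineSubspace.direction_top, finrank_top,
      finrank_euclideanSpace_fin]
  have hrange : Set.range (Subtype.val : {x // x ∈ V} → E) = (V : Set E) := by
    ext x; simp
  have hne : V.card ≠ 0 := by
    intro h0
    rw [Finset.card_eq_zero] at h0
    rw [h0] at hi
    simp at hi
  obtain ⟨m, hm⟩ := Nat.exists_eq_succ_of_ne_zero hne
  have hcard : Fintype.card {x // x ∈ V} = m + 1 := by
    rw [Fintype.card_coe, hm]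
  have hle := finrank_vectorSpan_range_le ℝ (Subtype.val : {x // x ∈ V} → E) hcard
  rw [hrange, hvs] at hle
  have hm3 : m = 3 := by
    have : V.card = m + 1 := hm
    omega
  subst hm3
  have hind : AffineIndependent ℝ (Subtype.val : {x // x ∈ V} → E) := by
    rw [affineIndependent_iff_le_finrank_vectorSpan ℝ _ hcard, hrange, hvs]
  let e : Fin 4 ≃ {x // x ∈ V} := (Fintype.equivFinOfCardEq hcard).symm
  refine ⟨(Subtype.val : {x // x ∈ V} → E) ∘ e, hind.comp_embedding e.toEmbedding, ?_⟩
  rw [Set.range_comp, e.range_eq_univ, Set.image_univ, hrange]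


end X_tetra_of_card
alias tetra_of_card := X_tetra_of_card.tetra_of_card

namespace X_cover


theorem cover (V : Finset E) :
    convexHull ℝ (V : Set E) \ M V ⊆ ⋃ v ∈ V, cap V v := by
  rintro x ⟨hx, hxM⟩
  obtain ⟨c, hc0, hc1, hcx⟩ := Finset.mem_convexHull'.mp hx
  obtain ⟨v, hv, hcv⟩ : ∃ v ∈ V, 1 / 2 < c v := by
    by_contra hcon
    push Not at hcon
    exact hxM ⟨c, fun v hv => ⟨hc0 v hv, hcon v hv⟩, hc1, hcx⟩
  refine Set.mem_iUnion₂.mpr ⟨v, hv, ?_⟩
  classical
  refine ⟨(2 : ℝ) • x - v, ⟨?_, ?_⟩, ?_⟩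
  · rw [Finset.mem_convexHull']
    refine ⟨fun u => 2 * c u - (if u = v then 1 else 0), ?_, ?_, ?_⟩
    · intro u hu
      show 0 ≤ 2 * c u - (if u = v then (1:ℝ) else 0)
      split_ifs with h
      · rw [h]; linarith
      · have := hc0 u hu; linarith
    · rw [Finset.sum_sub_distrib, ← Finset.mul_sum, hc1, Finset.sum_ite_eq' V v, if_pos hv]
      norm_num
    · have h1 : ∀ u ∈ V, (2 * c u - (if u = v then (1:ℝ) else 0)) • u
          = (2:ℝ) • (c u • u) - (if u = v then u else 0) := by
        intro u _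
        split_ifs with h
        · rw [sub_smul, one_smul, mul_smul]
        · rw [sub_zero, sub_zero, mul_smul]
      rw [Finset.sum_congr rfl h1, Finset.sum_sub_distrib, ← Finset.smul_sum, hcx,
        Finset.sum_ite_eq' V v, if_pos hv]
  · intro hy
    obtain ⟨d, hd0, hd1, hdy⟩ := Finset.mem_convexHull'.mp hy
    apply hxM
    refine ⟨fun u => if u = v then 1 / 2 else d u / 2, ?_, ?_, ?_⟩
    · intro u hu
      show 0 ≤ (if u = v then (1:ℝ) / 2 else d u / 2) ∧ (if u = v then (1:ℝ) / 2 else d u / 2) ≤ 1 / 2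
      split_ifs with h
      · norm_num
      · have hu' : u ∈ V.erase v := Finset.mem_erase.mpr ⟨h, hu⟩
        have h0 := hd0 u hu'
        have h1 : d u ≤ ∑ w ∈ V.erase v, d w := Finset.single_le_sum (fun w hw => hd0 w hw) hu'
        rw [hd1] at h1
        constructor <;> linarith
    · rw [← Finset.add_sum_erase V _ hv]
      have h1 : ∑ u ∈ V.erase v, (if u = v then (1:ℝ) / 2 else d u / 2) = ∑ u ∈ V.erase v, d u / 2 := by
        refine Finset.sum_congr rfl fun u hu => ?_
        rw [if_neg (Finset.ne_of_mem_erase hu)]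
      rw [h1, ← Finset.sum_div, hd1, if_pos rfl]
      norm_num
    · rw [← Finset.add_sum_erase V _ hv]
      have h1 : ∑ u ∈ V.erase v, (if u = v then (1:ℝ) / 2 else d u / 2) • u
          = (1 / 2 : ℝ) • ∑ u ∈ V.erase v, d u • u := by
        rw [Finset.smul_sum]
        refine Finset.sum_congr rfl fun u hu => ?_
        rw [if_neg (Finset.ne_of_mem_erase hu), smul_smul]
        congr 1
        ring
      rw [h1, hdy]
      show (if v = v then (1:ℝ) / 2 else d v / 2) • v + (1 / 2 : ℝ) • ((2 : ℝ) • x - v) = x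
      rw [if_pos rfl, ← smul_add]
      have h2 : v + ((2 : ℝ) • x - v) = (2:ℝ) • x := by abel
      rw [h2, smul_smul]
      norm_num
  · rw [AffineMap.homothety_apply]
    simp only [vsub_eq_sub, vadd_eq_add]
    have h2 : (2 : ℝ) • x - v - v = (2:ℝ) • (x - v) := by
      rw [smul_sub, two_smul ℝ v]; abel
    rw [h2, smul_smul]
    norm_num



end X_cover
alias cover := X_cover.cover

namespace X_cap_rep


theorem cap_rep (V : Finset E) (v : E) (hv : v ∈ V) (x : E) (hx : x ∈ cap V v) (c : E → ℝ)
    (hc : ∀ u ∈ V, 0 ≤ c u) (h1 : ∑ u ∈ V, c u = 1) (h2 : ∑ u ∈ V, c u • u = x) :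
    1 / 2 < c v := by
  classical
  obtain ⟨y, ⟨hy1, hy2⟩, hyx⟩ := hx
  rw [Finset.mem_convexHull'] at hy1
  obtain ⟨b, hb, hb1, hb2⟩ := hy1
  by_contra hcon
  rw [not_lt] at hcon
  have hxy : (2 : ℝ) • x - v = y := by
    rw [← hyx, AffineMap.homothety_apply]
    simp only [vsub_eq_sub, vadd_eq_add]
    module
  -- any representation with nonnegative coefficients off `v` and zero at `v` is impossible
  have key : ∀ d : E → ℝ, (∀ u ∈ V, u ≠ v → 0 ≤ d u) → d v = 0 → ∑ u ∈ V, d u = 1 →
      ∑ u ∈ V, d u • u = y → False := by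
    intro d hd0 hdv hd1 hd2
    apply hy2
    rw [Finset.mem_convexHull']
    refine ⟨d, fun u hu => hd0 u (Finset.mem_of_mem_erase hu) (Finset.ne_of_mem_erase hu), ?_, ?_⟩
    · rw [← Finset.add_sum_erase V d hv, hdv, zero_add] at hd1
      exact hd1
    · rw [← Finset.add_sum_erase V (fun u => d u • u) hv, hdv, zero_smul, zero_add] at hd2
      exact hd2
  have hbv : 0 < b v := by
    rcases (hb v hv).lt_or_eq with h | h
    · exact h
    · exact (key b (fun u hu _ => hb u hu) h.symm hb1 hb2).elim
  obtain ⟨D, hD⟩ : ∃ D, D = b v + 1 - 2 * c v := ⟨_, rfl⟩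
  have hDpos : 0 < D := by rw [hD]; linarith
  obtain ⟨al, hal⟩ : ∃ al, al = b v / D := ⟨_, rfl⟩
  have hal0 : 0 ≤ al := by rw [hal]; positivity
  have hal1 : 1 - al = (1 - 2 * c v) / D := by
    rw [hal]; field_simp; rw [hD]; ring
  have hal2 : 0 ≤ 1 - al := by
    rw [hal1]
    exact div_nonneg (by linarith) hDpos.le
  refine key (fun u => al * (2 * c u - if u = v then 1 else 0) + (1 - al) * b u) ?_ ?_ ?_ ?_
  · intro u hu huv
    simp only [if_neg huv, sub_zero]
    have := hc u hu
    have := hb u hu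
    positivity
  · simp only [if_true]
    rw [hal1, hal]
    field_simp
    ring
  · rw [Finset.sum_add_distrib, ← Finset.mul_sum, ← Finset.mul_sum, Finset.sum_sub_distrib,
      ← Finset.mul_sum, h1, hb1, Finset.sum_ite_eq' V v, if_pos hv]
    ring
  · have e1 : ∀ u ∈ V, (al * (2 * c u - if u = v then 1 else 0) + (1 - al) * b u) • u =
        (al * 2) • (c u • u) - al • ((if u = v then (1:ℝ) else 0) • u) + (1 - al) • (b u • u) := by
      intro u _
      module
    rw [Finset.sum_congr rfl e1, Finset.sum_add_distrib, Finset.sum_sub_distrib,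
      ← Finset.smul_sum, ← Finset.smul_sum, ← Finset.smul_sum, h2, hb2]
    simp only [ite_smul, one_smul, zero_smul]
    rw [Finset.sum_ite_eq' V v, if_pos hv, ← hxy]
    module


end X_cap_rep
alias cap_rep := X_cap_rep.cap_rep

namespace X_exact


theorem M_compact_aux (V : Finset E) :
    M V = (fun c : V → ℝ => ∑ v : V, c v • (v : E)) ''
      (Set.Icc (fun _ => (0 : ℝ)) (fun _ => (1 / 2 : ℝ)) ∩ {c : V → ℝ | ∑ v : V, c v = 1}) := by
  classical
  ext x
  constructor
  · rintro ⟨c, hc, h1, h2⟩
    refine ⟨fun v : V => c v, ⟨⟨fun v => (hc v v.2).1, fun v => (hc v v.2).2⟩, ?_⟩, ?_⟩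
    · show ∑ v : V, c v = 1
      rw [Finset.sum_coe_sort V c]
      exact h1
    · show ∑ v : V, c v • (v : E) = x
      rw [Finset.sum_coe_sort V (fun v => c v • v)]
      exact h2
  · rintro ⟨c, ⟨⟨h0, h12⟩, h1⟩, h2⟩
    have hval : ∀ v : V, (if h : (v : E) ∈ V then c ⟨v, h⟩ else 0) = c v := fun v => by
      rw [dif_pos v.2]
    refine ⟨fun v => if h : v ∈ V then c ⟨v, h⟩ else 0, fun v hv => ?_, ?_, ?_⟩
    · simp only [dif_pos hv]
      exact ⟨h0 ⟨v, hv⟩, h12 ⟨v, hv⟩⟩
    · rw [← Finset.sum_coe_sort V]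
      rw [Finset.sum_congr rfl (fun v _ => hval v)]
      exact h1
    · rw [← Finset.sum_coe_sort V (fun v => (if h : v ∈ V then c ⟨v, h⟩ else 0) • v)]
      rw [Finset.sum_congr rfl (fun (v : V) _ => by rw [hval v])]
      exact h2

theorem M_compact (V : Finset E) : IsCompact (M V) := by
  rw [M_compact_aux V]
  refine IsCompact.image ?_ (by fun_prop)
  refine isCompact_Icc.inter_right ?_
  exact isClosed_eq (by fun_prop) continuous_const

theorem exact_M_sub (V : Finset E) : M V ⊆ convexHull ℝ (V : Set E) := by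
  rintro x ⟨c, hc, h1, h2⟩
  rw [Finset.mem_convexHull']
  exact ⟨c, fun v hv => (hc v hv).1, h1, h2⟩

theorem exact_cap_sub (V : Finset E) (v : E) (hv : v ∈ V) :
    cap V v ⊆ convexHull ℝ (V : Set E) := by
  rintro x ⟨y, ⟨hy, -⟩, rfl⟩
  have hvm : v ∈ convexHull ℝ (V : Set E) := subset_convexHull ℝ _ (Finset.mem_coe.2 hv)
  rw [AffineMap.homothety_apply]
  have h1 : (1 / 2 : ℝ) • (y -ᵥ v) +ᵥ v = (1 / 2 : ℝ) • y + (1 / 2 : ℝ) • v := by
    rw [vsub_eq_sub, vadd_eq_add, smul_sub]
    have : v = (1 / 2 : ℝ) • v + (1 / 2 : ℝ) • v := by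
      rw [← add_smul]; norm_num
    nth_rewrite 2 [this]
    abel
  rw [h1]
  exact (convex_convexHull ℝ _) hy hvm (by norm_num) (by norm_num) (by norm_num)

theorem exact_cap_pre (V : Finset E) (v : E) : cap V v =
    (fun x : E => (2 : ℝ) • (x - v) + v) ⁻¹'
      (convexHull ℝ (V : Set E) \ convexHull ℝ ((V.erase v : Finset E) : Set E)) := by
  ext x
  constructor
  · rintro ⟨y, hy, rfl⟩
    rw [AffineMap.homothety_apply, vsub_eq_sub, vadd_eq_add]
    have h2 : (2 : ℝ) • ((1 / 2 : ℝ) • (y - v) + v - v) + v = y := by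
      rw [add_sub_cancel_right, smul_smul]
      norm_num
    show (2 : ℝ) • ((1 / 2 : ℝ) • (y - v) + v - v) + v ∈
      (convexHull ℝ (V : Set E) \ convexHull ℝ ((V.erase v : Finset E) : Set E))
    rw [h2]
    exact hy
  · intro hx
    refine ⟨(2 : ℝ) • (x - v) + v, hx, ?_⟩
    rw [AffineMap.homothety_apply, vsub_eq_sub, vadd_eq_add, add_sub_cancel_right, smul_smul]
    norm_num

theorem exact_D_meas (V : Finset E) (v : E) : MeasurableSet
    (convexHull ℝ (V : Set E) \ convexHull ℝ ((V.erase v : Finset E) : Set E)) := by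
  have h1 : IsCompact (convexHull ℝ (V : Set E)) := (Finset.finite_toSet V).isCompact_convexHull (𝕜 := ℝ)
  have h2 : IsCompact (convexHull ℝ ((V.erase v : Finset E) : Set E)) :=
    (Finset.finite_toSet _).isCompact_convexHull (𝕜 := ℝ)
  exact h1.measurableSet.diff h2.measurableSet

theorem exact_cap_meas (V : Finset E) (v : E) : MeasurableSet (cap V v) := by
  rw [exact_cap_pre]
  exact (by fun_prop : Continuous fun x : E => (2 : ℝ) • (x - v) + v).measurable
    (exact_D_meas V v)

theorem exact_cap_vol (V : Finset E) (v : E) : 8 * volume (cap V v) =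
    volume (convexHull ℝ (V : Set E) \ convexHull ℝ ((V.erase v : Finset E) : Set E)) := by
  unfold cap
  rw [Measure.addHaar_image_homothety, ← mul_assoc]
  have h1 : Module.finrank ℝ E = 3 := by simp
  rw [h1]
  have h2 : |(1 / 2 : ℝ) ^ 3| = 1 / 8 := by norm_num
  rw [h2]
  have h3 : (8 : ENNReal) = ENNReal.ofReal 8 := by norm_num
  rw [h3, ← ENNReal.ofReal_mul (by norm_num)]
  norm_num

theorem exact_vol (V : Finset E) : volume (convexHull ℝ (V : Set E)) =
    volume (M V) + ∑ v ∈ V, volume (cap V v) := by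
  have hset : convexHull ℝ (V : Set E) = M V ∪ ⋃ v ∈ V, cap V v := by
    apply Set.Subset.antisymm
    · intro x hx
      by_cases h : x ∈ M V
      · exact Or.inl h
      · exact Or.inr (cover V ⟨hx, h⟩)
    · apply Set.union_subset (exact_M_sub V)
      exact Set.iUnion₂_subset fun v hv => exact_cap_sub V v hv
  have hdisj : Disjoint (M V) (⋃ v ∈ V, cap V v) := by
    rw [Set.disjoint_left]
    rintro x ⟨c, hc, h1, h2⟩ hx
    obtain ⟨v, hv, hxv⟩ := Set.mem_iUnion₂.1 hx
    have h3 := cap_rep V v hv x hxv c (fun u hu => (hc u hu).1) h1 h2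
    linarith [(hc v hv).2]
  have hpair : Set.PairwiseDisjoint (V : Set E) (fun v => cap V v) := by
    intro u hu v hv huv
    show Disjoint (cap V u) (cap V v)
    rw [Set.disjoint_left]
    intro x hxu hxv
    have hx := exact_cap_sub V u hu hxu
    rw [Finset.mem_convexHull'] at hx
    obtain ⟨c, hc, h1, h2⟩ := hx
    have h3 := cap_rep V u hu x hxu c hc h1 h2
    have h4 := cap_rep V v hv x hxv c hc h1 h2
    have h5 : c u + c v ≤ ∑ w ∈ V, c w := by
      classical
      rw [← Finset.sum_pair huv]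
      refine Finset.sum_le_sum_of_subset_of_nonneg ?_ fun w hw _ => hc w hw
      intro w hw
      rcases Finset.mem_insert.1 hw with h | h
      · rw [h]; exact hu
      · rw [Finset.mem_singleton.1 h]; exact hv
    linarith
  calc volume (convexHull ℝ (V : Set E)) = volume (M V ∪ ⋃ v ∈ V, cap V v) := by rw [← hset]
    _ = volume (M V) + volume (⋃ v ∈ V, cap V v) :=
      measure_union hdisj (Finset.measurableSet_biUnion V fun v _ => exact_cap_meas V v)
    _ = _ := by
      rw [measure_biUnion_finset hpair fun v _ => exact_cap_meas V v]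

theorem exact (V : Finset E) :
    8 * volume (convexHull ℝ (V : Set E)) = 8 * volume (M V) +
      ∑ v ∈ V, volume (convexHull ℝ (V : Set E) \ convexHull ℝ ((V.erase v : Finset E) : Set E)) := by
  rw [exact_vol, mul_add, Finset.mul_sum]
  congr 1
  exact Finset.sum_congr rfl fun v _ => exact_cap_vol V v


end X_exact
alias exact := X_exact.exact

namespace X_tetra_sum


theorem tetra_sum (v : Fin 4 → E) (hv : AffineIndependent ℝ v) :
    4 * volume (convexHull ℝ ((Finset.univ.image v : Finset E) : Set E)) ≤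
      ∑ u ∈ Finset.univ.image v, volume (convexHull ℝ ((Finset.univ.image v : Finset E) : Set E) \
        convexHull ℝ (((Finset.univ.image v).erase u : Finset E) : Set E)) := by
  classical
  have hinj : Function.Injective v := hv.injective
  have hnull : ∀ u ∈ Finset.univ.image v,
      volume (convexHull ℝ (((Finset.univ.image v).erase u : Finset E) : Set E)) = 0 := by
    intro u hu
    obtain ⟨i, _, rfl⟩ := Finset.mem_image.1 hu
    have hset : (((Finset.univ.image v).erase (v i) : Finset E) : Set E) ⊆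
        v '' (Set.univ \ {i}) := by
      intro x hx
      rw [Finset.mem_coe, Finset.mem_erase, Finset.mem_image] at hx
      obtain ⟨hne, j, _, rfl⟩ := hx
      refine ⟨j, ⟨Set.mem_univ _, ?_⟩, rfl⟩
      intro hji
      rw [Set.mem_singleton_iff] at hji
      exact hne (by rw [hji])
    have hsub : convexHull ℝ (((Finset.univ.image v).erase (v i) : Finset E) : Set E) ⊆
        (affineSpan ℝ (v '' (Set.univ \ {i})) : Set E) :=
      (convexHull_mono hset).trans (convexHull_subset_affineSpan _)
    have htop : affineSpan ℝ (v '' (Set.univ \ {i})) ≠ ⊤ := by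
      intro h
      have h1 := hv.notMem_affineSpan_sdiff i Set.univ
      rw [h] at h1
      exact h1 (AffineSubspace.mem_top ℝ E (v i))
    exact measure_mono_null hsub (Measure.addHaar_affineSubspace volume _ htop)
  have hsum : ∑ u ∈ Finset.univ.image v,
      volume (convexHull ℝ ((Finset.univ.image v : Finset E) : Set E) \
        convexHull ℝ (((Finset.univ.image v).erase u : Finset E) : Set E)) =
      ∑ _u ∈ Finset.univ.image v,
        volume (convexHull ℝ ((Finset.univ.image v : Finset E) : Set E)) := by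
    apply Finset.sum_congr rfl
    intro u hu
    exact measure_sdiff_null (hnull u hu)
  rw [hsum, Finset.sum_const, Finset.card_image_of_injective _ hinj, Finset.card_univ,
    Fintype.card_fin, nsmul_eq_mul]
  norm_num


end X_tetra_sum
alias tetra_sum := X_tetra_sum.tetra_sum

namespace X_octa_sum


theorem coord_mid251 (b : AffineBasis (Fin 4) ℝ E) (i j p q : Fin 4) :
    (b.coord i + b.coord j) (midpoint ℝ (b p) (b q)) =
      (((if i = p then 1 else 0) + (if j = p then 1 else 0) + (if i = q then 1 else 0) +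
        (if j = q then 1 else 0) : ℕ) : ℝ) / 2 := by
  rw [AffineMap.map_midpoint, midpoint_eq_smul_add]
  simp only [AffineMap.coe_add, Pi.add_apply, AffineBasis.coord_apply, invOf_eq_inv, smul_eq_mul]
  push_cast
  ring

theorem dec1_251 : ∀ i j p q : Fin 4, i < j → p < q → (p, q) ≠ (i, j) →
    ((if i = p then 1 else 0) + (if j = p then 1 else 0) + (if i = q then 1 else 0) +
        (if j = q then 1 else 0) : ℕ) ≤ 1 := by
  decide

theorem dec2_251 : ∀ i j : Fin 4, i < j →
    ((if i = i then 1 else 0) + (if j = i then 1 else 0) + (if i = j then 1 else 0) +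
        (if j = j then 1 else 0) : ℕ) = 2 := by
  decide

theorem coord_le251 (b : AffineBasis (Fin 4) ℝ E) (i j p q : Fin 4) (hij : i < j) (hpq : p < q)
    (hne : (p, q) ≠ (i, j)) :
    (b.coord i + b.coord j) (midpoint ℝ (b p) (b q)) ≤ 1 / 2 := by
  rw [coord_mid251]
  have h := dec1_251 i j p q hij hpq hne
  have h' : (((if i = p then 1 else 0) + (if j = p then 1 else 0) + (if i = q then 1 else 0) +
        (if j = q then 1 else 0) : ℕ) : ℝ) ≤ 1 := by exact_mod_cast h
  linarith

theorem coord_self251 (b : AffineBasis (Fin 4) ℝ E) (i j : Fin 4) (hij : i < j) :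
    (b.coord i + b.coord j) (midpoint ℝ (b i) (b j)) = 1 := by
  rw [coord_mid251, dec2_251 i j hij]
  norm_num

theorem inj251 (b : AffineBasis (Fin 4) ℝ E) (i j p q : Fin 4) (hij : i < j) (hpq : p < q)
    (h : midpoint ℝ (b p) (b q) = midpoint ℝ (b i) (b j)) : (p, q) = (i, j) := by
  by_contra hne
  have h1 := coord_le251 b i j p q hij hpq hne
  rw [h, coord_self251 b i j hij] at h1
  norm_num at h1

theorem mem_V6_251 (b : AffineBasis (Fin 4) ℝ E) (u : E) (hu : u ∈ V6 b) :
    ∃ p q : Fin 4, p < q ∧ u = midpoint ℝ (b p) (b q) := by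
  unfold V6 at hu
  rw [Finset.mem_image] at hu
  obtain ⟨⟨p, q⟩, hp, rfl⟩ := hu
  exact ⟨p, q, by simpa using hp, rfl⟩

theorem hull_le251 (b : AffineBasis (Fin 4) ℝ E) (i j : Fin 4) (hij : i < j) (x : E)
    (hx : x ∈ convexHull ℝ (((V6 b).erase (midpoint ℝ (b i) (b j)) : Finset E) : Set E)) :
    (b.coord i + b.coord j) x ≤ 1 / 2 := by
  have h1 : convexHull ℝ (((V6 b).erase (midpoint ℝ (b i) (b j)) : Finset E) : Set E) ⊆
      (b.coord i + b.coord j) ⁻¹' (Iic (1/2)) := by
    apply convexHull_min
    · intro u hu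
      rw [Finset.mem_coe, Finset.mem_erase] at hu
      obtain ⟨p, q, hpq, rfl⟩ := mem_V6_251 b u hu.2
      refine coord_le251 b i j p q hij hpq ?_
      rintro h
      obtain ⟨rfl, rfl⟩ := Prod.mk.inj h
      exact hu.1 rfl
    · exact (convex_Iic (1/2 : ℝ)).affine_preimage _
  exact h1 hx

theorem null251 (b : AffineBasis (Fin 4) ℝ E) (i j : Fin 4) (hij : i < j) :
    volume {x : E | (b.coord i + b.coord j) x = 1 / 2} = 0 := by
  have h1 : {x : E | (b.coord i + b.coord j) x = 1 / 2} =
      ((AffineSubspace.comap (b.coord i + b.coord j) (affineSpan ℝ {(1/2 : ℝ)}) :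
        AffineSubspace ℝ E) : Set E) := by
    rw [AffineSubspace.coe_comap, AffineSubspace.coe_affineSpan_singleton]
    rfl
  rw [h1]
  apply Measure.addHaar_affineSubspace
  intro h2
  have h3 : midpoint ℝ (b i) (b j) ∈
      ((AffineSubspace.comap (b.coord i + b.coord j) (affineSpan ℝ {(1/2 : ℝ)}) :
        AffineSubspace ℝ E) : Set E) := by
    rw [h2]; trivial
  rw [← h1, mem_setOf_eq, coord_self251 b i j hij] at h3
  norm_num at h3

theorem pair251 (b : AffineBasis (Fin 4) ℝ E) (i j k l : Fin 4) (hij : i < j) (hkl : k < l)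
    (hs : ∀ x, (b.coord i + b.coord j) x + (b.coord k + b.coord l) x = 1) (O : Set E) :
    volume O ≤ volume (O \ convexHull ℝ (((V6 b).erase (midpoint ℝ (b i) (b j)) : Finset E) : Set E))
      + volume (O \ convexHull ℝ (((V6 b).erase (midpoint ℝ (b k) (b l)) : Finset E) : Set E)) := by
  set A := convexHull ℝ (((V6 b).erase (midpoint ℝ (b i) (b j)) : Finset E) : Set E) with hA
  set B := convexHull ℝ (((V6 b).erase (midpoint ℝ (b k) (b l)) : Finset E) : Set E) with hB
  have h1 : O ⊆ ((O \ A) ∪ (O \ B)) ∪ {x : E | (b.coord i + b.coord j) x = 1 / 2} := by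
    intro x hx
    by_cases hxA : x ∈ A
    · by_cases hxB : x ∈ B
      · right
        have h2 := hull_le251 b i j hij x hxA
        have h3 := hull_le251 b k l hkl x hxB
        have h4 := hs x
        show (b.coord i + b.coord j) x = 1 / 2
        linarith
      · left; right; exact ⟨hx, hxB⟩
    · left; left; exact ⟨hx, hxA⟩
  calc volume O ≤ volume (((O \ A) ∪ (O \ B)) ∪ {x : E | (b.coord i + b.coord j) x = 1 / 2}) :=
        measure_mono h1
    _ ≤ volume ((O \ A) ∪ (O \ B)) + volume {x : E | (b.coord i + b.coord j) x = 1 / 2} :=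
        measure_union_le _ _
    _ = volume ((O \ A) ∪ (O \ B)) := by rw [null251 b i j hij, add_zero]
    _ ≤ _ := measure_union_le _ _

theorem filt251 : (Finset.univ.filter (fun p : Fin 4 × Fin 4 => p.1 < p.2)) =
    {(0,1), (2,3), (0,2), (1,3), (0,3), (1,2)} := by
  decide

theorem sum_V6_251 (b : AffineBasis (Fin 4) ℝ E) (f : E → ENNReal) :
    ∑ u ∈ V6 b, f u = (f (midpoint ℝ (b 0) (b 1)) + f (midpoint ℝ (b 2) (b 3)))
      + (f (midpoint ℝ (b 0) (b 2)) + f (midpoint ℝ (b 1) (b 3)))
      + (f (midpoint ℝ (b 0) (b 3)) + f (midpoint ℝ (b 1) (b 2))) := by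
  unfold V6
  rw [Finset.sum_image, filt251]
  · rw [Finset.sum_insert (by decide), Finset.sum_insert (by decide),
      Finset.sum_insert (by decide), Finset.sum_insert (by decide),
      Finset.sum_insert (by decide), Finset.sum_singleton]
    ring
  · rintro ⟨p, q⟩ hp ⟨i, j⟩ hi h
    have hp' : p < q := by simpa using hp
    have hi' : i < j := by simpa using hi
    exact inj251 b i j p q hi' hp' h

theorem octa_sum (v : Fin 4 → E) (hv : AffineIndependent ℝ v) :
    3 * volume (convexHull ℝ ((V6 v : Finset E) : Set E)) ≤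
      ∑ u ∈ V6 v, volume (convexHull ℝ ((V6 v : Finset E) : Set E) \
        convexHull ℝ (((V6 v).erase u : Finset E) : Set E)) := by
  have htop : affineSpan ℝ (range v) = ⊤ := by
    rw [hv.affineSpan_eq_top_iff_card_eq_finrank_add_one]
    simp
  obtain ⟨b, rfl⟩ : ∃ b : AffineBasis (Fin 4) ℝ E, (b : Fin 4 → E) = v := ⟨⟨v, hv, htop⟩, rfl⟩
  rw [sum_V6_251]
  set O := convexHull ℝ ((V6 b : Finset E) : Set E) with hO
  have hs : ∀ x, b.coord 0 x + b.coord 1 x + b.coord 2 x + b.coord 3 x = 1 := by
    intro x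
    have := b.sum_coord_apply_eq_one x
    rw [Fin.sum_univ_four] at this
    exact this
  have e1 := pair251 b 0 1 2 3 (by decide) (by decide)
    (fun x => by have := hs x; simp only [AffineMap.coe_add, Pi.add_apply]; linarith) O
  have e2 := pair251 b 0 2 1 3 (by decide) (by decide)
    (fun x => by have := hs x; simp only [AffineMap.coe_add, Pi.add_apply]; linarith) O
  have e3 := pair251 b 0 3 1 2 (by decide) (by decide)
    (fun x => by have := hs x; simp only [AffineMap.coe_add, Pi.add_apply]; linarith) O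
  calc 3 * volume O = volume O + volume O + volume O := by ring
    _ ≤ _ := add_le_add (add_le_add e1 e2) e3


end X_octa_sum
alias octa_sum := X_octa_sum.octa_sum

namespace X_M_not_tetra


theorem M_mid (V : Finset E) {a b : E} (ha : a ∈ V) (hb : b ∈ V) (hab : a ≠ b) :
    midpoint ℝ a b ∈ M V := by
  classical
  refine ⟨fun v => if v = a ∨ v = b then 1 / 2 else 0, ?_, ?_, ?_⟩
  · intro v _
    dsimp only
    split_ifs <;> norm_num
  · rw [← Finset.sum_filter]
    have : V.filter (fun v => v = a ∨ v = b) = {a, b} := by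
      ext v
      simp only [Finset.mem_filter, Finset.mem_insert, Finset.mem_singleton]
      constructor
      · exact fun h => h.2
      · rintro (rfl | rfl)
        · exact ⟨ha, Or.inl rfl⟩
        · exact ⟨hb, Or.inr rfl⟩
    rw [this, Finset.sum_pair hab]
    norm_num
  · have h1 : ∀ v ∈ V, (if v = a ∨ v = b then (1 / 2 : ℝ) else 0) • v =
        if v = a ∨ v = b then (1 / 2 : ℝ) • v else 0 := by
      intro v _
      split_ifs <;> simp
    rw [Finset.sum_congr rfl h1, ← Finset.sum_filter]
    have : V.filter (fun v => v = a ∨ v = b) = {a, b} := by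
      ext v
      simp only [Finset.mem_filter, Finset.mem_insert, Finset.mem_singleton]
      constructor
      · exact fun h => h.2
      · rintro (rfl | rfl)
        · exact ⟨ha, Or.inl rfl⟩
        · exact ⟨hb, Or.inr rfl⟩
    rw [this, Finset.sum_pair hab, midpoint_eq_smul_add, smul_add]
    norm_num

theorem M_notMem (V : Finset E) (hV : CP V) {v : E} (hv : v ∈ V) : v ∉ M V := by
  classical
  rintro ⟨c, hc, hs, hx⟩
  apply hV v hv
  have hcv := hc v hv
  have h1 : 0 < 1 - c v := by linarith [hcv.2]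
  rw [← Finset.add_sum_erase V _ hv] at hs hx
  have h2 : v = ∑ w ∈ V.erase v, ((1 - c v)⁻¹ * c w) • w := by
    have h3 : ∑ w ∈ V.erase v, ((1 - c v)⁻¹ * c w) • w = (1 - c v)⁻¹ • ∑ w ∈ V.erase v, c w • w := by
      rw [Finset.smul_sum]
      apply Finset.sum_congr rfl
      intro w _
      rw [smul_smul]
    have h4 : ∑ w ∈ V.erase v, c w • w = (1 - c v) • v := by
      rw [sub_smul, one_smul]
      exact eq_sub_of_add_eq' hx
    rw [h3, h4, smul_smul, inv_mul_cancel₀ h1.ne', one_smul]
  have h5 : (∑ w ∈ V.erase v, ((1 - c v)⁻¹ * c w) • w) ∈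
      convexHull ℝ ((V.erase v : Finset E) : Set E) := by
    apply (convex_convexHull ℝ _).sum_mem
    · intro w hw
      have := (hc w (Finset.mem_of_mem_erase hw)).1
      positivity
    · rw [← Finset.mul_sum]
      have : ∑ w ∈ V.erase v, c w = 1 - c v := by linarith
      rw [this, inv_mul_cancel₀ h1.ne']
    · intro w hw
      exact subset_convexHull ℝ _ (Finset.mem_coe.2 hw)
  rw [← h2] at h5
  exact h5

theorem M_not_tetra (V : Finset E) (hV : CP V) (hcard : 4 ≤ V.card) : ¬ IsTetrahedron (M V) := by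
  classical
  rintro ⟨t, hind, hM⟩
  have htop : affineSpan ℝ (range t) = ⊤ := by
    rw [hind.affineSpan_eq_top_iff_card_eq_finrank_add_one]
    simp
  let b : AffineBasis (Fin 4) ℝ E := ⟨t, hind, htop⟩
  have hbt : ∀ k, b k = t k := fun k => rfl
  have hMc : M V = {x | ∀ k, 0 ≤ b.coord k x} := by
    rw [hM]
    exact b.convexHull_eq_nonneg_coord
  have hmid : ∀ x ∈ V, ∀ y ∈ V, x ≠ y → ∀ k, 0 ≤ b.coord k x + b.coord k y := by
    intro x hx y hy hxy k
    have h1 := M_mid V hx hy hxy
    rw [hMc] at h1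
    have h2 := h1 k
    rw [AffineMap.map_midpoint, midpoint_eq_smul_add, smul_eq_mul] at h2
    have h3 : (⅟2 : ℝ) = 1 / 2 := by norm_num
    rw [h3] at h2
    linarith
  have hneg : ∀ x : V, ∃ k, b.coord k (x : E) < 0 := by
    intro x
    by_contra hcon
    push Not at hcon
    apply M_notMem V hV x.2
    rw [hMc]
    exact hcon
  choose f hf using hneg
  have hinj : Function.Injective f := by
    intro x y hxy
    by_contra hne
    have h1 := hmid x x.2 y y.2 (fun h => hne (Subtype.ext h)) (f x)
    have h2 := hf x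
    have h3 := hf y
    rw [← hxy] at h3
    linarith
  have hbij : Function.Bijective f := by
    rw [Fintype.bijective_iff_injective_and_card]
    refine ⟨hinj, ?_⟩
    apply le_antisymm (Fintype.card_le_of_injective f hinj)
    simpa using hcard
  -- the vertex `b 0`
  have hext : b 0 ∈ (M V).extremePoints ℝ := by
    rw [mem_extremePoints_iff_left]
    refine ⟨?_, ?_⟩
    · rw [hMc]
      intro k
      by_cases hk : k = 0
      · rw [hk, b.coord_apply_eq]; norm_num
      · rw [b.coord_apply_ne hk]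
    · intro x₁ h₁ x₂ h₂ hx
      rw [hMc] at h₁ h₂
      obtain ⟨α, β, hα, hβ, hαβ, hx⟩ := hx
      have hz : ∀ k, k ≠ 0 → b.coord k x₁ = 0 := by
        intro k hk
        have h3 : b.coord k (α • x₁ + β • x₂) = α * b.coord k x₁ + β * b.coord k x₂ := by
          have := Convex.combo_affine_apply (x := x₁) (y := x₂) (f := (b.coord k : E →ᵃ[ℝ] ℝ)) hαβ
          simpa using this
        rw [hx, b.coord_apply_ne hk] at h3
        have h4 := h₁ k
        have h5 := h₂ k
        have h6 := mul_nonneg hβ.le h5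
        have h7 := mul_nonneg hα.le h4
        have h8 : α * b.coord k x₁ = 0 := by linarith
        exact (mul_eq_zero.1 h8).resolve_left hα.ne'
      have h0 : b.coord 0 x₁ = 1 := by
        have h3 := b.sum_coord_apply_eq_one x₁
        rw [Finset.sum_eq_single 0] at h3
        · exact h3
        · intro k _ hk
          exact hz k hk
        · intro h
          exact absurd (Finset.mem_univ _) h
      apply b.ext_elem
      intro k
      by_cases hk : k = 0
      · rw [hk, h0, b.coord_apply_eq]
      · rw [hz k hk, b.coord_apply_ne hk]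
  obtain ⟨x, hx, y, hy, hxy, hmxy⟩ := two_half V (b 0) hext
  obtain ⟨k, hk0, hkx, hky⟩ : ∃ k : Fin 4, k ≠ 0 ∧ k ≠ f ⟨x, hx⟩ ∧ k ≠ f ⟨y, hy⟩ := by
    have : ∀ a c : Fin 4, ∃ k : Fin 4, k ≠ 0 ∧ k ≠ a ∧ k ≠ c := by decide
    exact this _ _
  obtain ⟨u, hu⟩ := hbij.2 k
  have hun := hf u
  rw [hu] at hun
  have hux : x ≠ u := by
    intro h
    apply hkx
    rw [← hu]
    congr 1
    exact Subtype.ext h.symm
  have huy : y ≠ u := by
    intro h
    apply hky
    rw [← hu]
    congr 1
    exact Subtype.ext h.symm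
  have h1 := hmid x hx u u.2 hux k
  have h2 := hmid y hy u u.2 huy k
  have h3 : b.coord k (b 0) = 0 := b.coord_apply_ne hk0
  rw [hmxy, AffineMap.map_midpoint, midpoint_eq_smul_add, smul_eq_mul] at h3
  have h4 : (⅟2 : ℝ) = 1 / 2 := by norm_num
  rw [h4] at h3
  linarith


end X_M_not_tetra
alias M_not_tetra := X_M_not_tetra.M_not_tetra

namespace X_M_interior


theorem M_interior (V : Finset E) (hi : (interior (convexHull ℝ (V : Set E))).Nonempty) :
    (interior (M V)).Nonempty := by
  classical
  have hne : (V : Set E).Nonempty := by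
    obtain ⟨x, hx⟩ := hi
    exact convexHull_nonempty_iff.mp ⟨x, interior_subset hx⟩
  have hcard : 3 ≤ V.card := by
    have hspan : affineSpan ℝ (V : Set E) = ⊤ :=
      interior_convexHull_nonempty_iff_affineSpan_eq_top.mp hi
    obtain ⟨n, hn⟩ : ∃ n, V.card = n + 1 :=
      ⟨V.card - 1, by have := Finset.card_pos.mpr (Finset.coe_nonempty.mp hne); omega⟩
    have h1 : Fintype.card V = n + 1 := by simpa using hn
    have h2 := finrank_vectorSpan_range_le ℝ (fun v : V => (v : E)) h1
    have h3 : Set.range (fun v : V => (v : E)) = (V : Set E) := by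
      ext x; simp
    rw [h3, ← direction_affineSpan, hspan, AffineSubspace.direction_top, finrank_top] at h2
    have h4 : Module.finrank ℝ E = 3 := by simp [E]
    omega
  have hN : (3 : ℝ) ≤ V.card := by exact_mod_cast hcard
  have hN0 : (0 : ℝ) < V.card := by linarith
  set g : E := ∑ v ∈ V, (1 / (V.card : ℝ)) • v with hg
  have hsub : AffineMap.homothety g (1 / 4 : ℝ) '' (interior (convexHull ℝ (V : Set E))) ⊆ M V := by
    rintro _ ⟨x, hx, rfl⟩
    have hx' := interior_subset hx
    rw [Finset.mem_convexHull'] at hx'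
    obtain ⟨w, hw0, hw1, hwx⟩ := hx'
    refine ⟨fun v => 3 / 4 * (1 / (V.card : ℝ)) + 1 / 4 * w v, ?_, ?_, ?_⟩
    · intro v hv
      have h1 := hw0 v hv
      have h2 : w v ≤ 1 := by
        rw [← hw1]
        exact Finset.single_le_sum (f := w) (fun y hy => hw0 y hy) hv
      have h3 : 1 / (V.card : ℝ) ≤ 1 / 3 := one_div_le_one_div_of_le (by norm_num) hN
      have h4 : 0 < 1 / (V.card : ℝ) := by positivity
      constructor
      · positivity
      · linarith
    · rw [Finset.sum_add_distrib, ← Finset.mul_sum, ← Finset.mul_sum, hw1, Finset.sum_const,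
        nsmul_eq_mul]
      field_simp
      norm_num
    · rw [AffineMap.homothety_apply]
      simp only [add_smul, mul_smul, Finset.sum_add_distrib, ← Finset.smul_sum, hwx, vsub_eq_sub,
        vadd_eq_add]
      have h5 : (∑ v ∈ V, (1 / (V.card : ℝ)) • v) = g := rfl
      rw [h5]
      module
  have hopen : IsOpen (AffineMap.homothety g (1 / 4 : ℝ) '' (interior (convexHull ℝ (V : Set E)))) :=
    AffineMap.homothety_isOpenMap g (1 / 4 : ℝ) (by norm_num) _ isOpen_interior
  obtain ⟨x, hx⟩ := hi
  exact ⟨_, interior_maximal hsub hopen ⟨x, hx, rfl⟩⟩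


end X_M_interior
alias M_interior := X_M_interior.M_interior

namespace X_M_hull


theorem M_hull (V : Finset E) :
    M V = convexHull ℝ {m : E | ∃ v ∈ V, ∃ w ∈ V, v ≠ w ∧ m = midpoint ℝ v w} := by
  classical
  apply Set.Subset.antisymm
  · have hfin : {m : E | ∃ v ∈ V, ∃ w ∈ V, v ≠ w ∧ m = midpoint ℝ v w}.Finite := by
      refine ((V ×ˢ V).image (fun p : E × E => midpoint ℝ p.1 p.2)).finite_toSet.subset ?_
      rintro m ⟨v, hv, w, hw, -, rfl⟩
      rw [Finset.mem_coe, Finset.mem_image]
      exact ⟨(v, w), Finset.mem_product.2 ⟨hv, hw⟩, rfl⟩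
    have hcl : IsClosed (convexHull ℝ {m : E | ∃ v ∈ V, ∃ w ∈ V, v ≠ w ∧ m = midpoint ℝ v w}) :=
      hfin.isClosed_convexHull (𝕜 := ℝ)
    have h1 := closure_convexHull_extremePoints (M_compact V) (M_convex V)
    rw [← h1]
    refine closure_minimal ?_ hcl
    refine convexHull_mono ?_
    intro x hx
    obtain ⟨v, hv, w, hw, hvw, rfl⟩ := two_half V x hx
    exact ⟨v, hv, w, hw, hvw, rfl⟩
  · refine convexHull_min ?_ (M_convex V)
    rintro m ⟨v, hv, w, hw, hvw, rfl⟩
    refine ⟨fun u => (if u = v then (1/2:ℝ) else 0) + (if u = w then (1/2:ℝ) else 0), ?_, ?_, ?_⟩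
    · intro u _
      by_cases h1 : u = v
      · have h2 : u ≠ w := by rw [h1]; exact hvw
        simp only [if_pos h1, if_neg h2]
        norm_num
      · by_cases h2 : u = w
        · simp only [if_neg h1, if_pos h2]
          norm_num
        · simp only [if_neg h1, if_neg h2]
          norm_num
    · rw [Finset.sum_add_distrib, Finset.sum_ite_eq', Finset.sum_ite_eq', if_pos hv, if_pos hw]
      norm_num
    · simp only [add_smul, ite_smul, zero_smul]
      rw [Finset.sum_add_distrib, Finset.sum_ite_eq', Finset.sum_ite_eq', if_pos hv, if_pos hw,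
        midpoint_eq_smul_add, smul_add]
      simp


end X_M_hull
alias M_hull := X_M_hull.M_hull

namespace X_next_eq


theorem next_eq (V : Finset E) (hV : CP V) : next (convexHull ℝ (V : Set E)) = M V := by
  apply Set.Subset.antisymm
  · exact convexHull_min (fun m hm => edge_mid_mem V m hm) (M_convex V)
  · have h1 : (M V).extremePoints ℝ ⊆ edgeMidpoints (convexHull ℝ (V : Set E)) := by
      intro x hx
      obtain ⟨v, hv, w, hw, hvw, hxe⟩ := two_half V x hx
      rw [hxe] at hx
      exact ⟨v, w, hvw, edge_of_extreme V hV v w hv hw hvw hx, hxe⟩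
    have h2 : closure (convexHull ℝ ((M V).extremePoints ℝ)) = M V :=
      closure_convexHull_extremePoints (M_compact V) (M_convex V)
    have h3 : IsClosed (convexHull ℝ (edgeMidpoints (convexHull ℝ (V : Set E)))) :=
      Set.Finite.isClosed_convexHull ℝ (edge_mid_finite V)
    rw [← h2]
    exact closure_minimal (convexHull_mono h1) h3


end X_next_eq
alias next_eq := X_next_eq.next_eq

end Pool.Agent.Helper584.FS
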