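import Pool.Agent.Helper584.FS.BoxLemmas

set_option autoImplicit false

open MeasureTheory Set

namespace Pool.Agent.Helper584.FS

/-- base points: `b 0 = o + s d1`, `b 2 = o - (1-s) d1`, `b 1 = o + t d2`, `b 3 = o - (1-t) d2`
(a quadrilateral whose diagonals cross at `o`). -/
def bp (o d1 d2 : E) (s t : ℝ) : Fin 4 → E :=
  ![o + s • d1, o + t • d2, o - (1 - s) • d1, o - (1 - t) • d2]

/-- the eight vertices of the prism -/
noncomputable def V8 (o d1 d2 e : E) (s t : ℝ) : Finset E :=
  (Finset.univ : Finset (Fin 4 × Bool)).image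
    (fun q => bp o d1 d2 s t q.1 + (if q.2 then (1 : ℝ) else 0) • e)


namespace X_qp_CP

theorem cp_key (V : Finset E) (v : E) (φ : E →ₗ[ℝ] ℝ) (h : ∀ w ∈ V, w ≠ v → φ v < φ w) :
    v ∉ convexHull ℝ ((V.erase v : Finset E) : Set E) := by
  intro hv
  have hsub : ((V.erase v : Finset E) : Set E) ⊆ {x | φ v < φ x} := by
    intro w hw
    rw [Finset.mem_coe, Finset.mem_erase] at hw
    exact h w hw.2 hw.1
  have hconv : Convex ℝ {x : E | φ v < φ x} := convex_halfSpace_gt φ.isLinear (φ v)
  have h2 := convexHull_min hsub hconv hv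
  exact lt_irrefl (φ v) h2

theorem cp_fun (d1 d2 e : E) (h : LinearIndependent ℝ ![d1, d2, e]) (a b c : ℝ) :
    ∃ φ : E →ₗ[ℝ] ℝ, φ d1 = a ∧ φ d2 = b ∧ φ e = c := by
  have hc : Fintype.card (Fin 3) = Module.finrank ℝ E := by simp
  let B := basisOfLinearIndependentOfCardEqFinrank h hc
  have hB : ∀ i, B i = ![d1, d2, e] i := by
    intro i
    simp [B]
  refine ⟨B.constr ℝ ![a, b, c], ?_, ?_, ?_⟩
  · have h0 := B.constr_basis ℝ ![a, b, c] 0
    rw [hB 0] at h0
    simpa using h0
  · have h0 := B.constr_basis ℝ ![a, b, c] 1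
    rw [hB 1] at h0
    simpa using h0
  · have h0 := B.constr_basis ℝ ![a, b, c] 2
    rw [hB 2] at h0
    simpa using h0

theorem qp_CP (o d1 d2 e : E) (s t : ℝ) (h : LinearIndependent ℝ ![d1, d2, e])
    (hs : 0 < s) (hs1 : s < 1) (ht : 0 < t) (ht1 : t < 1) : CP (V8 o d1 d2 e s t) := by
  intro v hv
  unfold V8 at hv
  rw [Finset.mem_image] at hv
  obtain ⟨⟨i0, b0⟩, -, rfl⟩ := hv
  obtain ⟨φ, h1, h2, h3⟩ := cp_fun d1 d2 e h ((![-1, 0, 1, 0] : Fin 4 → ℝ) i0)
    ((![0, -1, 0, 1] : Fin 4 → ℝ) i0) (if b0 then (-1 : ℝ) else 1)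
  apply cp_key _ _ φ
  intro w hw hne
  unfold V8 at hw
  rw [Finset.mem_image] at hw
  obtain ⟨⟨i, b⟩, -, rfl⟩ := hw
  have hq : ∀ (i : Fin 4) (b : Bool), φ (bp o d1 d2 s t i + (if b then (1 : ℝ) else 0) • e) =
      φ o + (![s, 0, -(1 - s), 0] : Fin 4 → ℝ) i * φ d1 + (![0, t, 0, -(1 - t)] : Fin 4 → ℝ) i * φ d2
        + (if b then (1 : ℝ) else 0) * φ e := by
    intro i b
    fin_cases i <;> cases b <;> simp [bp] <;> try ring
  have hne' : ¬ (i = i0 ∧ b = b0) := by
    rintro ⟨rfl, rfl⟩
    exact hne rfl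
  simp only []
  rw [hq, hq, h1, h2, h3]
  clear hq hne h1 h2 h3
  fin_cases i0 <;> fin_cases i <;> cases b0 <;> cases b <;> simp at hne' ⊢ <;> linarith


end X_qp_CP
alias qp_CP := X_qp_CP.qp_CP

namespace X_qp_bottom

theorem qp_bottom (o d1 d2 e : E) (s t : ℝ) (h : LinearIndependent ℝ ![d1, d2, e]) :
    IsExtreme ℝ (convexHull ℝ ((V8 o d1 d2 e s t : Finset E) : Set E))
      (convexHull ℝ {bp o d1 d2 s t 0, bp o d1 d2 s t 1, bp o d1 d2 s t 2, bp o d1 d2 s t 3}) := by
  have hcard : Fintype.card (Fin 3) = Module.finrank ℝ E := by simp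
  obtain ⟨l, hl1, hl2, hl3⟩ : ∃ l : E →ₗ[ℝ] ℝ, l d1 = 0 ∧ l d2 = 0 ∧ l e = 1 := by
    obtain ⟨B, hB⟩ : ∃ B : Module.Basis (Fin 3) ℝ E, (B : Fin 3 → E) = ![d1, d2, e] :=
      ⟨basisOfLinearIndependentOfCardEqFinrank h hcard,
        coe_basisOfLinearIndependentOfCardEqFinrank h hcard⟩
    refine ⟨B.coord 2, ?_, ?_, ?_⟩
    · have h1 : d1 = B 0 := by
        rw [hB]; rfl
      rw [Module.Basis.coord_apply, h1, Module.Basis.repr_self, Finsupp.single_apply,
        if_neg (by decide)]
    · have h1 : d2 = B 1 := by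
        rw [hB]; rfl
      rw [Module.Basis.coord_apply, h1, Module.Basis.repr_self, Finsupp.single_apply,
        if_neg (by decide)]
    · have h1 : e = B 2 := by
        rw [hB]; rfl
      rw [Module.Basis.coord_apply, h1, Module.Basis.repr_self, Finsupp.single_apply,
        if_pos rfl]
  have hbp : ∀ i, l (bp o d1 d2 s t i) = l o := by
    intro i
    fin_cases i
    · show l (o + s • d1) = l o
      rw [map_add, map_smul, hl1]; simp
    · show l (o + t • d2) = l o
      rw [map_add, map_smul, hl2]; simp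
    · show l (o - (1 - s) • d1) = l o
      rw [map_sub, map_smul, hl1]; simp
    · show l (o - (1 - t) • d2) = l o
      rw [map_sub, map_smul, hl2]; simp
  obtain ⟨Bt, hBt⟩ : ∃ Bt : Set E, Bt = {bp o d1 d2 s t 0, bp o d1 d2 s t 1, bp o d1 d2 s t 2,
      bp o d1 d2 s t 3} := ⟨_, rfl⟩
  have hBtm : ∀ x, x ∈ Bt ↔ ∃ i, x = bp o d1 d2 s t i := by
    intro x
    rw [hBt]
    constructor
    · rintro (h0 | h0 | h0 | h0)
      · exact ⟨0, h0⟩
      · exact ⟨1, h0⟩
      · exact ⟨2, h0⟩
      · exact ⟨3, h0⟩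
    · rintro ⟨i, rfl⟩
      fin_cases i
      · exact Or.inl rfl
      · exact Or.inr (Or.inl rfl)
      · exact Or.inr (Or.inr (Or.inl rfl))
      · exact Or.inr (Or.inr (Or.inr rfl))
  rw [← hBt]
  obtain ⟨Tp, hTp⟩ : ∃ Tp : Set E, Tp = {x | ∃ i, x = bp o d1 d2 s t i + e} := ⟨_, rfl⟩
  have hV : ((V8 o d1 d2 e s t : Finset E) : Set E) = Bt ∪ Tp := by
    ext x
    rw [Finset.mem_coe, V8, Finset.mem_image, Set.mem_union, hBtm, hTp]
    constructor
    · rintro ⟨⟨i, β⟩, -, rfl⟩
      cases β
      · left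
        exact ⟨i, by simp⟩
      · right
        exact ⟨i, by simp⟩
    · rintro (⟨i, rfl⟩ | ⟨i, rfl⟩)
      · exact ⟨(i, false), Finset.mem_univ _, by simp⟩
      · exact ⟨(i, true), Finset.mem_univ _, by simp⟩
  have hconv : ∀ c : ℝ, Convex ℝ {x : E | l x = c} := by
    intro c x hx y hy a b ha hb hab
    show l (a • x + b • y) = c
    have hx' : l x = c := hx
    have hy' : l y = c := hy
    rw [map_add, map_smul, map_smul, hx', hy', ← add_smul, hab, one_smul]
  have h0 : ∀ x ∈ convexHull ℝ Bt, l x = l o := by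
    intro x hx
    have h1 : convexHull ℝ Bt ⊆ {x : E | l x = l o} := by
      apply convexHull_min _ (hconv _)
      intro y hy
      obtain ⟨i, rfl⟩ := (hBtm y).1 hy
      exact hbp i
    exact h1 hx
  have h1 : ∀ x ∈ convexHull ℝ Tp, l x = l o + 1 := by
    intro x hx
    have h1 : convexHull ℝ Tp ⊆ {x : E | l x = l o + 1} := by
      apply convexHull_min _ (hconv _)
      intro y hy
      rw [hTp] at hy
      obtain ⟨i, rfl⟩ := hy
      show l (bp o d1 d2 s t i + e) = l o + 1
      rw [map_add, hbp, hl3]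
    exact h1 hx
  have hBn : Bt.Nonempty := ⟨bp o d1 d2 s t 0, (hBtm _).2 ⟨0, rfl⟩⟩
  have hTn : Tp.Nonempty := ⟨bp o d1 d2 s t 0 + e, by rw [hTp]; exact ⟨0, rfl⟩⟩
  have hA : ∀ x ∈ convexHull ℝ ((V8 o d1 d2 e s t : Finset E) : Set E),
      l o ≤ l x ∧ (l x = l o → x ∈ convexHull ℝ Bt) := by
    intro x hx
    rw [hV, convexHull_union hBn hTn, mem_convexJoin] at hx
    obtain ⟨p, hp, q, hq, a, b, ha, hb, hab, rfl⟩ := hx
    have e1 := h0 p hp
    have e2 := h1 q hq
    have e3 : l (a • p + b • q) = l o + b := by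
      rw [map_add, map_smul, map_smul, e1, e2, smul_eq_mul, smul_eq_mul]
      have : a = 1 - b := by linarith
      rw [this]
      ring
    rw [e3]
    refine ⟨by linarith, fun h2 => ?_⟩
    have hb0 : b = 0 := by linarith
    have ha1 : a = 1 := by linarith
    rw [hb0, ha1, one_smul, zero_smul, add_zero]
    exact hp
  refine ⟨?_, ?_⟩
  · rw [hV]
    exact convexHull_mono Set.subset_union_left
  · intro x hx y hy w hw hwxy
    obtain ⟨a, b, ha, hb, hab, rfl⟩ := hwxy
    obtain ⟨hx1, hx2⟩ := hA x hx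
    obtain ⟨hy1, -⟩ := hA y hy
    apply hx2
    have e1 := h0 _ hw
    rw [map_add, map_smul, map_smul, smul_eq_mul, smul_eq_mul] at e1
    have e2 : a * (l x - l o) + b * (l y - l o) = 0 := by
      have : a * (l x - l o) + b * (l y - l o) = a * l x + b * l y - (a + b) * l o := by ring
      rw [this, e1, hab]
      ring
    have e3 : 0 ≤ b * (l y - l o) := mul_nonneg hb.le (by linarith)
    have e4 : 0 ≤ a * (l x - l o) := mul_nonneg ha.le (by linarith)
    have e5 : a * (l x - l o) = 0 := by linarith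
    rcases mul_eq_zero.1 e5 with h2 | h2
    · linarith
    · linarith


end X_qp_bottom
alias qp_bottom := X_qp_bottom.qp_bottom

namespace X_qp_corner

theorem M_convex (V : Finset E) : Convex ℝ (M V) := by
  rintro x ⟨c, hc, hc1, rfl⟩ y ⟨c', hc', hc1', rfl⟩ a b ha hb hab
  refine ⟨fun v => a * c v + b * c' v, fun v hv => ?_, ?_, ?_⟩
  · have h1 := hc v hv
    have h2 := hc' v hv
    constructor
    · have := mul_nonneg ha h1.1
      have := mul_nonneg hb h2.1
      linarith
    · have := mul_le_mul_of_nonneg_left h1.2 ha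
      have := mul_le_mul_of_nonneg_left h2.2 hb
      nlinarith
  · rw [Finset.sum_add_distrib, ← Finset.mul_sum, ← Finset.mul_sum, hc1, hc1']
    linarith
  · rw [Finset.smul_sum, Finset.smul_sum, ← Finset.sum_add_distrib]
    refine Finset.sum_congr rfl (fun v _ => ?_)
    rw [add_smul, mul_smul, mul_smul]

theorem mid_mem (V : Finset E) (v w : E) (hv : v ∈ V) (hw : w ∈ V) (hvw : v ≠ w) :
    midpoint ℝ v w ∈ M V := by
  classical
  refine ⟨fun z => (if z = v then 1 / 2 else 0) + (if z = w then 1 / 2 else 0), fun z _ => ?_, ?_, ?_⟩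
  · by_cases h1 : z = v
    · have h2 : z ≠ w := fun h => hvw (h1.symm.trans h)
      simp only [if_pos h1, if_neg h2]
      norm_num
    · simp only [if_neg h1]
      split_ifs <;> norm_num
  · rw [Finset.sum_add_distrib, Finset.sum_ite_eq' V v, Finset.sum_ite_eq' V w, if_pos hv, if_pos hw]
    norm_num
  · simp only [add_smul, ite_smul, zero_smul]
    rw [Finset.sum_add_distrib, Finset.sum_ite_eq' V v (fun z => (1 / 2 : ℝ) • z),
      Finset.sum_ite_eq' V w (fun z => (1 / 2 : ℝ) • z), if_pos hv, if_pos hw]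
    rw [midpoint_eq_smul_add, smul_add]
    norm_num

theorem qp_corner (o d1 d2 e : E) (s t : ℝ) (h : LinearIndependent ℝ ![d1, d2, e])
    (hs : 0 < s) (hs1 : s < 1) (ht : 0 < t) (ht1 : t < 1) :
    IsExtreme ℝ (M (V8 o d1 d2 e s t))
      (convexHull ℝ {midpoint ℝ (bp o d1 d2 s t 0) (bp o d1 d2 s t 1),
        midpoint ℝ (bp o d1 d2 s t 0) (bp o d1 d2 s t 3),
        midpoint ℝ (bp o d1 d2 s t 0) (bp o d1 d2 s t 0 + e)}) := by
  classical
  obtain ⟨B, hB⟩ : ∃ B : Module.Basis (Fin 3) ℝ E, ∀ i, B i = ![d1, d2, e] i :=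
    ⟨basisOfLinearIndependentOfCardEqFinrank h (by simp), fun i => by simp⟩
  have hB0 : B 0 = d1 := hB 0
  have hB1 : B 1 = d2 := hB 1
  have hB2 : B 2 = e := hB 2
  obtain ⟨φ1, h11, h12, h13⟩ : ∃ φ : E →ₗ[ℝ] ℝ, φ d1 = 1 ∧ φ d2 = 0 ∧ φ e = 0 := by
    refine ⟨B.coord 0, ?_, ?_, ?_⟩
    · rw [← hB0]; simp
    · rw [← hB1]; simp
    · rw [← hB2]; simp
  obtain ⟨φ2, h21, h22, h23⟩ : ∃ φ : E →ₗ[ℝ] ℝ, φ d1 = 0 ∧ φ d2 = 1 ∧ φ e = 0 := by
    refine ⟨B.coord 1, ?_, ?_, ?_⟩
    · rw [← hB0]; simp
    · rw [← hB1]; simp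
    · rw [← hB2]; simp
  obtain ⟨φ3, h31, h32, h33⟩ : ∃ φ : E →ₗ[ℝ] ℝ, φ d1 = 0 ∧ φ d2 = 0 ∧ φ e = 1 := by
    refine ⟨B.coord 2, ?_, ?_, ?_⟩
    · rw [← hB0]; simp
    · rw [← hB1]; simp
    · rw [← hB2]; simp
  have hb0 : bp o d1 d2 s t 0 = o + s • d1 := rfl
  have hb1 : bp o d1 d2 s t 1 = o + t • d2 := rfl
  have hb2 : bp o d1 d2 s t 2 = o - (1 - s) • d1 := rfl
  have hb3 : bp o d1 d2 s t 3 = o - (1 - t) • d2 := rfl
  obtain ⟨g, hg⟩ : ∃ g : Fin 4 × Bool → E, g = fun q => bp o d1 d2 s t q.1 + (if q.2 then (1 : ℝ) else 0) • e :=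
    ⟨_, rfl⟩
  have g0f : g (0, false) = o + s • d1 := by rw [hg]; simp [hb0]
  have g0t : g (0, true) = o + s • d1 + e := by rw [hg]; simp [hb0]
  have g1f : g (1, false) = o + t • d2 := by rw [hg]; simp [hb1]
  have g1t : g (1, true) = o + t • d2 + e := by rw [hg]; simp [hb1]
  have g2f : g (2, false) = o - (1 - s) • d1 := by rw [hg]; simp [hb2]
  have g2t : g (2, true) = o - (1 - s) • d1 + e := by rw [hg]; simp [hb2]
  have g3f : g (3, false) = o - (1 - t) • d2 := by rw [hg]; simp [hb3]
  have g3t : g (3, true) = o - (1 - t) • d2 + e := by rw [hg]; simp [hb3]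
  -- coordinates of the vertices
  have key : ∀ q q' : Fin 4 × Bool, g q = g q' → q = q' := by
    intro q q' hq
    have e1 := congrArg φ1 hq
    have e2 := congrArg φ2 hq
    have e3 := congrArg φ3 hq
    obtain ⟨i, a⟩ := q
    obtain ⟨j, b⟩ := q'
    have v3 : ∀ (i : Fin 4) (a : Bool), φ3 (g (i, a)) = φ3 o + (if a then 1 else 0) := by
      intro i a
      rw [hg]
      fin_cases i <;> cases a <;> simp [bp, h31, h32, h33]
    have hab : a = b := by
      rw [v3, v3] at e3
      cases a <;> cases b <;> simp at e3 ⊢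
    subst hab
    have v1 : ∀ (i : Fin 4) (a : Bool), φ1 (g (i, a)) = φ1 o + ![s, 0, -(1 - s), 0] i := by
      intro i a
      rw [hg]
      fin_cases i <;> cases a <;> simp [bp, h11, h12, h13] <;> ring
    have v2 : ∀ (i : Fin 4) (a : Bool), φ2 (g (i, a)) = φ2 o + ![0, t, 0, -(1 - t)] i := by
      intro i a
      rw [hg]
      fin_cases i <;> cases a <;> simp [bp, h21, h22, h23] <;> ring
    rw [v1, v1] at e1
    rw [v2, v2] at e2
    have e1' := add_left_cancel e1
    have e2' := add_left_cancel e2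
    have hij : i = j := by
      fin_cases i <;> fin_cases j <;> simp at e1' e2' ⊢ <;> linarith
    rw [hij]
  have hinj : Function.Injective g := fun q q' => key q q'
  have hV : V8 o d1 d2 e s t = Finset.univ.image g := by rw [hg]; rfl
  have hmem : ∀ q, g q ∈ V8 o d1 d2 e s t := by
    intro q; rw [hV]; exact Finset.mem_image_of_mem _ (Finset.mem_univ _)
  -- the functional
  obtain ⟨ψ, p1, p2, p3⟩ : ∃ ψ : E →ₗ[ℝ] ℝ, ψ d1 = -(1 / s) ∧ ψ d2 = 0 ∧ ψ e = 1 := by
    refine ⟨φ3 - (1 / s) • φ1, ?_, ?_, ?_⟩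
    · simp [h31, h11]
    · simp [h32, h12]
    · simp [h33, h13]
  -- elements of M
  have hM : ∀ x ∈ M (V8 o d1 d2 e s t), ∃ a0 a0' a1 a1' a2 a2' a3 a3' : ℝ,
      0 ≤ a0 ∧ a0 ≤ 1 / 2 ∧ 0 ≤ a0' ∧ 0 ≤ a1 ∧ 0 ≤ a1' ∧ 0 ≤ a2 ∧ 0 ≤ a2' ∧ 0 ≤ a3 ∧ 0 ≤ a3' ∧
      a0 + a0' + a1 + a1' + a2 + a2' + a3 + a3' = 1 ∧
      x = a0 • (o + s • d1) + a0' • (o + s • d1 + e) + a1 • (o + t • d2) + a1' • (o + t • d2 + e) +
        a2 • (o - (1 - s) • d1) + a2' • (o - (1 - s) • d1 + e) + a3 • (o - (1 - t) • d2) +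
        a3' • (o - (1 - t) • d2 + e) := by
    rintro x ⟨c, hc, hc1, hx⟩
    rw [hV, Finset.sum_image (fun q _ q' _ hqq => hinj hqq)] at hc1 hx
    rw [Fintype.sum_prod_type] at hc1 hx
    simp only [Fin.sum_univ_four, Fintype.sum_bool] at hc1 hx
    refine ⟨c (g (0, false)), c (g (0, true)), c (g (1, false)), c (g (1, true)), c (g (2, false)),
      c (g (2, true)), c (g (3, false)), c (g (3, true)), (hc _ (hmem _)).1, (hc _ (hmem _)).2,
      (hc _ (hmem _)).1, (hc _ (hmem _)).1, (hc _ (hmem _)).1, (hc _ (hmem _)).1,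
      (hc _ (hmem _)).1, (hc _ (hmem _)).1, (hc _ (hmem _)).1, by linarith, ?_⟩
    rw [← g0t, ← g1t, ← g2t, ← g3t, ← g0f, ← g1f, ← g2f, ← g3f, ← hx]
    abel
  have hψ : ∀ (a0 a0' a1 a1' a2 a2' a3 a3' : ℝ), a0 + a0' + a1 + a1' + a2 + a2' + a3 + a3' = 1 →
      ψ (a0 • (o + s • d1) + a0' • (o + s • d1 + e) + a1 • (o + t • d2) + a1' • (o + t • d2 + e) +
        a2 • (o - (1 - s) • d1) + a2' • (o - (1 - s) • d1 + e) + a3 • (o - (1 - t) • d2) +
        a3' • (o - (1 - t) • d2 + e)) =
      ψ o - a0 + a1' + a2 * (1 / s - 1) + a2' * (1 / s) + a3' := by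
    intro a0 a0' a1 a1' a2 a2' a3 a3' hsum
    simp only [map_add, map_sub, map_smul, smul_eq_mul, p1, p2, p3]
    have hs0 : s ≠ 0 := hs.ne'
    have h1 : a0 = 1 - (a0' + a1 + a1' + a2 + a2' + a3 + a3') := by linarith
    subst h1
    field_simp
    ring
  have h1s : 0 < 1 / s - 1 := by
    rw [sub_pos, lt_div_iff₀ hs]; linarith
  have h1s' : 0 < 1 / s := by positivity
  have hlow : ∀ x ∈ M (V8 o d1 d2 e s t), ψ o - 1 / 2 ≤ ψ x := by
    intro x hx
    obtain ⟨a0, a0', a1, a1', a2, a2', a3, a3', q0, q0h, q0', q1, q1', q2, q2', q3, q3', hsum, rfl⟩ := hM x hx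
    rw [hψ _ _ _ _ _ _ _ _ hsum]
    have := mul_nonneg q2 h1s.le
    have := mul_nonneg q2' h1s'.le
    linarith
  have n01 : (o + s • d1 : E) ≠ o + t • d2 := by
    rw [← g0f, ← g1f]; intro hh; have := hinj hh; simp at this
  have n03 : (o + s • d1 : E) ≠ o - (1 - t) • d2 := by
    rw [← g0f, ← g3f]; intro hh; have := hinj hh; simp at this
  have n0e : (o + s • d1 : E) ≠ o + s • d1 + e := by
    rw [← g0t, ← g0f]; intro hh; have := hinj hh; simp at this
  rw [hb0, hb1, hb3]
  have hTM : convexHull ℝ {midpoint ℝ (o + s • d1) (o + t • d2), midpoint ℝ (o + s • d1) (o - (1 - t) • d2),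
      midpoint ℝ (o + s • d1) (o + s • d1 + e)} ⊆ M (V8 o d1 d2 e s t) := by
    apply convexHull_min _ (M_convex _)
    intro x hx
    simp only [mem_insert_iff, mem_singleton_iff] at hx
    rcases hx with rfl | rfl | rfl
    · exact mid_mem _ _ _ (by rw [← g0f]; exact hmem _) (by rw [← g1f]; exact hmem _) n01
    · exact mid_mem _ _ _ (by rw [← g0f]; exact hmem _) (by rw [← g3f]; exact hmem _) n03
    · exact mid_mem _ _ _ (by rw [← g0f]; exact hmem _) (by rw [← g0t]; exact hmem _) n0e
  have hTψ : ∀ x ∈ convexHull ℝ {midpoint ℝ (o + s • d1) (o + t • d2),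
      midpoint ℝ (o + s • d1) (o - (1 - t) • d2), midpoint ℝ (o + s • d1) (o + s • d1 + e)},
      ψ x = ψ o - 1 / 2 := by
    have hconv : Convex ℝ {x : E | ψ x = ψ o - 1 / 2} := by
      intro x hx y hy a b ha hb hab
      change ψ (a • x + b • y) = ψ o - 1 / 2
      change ψ x = _ at hx
      change ψ y = _ at hy
      rw [map_add, map_smul, map_smul, hx, hy, smul_eq_mul, smul_eq_mul, ← add_mul, hab, one_mul]
    intro x hx
    refine convexHull_min ?_ hconv hx
    intro y hy
    simp only [mem_insert_iff, mem_singleton_iff] at hy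
    change ψ y = _
    have hss : s * (1 / s) = 1 := by field_simp
    rcases hy with rfl | rfl | rfl
    · rw [midpoint_eq_smul_add]
      simp only [map_add, map_smul, smul_eq_mul, p1, p2]
      norm_num
      rw [mul_inv_cancel₀ hs.ne']
      ring
    · rw [midpoint_eq_smul_add]
      simp only [map_add, map_sub, map_smul, smul_eq_mul, p1, p2]
      norm_num
      rw [mul_inv_cancel₀ hs.ne']
      ring
    · rw [midpoint_eq_smul_add]
      simp only [map_add, map_smul, smul_eq_mul, p1, p3]
      norm_num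
      rw [mul_inv_cancel₀ hs.ne']
      ring
  have hback : ∀ x ∈ M (V8 o d1 d2 e s t), ψ x = ψ o - 1 / 2 →
      x ∈ convexHull ℝ {midpoint ℝ (o + s • d1) (o + t • d2),
      midpoint ℝ (o + s • d1) (o - (1 - t) • d2), midpoint ℝ (o + s • d1) (o + s • d1 + e)} := by
    intro x hx hψx
    obtain ⟨a0, a0', a1, a1', a2, a2', a3, a3', q0, q0h, q0', q1, q1', q2, q2', q3, q3', hsum, rfl⟩ := hM x hx
    rw [hψ _ _ _ _ _ _ _ _ hsum] at hψx
    have w2 := mul_nonneg q2 h1s.le
    have w2' := mul_nonneg q2' h1s'.le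
    have r0 : a0 = 1 / 2 := by linarith
    have r1' : a1' = 0 := by linarith
    have r3' : a3' = 0 := by linarith
    have r2 : a2 = 0 := by
      have : a2 * (1 / s - 1) = 0 := by linarith
      rcases mul_eq_zero.mp this with hh | hh
      · exact hh
      · exact absurd hh h1s.ne'
    have r2' : a2' = 0 := by
      have : a2' * (1 / s) = 0 := by linarith
      rcases mul_eq_zero.mp this with hh | hh
      · exact hh
      · exact absurd hh h1s'.ne'
    subst r0 r1' r3' r2 r2'
    have hsum' : a1 + a3 + a0' = 1 / 2 := by linarith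
    rw [convexHull_insert (by simp), convexHull_pair]
    rw [mem_convexJoin]
    by_cases hz : a3 + a0' = 0
    · have z1 : a3 = 0 := by linarith
      have z2 : a0' = 0 := by linarith
      have z3 : a1 = 1 / 2 := by linarith
      refine ⟨_, mem_singleton _, _, left_mem_segment ℝ _ _, ?_⟩
      subst z1 z2 z3
      have : (1 / 2 : ℝ) • (o + s • d1) + (0:ℝ) • (o + s • d1 + e) + (1 / 2 : ℝ) • (o + t • d2) +
        (0:ℝ) • (o + t • d2 + e) + (0:ℝ) • (o - (1 - s) • d1) + (0:ℝ) • (o - (1 - s) • d1 + e) +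
        (0:ℝ) • (o - (1 - t) • d2) + (0:ℝ) • (o - (1 - t) • d2 + e) =
        midpoint ℝ (o + s • d1) (o + t • d2) := by
        rw [midpoint_eq_smul_add]
        simp only [zero_smul, add_zero, smul_add]
        norm_num
      rw [this]
      exact left_mem_segment ℝ _ _
    · have hpos : 0 < a3 + a0' := lt_of_le_of_ne (by linarith) (Ne.symm hz)
      refine ⟨_, mem_singleton _,
        (a3 / (a3 + a0')) • midpoint ℝ (o + s • d1) (o - (1 - t) • d2) +
        (a0' / (a3 + a0')) • midpoint ℝ (o + s • d1) (o + s • d1 + e),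
        ⟨_, _, by positivity, by positivity, by field_simp, rfl⟩, ?_⟩
      refine ⟨2 * a1, 2 * (a3 + a0'), by positivity, by positivity, by linarith, ?_⟩
      have u1 : 2 * (a3 + a0') * (a3 / (a3 + a0')) = 2 * a3 := by field_simp
      have u2 : 2 * (a3 + a0') * (a0' / (a3 + a0')) = 2 * a0' := by field_simp
      rw [smul_add, smul_smul, smul_smul, u1, u2]
      simp only [midpoint_eq_smul_add]
      have u3 : a1 = 1 / 2 - a3 - a0' := by linarith
      subst u3
      have u4 : (⅟2 : ℝ) = 1 / 2 := by norm_num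
      rw [u4]
      module
  refine ⟨hTM, ?_⟩
  intro x1 hx1 x2 hx2 x hx hseg
  obtain ⟨a, b, ha, hb, hab, rfl⟩ := hseg
  have k1 := hlow x1 hx1
  have k2 := hlow x2 hx2
  have k3 := hTψ _ hx
  rw [map_add, map_smul, map_smul, smul_eq_mul, smul_eq_mul] at k3
  have k4 : ψ x1 = ψ o - 1 / 2 := by
    by_contra hne
    have k5 : ψ o - 1 / 2 < ψ x1 := lt_of_le_of_ne k1 (Ne.symm hne)
    have k6 : a * (ψ o - 1 / 2) < a * ψ x1 := mul_lt_mul_of_pos_left k5 ha
    have k7 : b * (ψ o - 1 / 2) ≤ b * ψ x2 := mul_le_mul_of_nonneg_left k2 hb.le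
    have k8 : (a + b) * (ψ o - 1 / 2) = ψ o - 1 / 2 := by rw [hab, one_mul]
    nlinarith
  exact hback x1 hx1 k4


end X_qp_corner
alias qp_corner := X_qp_corner.qp_corner

namespace X_qp_aff

theorem qp_aff (o d1 d2 e : E) (s t : ℝ) (h : LinearIndependent ℝ ![d1, d2, e])
    (hs : 0 < s) (hs1 : s < 1) (ht : 0 < t) (ht1 : t < 1) :
    AffineIndependent ℝ ![midpoint ℝ (bp o d1 d2 s t 0) (bp o d1 d2 s t 1),
        midpoint ℝ (bp o d1 d2 s t 0) (bp o d1 d2 s t 3),
        midpoint ℝ (bp o d1 d2 s t 0) (bp o d1 d2 s t 0 + e)] := by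
  rw [affineIndependent_iff_of_fintype]
  intro w hw hv
  rw [Finset.weightedVSub_eq_linear_combination _ hw] at hv
  rw [Fin.sum_univ_three] at hw hv
  simp only [bp, midpoint_eq_smul_add, invOf_eq_inv, Matrix.cons_val_zero, Matrix.cons_val_one,
    Matrix.cons_val] at hv
  have hc : (s / 2 * w 0 + s / 2 * w 1 + s * w 2) • d1 +
      (t / 2 * w 0 - (1 - t) / 2 * w 1) • d2 + (w 2 / 2) • e = 0 := by
    have h0 : (w 0 + w 1 + w 2) • o = 0 := by rw [hw, zero_smul]
    rw [← sub_eq_zero.2 (hv.trans h0.symm)]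
    module
  have hli := Fintype.linearIndependent_iff.1 h
    ![s / 2 * w 0 + s / 2 * w 1 + s * w 2, t / 2 * w 0 - (1 - t) / 2 * w 1, w 2 / 2] (by
      rw [Fin.sum_univ_three]
      simpa using hc)
  have e0 : s / 2 * w 0 + s / 2 * w 1 + s * w 2 = 0 := hli 0
  have e1 : t / 2 * w 0 - (1 - t) / 2 * w 1 = 0 := hli 1
  have e2 : w 2 / 2 = 0 := hli 2
  have f2 : w 2 = 0 := by linarith
  have f1 : w 0 = -w 1 := by linarith
  have f3 : w 1 = 0 := by
    rw [f1] at e1
    linarith
  intro i
  fin_cases i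
  · show w 0 = 0
    linarith
  · exact f3
  · exact f2


end X_qp_aff
alias qp_aff := X_qp_aff.qp_aff

namespace X_V8_flip1

theorem V8_flip1 (o d1 d2 e : E) (s t : ℝ) : V8 o (-d1) d2 e (1 - s) t = V8 o d1 d2 e s t := by
  have h : ∀ i, bp o (-d1) d2 (1 - s) t i = bp o d1 d2 s t ((![2, 1, 0, 3] : Fin 4 → Fin 4) i) := by
    intro i
    fin_cases i
    · simp only [bp]
      simp
      abel
    · simp only [bp]
      simp
    · simp only [bp]
      simp
    · simp only [bp]
      simp
  have h2 : ∀ i : Fin 4, (![2, 1, 0, 3] : Fin 4 → Fin 4) ((![2, 1, 0, 3] : Fin 4 → Fin 4) i) = i := by decide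
  unfold V8
  ext x
  simp only [Finset.mem_image, Finset.mem_univ, true_and]
  constructor
  · rintro ⟨q, rfl⟩
    exact ⟨((![2, 1, 0, 3] : Fin 4 → Fin 4) q.1, q.2), by rw [h]⟩
  · rintro ⟨q, rfl⟩
    exact ⟨((![2, 1, 0, 3] : Fin 4 → Fin 4) q.1, q.2), by rw [h, h2]⟩


end X_V8_flip1
alias V8_flip1 := X_V8_flip1.V8_flip1

namespace X_V8_swap

theorem bp_swap (o d1 d2 : E) (s t : ℝ) (i : Fin 4) :
    bp o d2 d1 t s i = bp o d1 d2 s t ((![1, 0, 3, 2] : Fin 4 → Fin 4) i) := by
  fin_cases i <;> rfl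

theorem V8_swap_sub (o d1 d2 e : E) (s t : ℝ) : V8 o d2 d1 e t s ⊆ V8 o d1 d2 e s t := by
  intro x hx
  unfold V8 at hx ⊢
  rw [Finset.mem_image] at hx ⊢
  obtain ⟨q, _, rfl⟩ := hx
  exact ⟨((![1, 0, 3, 2] : Fin 4 → Fin 4) q.1, q.2), Finset.mem_univ _, by rw [bp_swap o d1 d2 s t]⟩

theorem V8_swap (o d1 d2 e : E) (s t : ℝ) : V8 o d2 d1 e t s = V8 o d1 d2 e s t :=
  Finset.Subset.antisymm (V8_swap_sub o d1 d2 e s t) (V8_swap_sub o d2 d1 e t s)


end X_V8_swap
alias V8_swap := X_V8_swap.V8_swap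

namespace X_V8_up

theorem V8_up (o d1 d2 e : E) (s t : ℝ) : V8 (o + e) d1 d2 (-e) s t = V8 o d1 d2 e s t := by
  have hbp : ∀ i : Fin 4, bp (o + e) d1 d2 s t i = bp o d1 d2 s t i + e := by
    intro i
    fin_cases i <;> simp [bp] <;> abel
  unfold V8
  ext x
  simp only [Finset.mem_image, Finset.mem_univ, true_and]
  constructor
  · rintro ⟨⟨i, b⟩, rfl⟩
    refine ⟨(i, !b), ?_⟩
    simp only [hbp]
    cases b <;> simp
  · rintro ⟨⟨i, b⟩, rfl⟩
    refine ⟨(i, !b), ?_⟩
    simp only [hbp]
    cases b <;> simp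


end X_V8_up
alias V8_up := X_V8_up.V8_up

namespace X_quad_center

theorem hull3 {x b c d : E} (h : x ∈ convexHull ℝ ({b, c, d} : Set E)) :
    ∃ β γ δ : ℝ, 0 ≤ β ∧ 0 ≤ γ ∧ 0 ≤ δ ∧ β + γ + δ = 1 ∧ β • b + γ • c + δ • d = x := by
  rw [convexHull_insert (by simp), mem_convexJoin] at h
  obtain ⟨b', hb', y, hy, hx⟩ := h
  rw [mem_singleton_iff] at hb'
  subst hb'
  rw [convexHull_pair] at hy
  obtain ⟨p, q, hp, hq, hpq, rfl⟩ := hy
  obtain ⟨r, u, hr, hu, hru, rfl⟩ := hx
  refine ⟨r, u * p, u * q, hr, mul_nonneg hu hp, mul_nonneg hu hq, ?_, ?_⟩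
  · rw [add_assoc, ← mul_add, hpq, mul_one, hru]
  · module

theorem para_mem (e u v : E) (α β : ℝ) (h0 : 0 ≤ α) (h1 : α ≤ 1) (g0 : 0 ≤ β) (g1 : β ≤ 1) :
    e + α • u + β • v ∈ convexHull ℝ ({e, e + u, e + v, e + u + v} : Set E) := by
  have hc : Convex ℝ (convexHull ℝ ({e, e + u, e + v, e + u + v} : Set E)) := convex_convexHull ℝ _
  have m1 : e ∈ convexHull ℝ ({e, e + u, e + v, e + u + v} : Set E) :=
    subset_convexHull ℝ _ (by simp)
  have m2 : e + u ∈ convexHull ℝ ({e, e + u, e + v, e + u + v} : Set E) :=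
    subset_convexHull ℝ _ (by simp)
  have m3 : e + v ∈ convexHull ℝ ({e, e + u, e + v, e + u + v} : Set E) :=
    subset_convexHull ℝ _ (by simp)
  have m4 : e + u + v ∈ convexHull ℝ ({e, e + u, e + v, e + u + v} : Set E) :=
    subset_convexHull ℝ _ (by simp)
  have k1 := hc m1 m2 (by linarith : (0 : ℝ) ≤ 1 - α) h0 (by ring)
  have k2 := hc m3 m4 (by linarith : (0 : ℝ) ≤ 1 - α) h0 (by ring)
  have k3 := hc k1 k2 (by linarith : (0 : ℝ) ≤ 1 - β) g0 (by ring)
  convert k3 using 1
  module

theorem quad_center (a b c d : E) (s t : ℝ) (hs : 0 < s) (hs1 : s < 1) (ht : 0 < t) (ht1 : t < 1)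
    (hx : (1 - s) • a + s • c = (1 - t) • b + t • d) (h : LinearIndependent ℝ ![c - a, d - b])
    (k : ℕ) : (1 / 4 : ℝ) • (a + b + c + d) ∈ seq (convexHull ℝ {a, b, c, d}) k := by
  classical
  obtain ⟨p, hp⟩ : ∃ p, p = c - a := ⟨_, rfl⟩
  obtain ⟨q, hq⟩ : ∃ q, q = d - b := ⟨_, rfl⟩
  rw [← hp, ← hq] at h
  have hc : c = a + p := by rw [hp]; abel
  have hd' : d = b + q := by rw [hq]; abel
  have hb : b = a + s • p - t • q := by
    have : (1 - s) • a + s • (a + p) = (1 - t) • b + t • (b + q) := by rw [← hc, ← hd']; exact hx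
    have h2 : a + s • p = b + t • q := by
      calc a + s • p = (1 - s) • a + s • (a + p) := by module
        _ = (1 - t) • b + t • (b + q) := this
        _ = b + t • q := by module
    rw [h2]; abel
  have hd : d = a + s • p + (1 - t) • q := by rw [hd', hb]; module
  rw [LinearIndependent.pair_iff] at h
  have hsub : ∀ k, seq (convexHull ℝ {a, b, c, d}) (k + 1) =
      seq (next (convexHull ℝ {a, b, c, d})) k := by
    intro k
    induction k with
    | zero => rfl
    | succ k ih =>
      show next (seq (convexHull ℝ {a, b, c, d}) (k + 1)) = _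
      rw [ih]
      rfl
  cases k with
  | zero =>
    show (1 / 4 : ℝ) • (a + b + c + d) ∈ convexHull ℝ {a, b, c, d}
    have hcv : Convex ℝ (convexHull ℝ ({a, b, c, d} : Set E)) := convex_convexHull ℝ _
    have m1 : a ∈ convexHull ℝ ({a, b, c, d} : Set E) := subset_convexHull ℝ _ (by simp)
    have m2 : b ∈ convexHull ℝ ({a, b, c, d} : Set E) := subset_convexHull ℝ _ (by simp)
    have m3 : c ∈ convexHull ℝ ({a, b, c, d} : Set E) := subset_convexHull ℝ _ (by simp)
    have m4 : d ∈ convexHull ℝ ({a, b, c, d} : Set E) := subset_convexHull ℝ _ (by simp)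
    have k1 := hcv m1 m2 (by norm_num : (0 : ℝ) ≤ 1 / 2) (by norm_num : (0 : ℝ) ≤ 1 / 2)
      (by norm_num)
    have k2 := hcv m3 m4 (by norm_num : (0 : ℝ) ≤ 1 / 2) (by norm_num : (0 : ℝ) ≤ 1 / 2)
      (by norm_num)
    have k3 := hcv k1 k2 (by norm_num : (0 : ℝ) ≤ 1 / 2) (by norm_num : (0 : ℝ) ≤ 1 / 2)
      (by norm_num)
    convert k3 using 1
    module
  | succ k =>
    rw [hsub]
    -- convex position
    have hCP : CP ({a, b, c, d} : Finset E) := by
      intro v hv hmem
      have hv' : v = a ∨ v = b ∨ v = c ∨ v = d := by simpa using hv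
      rcases hv' with rfl | rfl | rfl | rfl
      · have hm := convexHull_mono (s := ((({v, b, c, d} : Finset E).erase v : Finset E) : Set E))
          (t := ({b, c, d} : Set E)) (by
            intro y hy
            simp only [Finset.coe_erase, Finset.coe_insert, Finset.coe_singleton, mem_sdiff,
              mem_insert_iff, mem_singleton_iff] at hy ⊢
            tauto) hmem
        obtain ⟨β, γ, δ, h1, h2, h3, h4, h5⟩ := hull3 hm
        have e : (β * s + γ + δ * s) • p + (-(β * t) + δ * (1 - t)) • q = 0 := by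
          have : β • b + γ • c + δ • d - (β + γ + δ) • v = 0 := by rw [h5, h4]; module
          rw [← this, hb, hc, hd]
          module
        obtain ⟨e1, -⟩ := h _ _ e
        have z1 : 0 ≤ β * s := mul_nonneg h1 hs.le
        have z3 : 0 ≤ δ * s := mul_nonneg h3 hs.le
        have g0 : γ = 0 := by linarith
        have g1 : β * s = 0 := by linarith
        have g2 : δ * s = 0 := by linarith
        have g1' : β = 0 := by
          rcases mul_eq_zero.mp g1 with h | h
          · exact h
          · exact absurd h hs.ne'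
        have g2' : δ = 0 := by
          rcases mul_eq_zero.mp g2 with h | h
          · exact h
          · exact absurd h hs.ne'
        linarith
      · have hm := convexHull_mono (s := ((({a, v, c, d} : Finset E).erase v : Finset E) : Set E))
          (t := ({a, c, d} : Set E)) (by
            intro y hy
            simp only [Finset.coe_erase, Finset.coe_insert, Finset.coe_singleton, mem_sdiff,
              mem_insert_iff, mem_singleton_iff] at hy ⊢
            tauto) hmem
        obtain ⟨α, γ, δ, h1, h2, h3, h4, h5⟩ := hull3 hm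
        have e : (γ + δ * s - s) • p + (δ * (1 - t) + t) • q = 0 := by
          have : α • a + γ • c + δ • d - v = 0 := by rw [h5]; module
          have h6 : α = 1 - γ - δ := by linarith
          rw [← this, hb, hc, hd, h6]
          module
        obtain ⟨-, e1⟩ := h _ _ e
        have z3 : 0 ≤ δ * (1 - t) := mul_nonneg h3 (by linarith)
        linarith
      · have hm := convexHull_mono (s := ((({a, b, v, d} : Finset E).erase v : Finset E) : Set E))
          (t := ({a, b, d} : Set E)) (by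
            intro y hy
            simp only [Finset.coe_erase, Finset.coe_insert, Finset.coe_singleton, mem_sdiff,
              mem_insert_iff, mem_singleton_iff] at hy ⊢
            tauto) hmem
        obtain ⟨α, β, δ, h1, h2, h3, h4, h5⟩ := hull3 hm
        have e : (β * s + δ * s - 1) • p + (-(β * t) + δ * (1 - t)) • q = 0 := by
          have : α • a + β • b + δ • d - v = 0 := by rw [h5]; module
          have h6 : α = 1 - β - δ := by linarith
          rw [← this, hb, hc, hd, h6]
          module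
        obtain ⟨e1, -⟩ := h _ _ e
        have z3 : (β + δ) * s ≤ 1 * s := mul_le_mul_of_nonneg_right (by linarith) hs.le
        linarith
      · have hm := convexHull_mono (s := ((({a, b, c, v} : Finset E).erase v : Finset E) : Set E))
          (t := ({a, b, c} : Set E)) (by
            intro y hy
            simp only [Finset.coe_erase, Finset.coe_insert, Finset.coe_singleton, mem_sdiff,
              mem_insert_iff, mem_singleton_iff] at hy ⊢
            tauto) hmem
        obtain ⟨α, β, γ, h1, h2, h3, h4, h5⟩ := hull3 hm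
        have e : (β * s + γ - s) • p + (-(β * t) - (1 - t)) • q = 0 := by
          have : α • a + β • b + γ • c - v = 0 := by rw [h5]; module
          have h6 : α = 1 - β - γ := by linarith
          rw [← this, hb, hc, hd, h6]
          module
        obtain ⟨-, e1⟩ := h _ _ e
        have z3 : 0 ≤ β * t := mul_nonneg h2 ht.le
        linarith
    have hcoe : ((({a, b, c, d} : Finset E) : Finset E) : Set E) = {a, b, c, d} := by simp
    have hn := next_eq ({a, b, c, d} : Finset E) hCP
    rw [M_hull, hcoe] at hn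
    have hpar : next (convexHull ℝ {a, b, c, d}) = convexHull ℝ
        {midpoint ℝ a b, midpoint ℝ a b + (1 / 2 : ℝ) • p, midpoint ℝ a b + (1 / 2 : ℝ) • q,
          midpoint ℝ a b + (1 / 2 : ℝ) • p + (1 / 2 : ℝ) • q} := by
      rw [hn]
      have hmid : ∀ x y : E, midpoint ℝ x y = (1 / 2 : ℝ) • x + (1 / 2 : ℝ) • y := by
        intro x y
        rw [midpoint_eq_smul_add, invOf_eq_inv]
        module
      have hne : ∀ x y : E, x ∈ ({a, b, c, d} : Finset E) → y ∈ ({a, b, c, d} : Finset E) →
          x ≠ y → midpoint ℝ x y ∈ {m : E | ∃ v ∈ ({a, b, c, d} : Finset E),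
            ∃ w ∈ ({a, b, c, d} : Finset E), v ≠ w ∧ m = midpoint ℝ v w} := by
        intro x y hx hy hxy
        exact ⟨x, hx, y, hy, hxy, rfl⟩
      -- the six midpoints
      have key : ∀ α β : ℝ, 0 ≤ α → α ≤ 1 → 0 ≤ β → β ≤ 1 → ∀ m : E,
          m = midpoint ℝ a b + α • ((1 / 2 : ℝ) • p) + β • ((1 / 2 : ℝ) • q) →
          m ∈ convexHull ℝ ({midpoint ℝ a b, midpoint ℝ a b + (1 / 2 : ℝ) • p,
            midpoint ℝ a b + (1 / 2 : ℝ) • q,
            midpoint ℝ a b + (1 / 2 : ℝ) • p + (1 / 2 : ℝ) • q} : Set E) := by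
        intro α β h0 h1 g0 g1 m hm
        rw [hm]
        exact para_mem _ _ _ α β h0 h1 g0 g1
      have kab := key 0 0 le_rfl zero_le_one le_rfl zero_le_one (midpoint ℝ a b) (by module)
      have kbc := key 1 0 zero_le_one le_rfl le_rfl zero_le_one (midpoint ℝ b c)
        (by rw [hmid, hmid, hb, hc]; module)
      have kda := key 0 1 le_rfl zero_le_one zero_le_one le_rfl (midpoint ℝ a d)
        (by rw [hmid, hmid, hb, hd]; module)
      have kcd := key 1 1 zero_le_one le_rfl zero_le_one le_rfl (midpoint ℝ c d)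
        (by rw [hmid, hmid, hb, hc, hd]; module)
      have kac := key (1 - s) t (by linarith) (by linarith) ht.le ht1.le (midpoint ℝ a c)
        (by rw [hmid, hmid, hb, hc]; module)
      have kbd := key s (1 - t) hs.le hs1.le (by linarith) (by linarith) (midpoint ℝ b d)
        (by rw [hmid, hmid, hb, hd]; module)
      have lba := key 0 0 le_rfl zero_le_one le_rfl zero_le_one (midpoint ℝ b a)
        (by rw [hmid, hmid]; module)
      have lcb := key 1 0 zero_le_one le_rfl le_rfl zero_le_one (midpoint ℝ c b)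
        (by rw [hmid, hmid, hb, hc]; module)
      have lda := key 0 1 le_rfl zero_le_one zero_le_one le_rfl (midpoint ℝ d a)
        (by rw [hmid, hmid, hb, hd]; module)
      have ldc := key 1 1 zero_le_one le_rfl zero_le_one le_rfl (midpoint ℝ d c)
        (by rw [hmid, hmid, hb, hc, hd]; module)
      have lca := key (1 - s) t (by linarith) (by linarith) ht.le ht1.le (midpoint ℝ c a)
        (by rw [hmid, hmid, hb, hc]; module)
      have ldb := key s (1 - t) hs.le hs1.le (by linarith) (by linarith) (midpoint ℝ d b)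
        (by rw [hmid, hmid, hb, hd]; module)
      apply Subset.antisymm
      · apply convexHull_min _ (convex_convexHull ℝ _)
        rintro m ⟨v, hv, w, hw, hvw, rfl⟩
        simp only [Finset.mem_insert, Finset.mem_singleton] at hv hw
        rcases hv with rfl | rfl | rfl | rfl <;> rcases hw with rfl | rfl | rfl | rfl <;>
          first
          | exact absurd rfl hvw
          | assumption
      · have hp0 : p ≠ 0 := by
          intro h0
          have := h 1 0 (by rw [h0]; simp)
          exact one_ne_zero this.1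
        have hq0 : q ≠ 0 := by
          intro h0
          have := h 0 1 (by rw [h0]; simp)
          exact one_ne_zero this.2
        have nab : a ≠ b := by
          intro hh
          have e : s • p + (-t) • q = 0 := by
            have : b - a = 0 := by rw [hh]; simp
            rw [← this, hb]; module
          exact hs.ne' (h _ _ e).1
        have nbc : b ≠ c := by
          intro hh
          have e : (s - 1) • p + (-t) • q = 0 := by
            have : b - c = 0 := by rw [hh]; simp
            rw [← this, hb, hc]; module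
          have := (h _ _ e).1
          linarith
        have nad : a ≠ d := by
          intro hh
          have e : s • p + (1 - t) • q = 0 := by
            have : d - a = 0 := by rw [hh]; simp
            rw [← this, hd]; module
          exact hs.ne' (h _ _ e).1
        have ncd : c ≠ d := by
          intro hh
          have e : (s - 1) • p + (1 - t) • q = 0 := by
            have : d - c = 0 := by rw [hh]; simp
            rw [← this, hc, hd]; module
          have := (h _ _ e).1
          linarith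
        have jab := hne a b (by simp) (by simp) nab
        have jbc := hne b c (by simp) (by simp) nbc
        have jad := hne a d (by simp) (by simp) nad
        have jcd := hne c d (by simp) (by simp) ncd
        apply convexHull_mono
        intro m hm
        simp only [mem_insert_iff, mem_singleton_iff] at hm
        rcases hm with rfl | rfl | rfl | rfl
        · exact jab
        · have : midpoint ℝ a b + (1 / 2 : ℝ) • p = midpoint ℝ b c := by
            rw [hmid, hmid, hb, hc]; module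
          rw [this]; exact jbc
        · have : midpoint ℝ a b + (1 / 2 : ℝ) • q = midpoint ℝ a d := by
            rw [hmid, hmid, hb, hd]; module
          rw [this]; exact jad
        · have : midpoint ℝ a b + (1 / 2 : ℝ) • p + (1 / 2 : ℝ) • q = midpoint ℝ c d := by
            rw [hmid, hmid, hb, hc, hd]; module
          rw [this]; exact jcd
    rw [hpar]
    have hli : LinearIndependent ℝ ![(1 / 2 : ℝ) • p, (1 / 2 : ℝ) • q] := by
      rw [LinearIndependent.pair_iff]
      intro x y hxy
      have e : (x / 2) • p + (y / 2) • q = 0 := by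
        rw [← hxy]; module
      obtain ⟨e1, e2⟩ := h _ _ e
      constructor <;> linarith
    have hfin := para_center (midpoint ℝ a b) _ _ hli k
    convert hfin using 1
    rw [midpoint_eq_smul_add, invOf_eq_inv, hp, hq]
    module


end X_quad_center
alias quad_center := X_quad_center.quad_center

namespace X_qp_volume


/-- the prism in coordinates -/
def CC (s t : ℝ) : Set (Fin 3 → ℝ) :=
  {x | (t * x 0 + s * x 1 ≤ s * t ∧ -(t * x 0) + (1 - s) * x 1 ≤ (1 - s) * t ∧
    (1 - t) * x 0 - s * x 1 ≤ s * (1 - t) ∧ -((1 - t) * x 0) - (1 - s) * x 1 ≤ (1 - s) * (1 - t)) ∧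
    0 ≤ x 2 ∧ x 2 ≤ 1}

theorem CC_y {s t : ℝ} (hs : 0 ≤ s) (hs1 : s ≤ 1) (ht : 0 ≤ t) (ht1 : t ≤ 1) {x y : ℝ}
    (h1 : t * x + s * y ≤ s * t) (h2 : -(t * x) + (1 - s) * y ≤ (1 - s) * t)
    (h3 : (1 - t) * x - s * y ≤ s * (1 - t)) (h4 : -((1 - t) * x) - (1 - s) * y ≤ (1 - s) * (1 - t)) :
    y ≤ t ∧ t - 1 ≤ y ∧ x ≤ s ∧ s - 1 ≤ x := by
  refine ⟨by nlinarith, by nlinarith, by nlinarith, by nlinarith⟩

theorem CC_closed (s t : ℝ) : IsClosed (CC s t) := by
  unfold CC
  simp only [setOf_and]
  refine IsClosed.inter (IsClosed.inter ?_ (IsClosed.inter ?_ (IsClosed.inter ?_ ?_))) (IsClosed.inter ?_ ?_)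
  all_goals exact isClosed_le (by fun_prop) (by fun_prop)

theorem CC_compact {s t : ℝ} (hs : 0 ≤ s) (hs1 : s ≤ 1) (ht : 0 ≤ t) (ht1 : t ≤ 1) :
    IsCompact (CC s t) := by
  apply IsCompact.of_isClosed_subset (isCompact_Icc (a := ![s - 1, t - 1, 0]) (b := ![s, t, 1])) (CC_closed s t)
  rintro x ⟨⟨h1, h2, h3, h4⟩, h5, h6⟩
  obtain ⟨a1, a2, a3, a4⟩ := CC_y hs hs1 ht ht1 h1 h2 h3 h4
  rw [mem_Icc, Pi.le_def, Pi.le_def]
  constructor
  · intro i; fin_cases i
    · simpa using a4
    · simpa using a2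
    · simpa using h5
  · intro i; fin_cases i
    · simpa using a3
    · simpa using a1
    · simpa using h6

theorem le_one_aux {a b α β : ℝ} (ha : 0 ≤ a) (hb : 0 ≤ b) (hα : 0 ≤ α) (hβ : 0 ≤ β)
    (h : a * b * (α + β) ≤ a * b) (h1 : α * a ≤ a) (h2 : β * b ≤ b) (ha0 : a = 0 → α = 0)
    (hb0 : b = 0 → β = 0) : α + β ≤ 1 := by
  rcases ha.eq_or_lt with h' | h'
  · rw [ha0 h'.symm, zero_add]
    rcases hb.eq_or_lt with h'' | h''
    · rw [hb0 h''.symm]; norm_num
    · nlinarith
  · rcases hb.eq_or_lt with h'' | h''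
    · rw [hb0 h''.symm, add_zero]
      nlinarith
    · have : 0 < a * b := mul_pos h' h''
      nlinarith

/-- the planar quadrilateral -/
def KK (s t : ℝ) : Set (ℝ × ℝ) :=
  {x | t * x.1 + s * x.2 ≤ s * t ∧ -(t * x.1) + (1 - s) * x.2 ≤ (1 - s) * t ∧
    (1 - t) * x.1 - s * x.2 ≤ s * (1 - t) ∧ -((1 - t) * x.1) - (1 - s) * x.2 ≤ (1 - s) * (1 - t)}

theorem KK_meas (s t : ℝ) : MeasurableSet (KK s t) := by
  apply IsClosed.measurableSet
  unfold KK
  simp only [setOf_and]
  refine IsClosed.inter ?_ (IsClosed.inter ?_ (IsClosed.inter ?_ ?_))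
  all_goals exact isClosed_le (by fun_prop) (by fun_prop)

theorem tri_int {t : ℝ} (ht : 0 ≤ t) :
    ∫⁻ y in Ioo 0 t, ENNReal.ofReal (1 - y / t) = ENNReal.ofReal (t / 2) := by
  rcases ht.eq_or_lt with h | h
  · rw [← h]; simp
  rw [← ofReal_integral_eq_lintegral_ofReal]
  · congr 1
    rw [← integral_Ioc_eq_integral_Ioo, ← intervalIntegral.integral_of_le ht]
    rw [intervalIntegral.integral_sub (by simp) (by apply Continuous.intervalIntegrable; fun_prop)]
    simp only [intervalIntegral.integral_const, intervalIntegral.integral_div, integral_id]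
    field_simp
    simp
    ring
  · apply IntegrableOn.mono_set (t := Icc 0 t) _ Ioo_subset_Icc_self
    apply Continuous.integrableOn_Icc
    fun_prop
  · rw [Filter.EventuallyLE, ae_restrict_iff' measurableSet_Ioo]
    filter_upwards with y hy
    simp only [Pi.zero_apply, sub_nonneg]
    rw [div_le_one h]; exact hy.2.le

theorem KK_sec {s t : ℝ} (hs : 0 ≤ s) (hs1 : s ≤ 1) (ht : 0 ≤ t) (ht1 : t ≤ 1) (y : ℝ) (h0 : y ≠ 0)
    (hyt : y ≠ t) (hyt1 : y ≠ t - 1) :
    volume ((fun x => (x, y)) ⁻¹' KK s t) =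
      (Ioo 0 t).indicator (fun y => ENNReal.ofReal (1 - y / t)) y +
      (Ioo 0 (1 - t)).indicator (fun y => ENNReal.ofReal (1 - y / (1 - t))) (-y) := by
  by_cases c1 : y ∈ Ioo 0 t
  · have ht0 : 0 < t := by linarith [c1.1, c1.2]
    have c2 : -y ∉ Ioo 0 (1 - t) := fun h => by linarith [h.1, c1.1]
    rw [indicator_of_mem c1, indicator_of_notMem c2, add_zero]
    have : ((fun x => (x, y)) ⁻¹' KK s t) = Icc (-(1 - s) * (1 - y / t)) (s * (1 - y / t)) := by
      ext x
      simp only [KK, mem_preimage, mem_setOf_eq, mem_Icc]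
      have e1 : s * (1 - y / t) = (s * (t - y)) / t := by field_simp
      have e2 : -(1 - s) * (1 - y / t) = (-(1 - s) * (t - y)) / t := by field_simp
      rw [e1, e2, div_le_iff₀ ht0, le_div_iff₀ ht0]
      constructor
      · rintro ⟨a1, a2, a3, a4⟩
        constructor <;> nlinarith
      · rintro ⟨a1, a2⟩
        have y0 := c1.1
        have k1 : x ≤ s := by
          have : x * t ≤ s * t := by nlinarith
          exact le_of_mul_le_mul_right this ht0
        have k2 : -(1 - s) ≤ x := by
          have : -(1 - s) * t ≤ x * t := by nlinarith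
          exact le_of_mul_le_mul_right this ht0
        refine ⟨by nlinarith, by nlinarith, ?_, ?_⟩
        · have := mul_le_mul_of_nonneg_left k1 (by linarith : (0:ℝ) ≤ 1 - t)
          have := mul_nonneg hs y0.le
          nlinarith
        · have := mul_le_mul_of_nonneg_left k2 (by linarith : (0:ℝ) ≤ 1 - t)
          have := mul_nonneg (by linarith : (0:ℝ) ≤ 1 - s) y0.le
          nlinarith
    rw [this, Real.volume_Icc]
    congr 1; ring
  · by_cases c2 : -y ∈ Ioo 0 (1 - t)
    · have ht0 : 0 < 1 - t := by linarith [c2.1, c2.2]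
      rw [indicator_of_notMem c1, indicator_of_mem c2, zero_add]
      have : ((fun x => (x, y)) ⁻¹' KK s t) =
          Icc (-(1 - s) * (1 - (-y) / (1 - t))) (s * (1 - (-y) / (1 - t))) := by
        ext x
        simp only [KK, mem_preimage, mem_setOf_eq, mem_Icc]
        have e1 : s * (1 - (-y) / (1 - t)) = (s * ((1 - t) + y)) / (1 - t) := by field_simp; ring
        have e2 : -(1 - s) * (1 - (-y) / (1 - t)) = (-(1 - s) * ((1 - t) + y)) / (1 - t) := by
          field_simp; ring
        rw [e1, e2, div_le_iff₀ ht0, le_div_iff₀ ht0]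
        have y0 := c2.1
        constructor
        · rintro ⟨a1, a2, a3, a4⟩
          constructor <;> nlinarith
        · rintro ⟨a1, a2⟩
          have k1 : x ≤ s := by
            have : x * (1 - t) ≤ s * (1 - t) := by nlinarith
            exact le_of_mul_le_mul_right this ht0
          have k2 : -(1 - s) ≤ x := by
            have : -(1 - s) * (1 - t) ≤ x * (1 - t) := by nlinarith
            exact le_of_mul_le_mul_right this ht0
          refine ⟨?_, ?_, by nlinarith, by nlinarith⟩
          · have := mul_le_mul_of_nonneg_left k1 ht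
            have := mul_nonneg hs y0.le
            nlinarith
          · have := mul_le_mul_of_nonneg_left k2 ht
            have := mul_nonneg (by linarith : (0:ℝ) ≤ 1 - s) y0.le
            nlinarith
      rw [this, Real.volume_Icc]
      congr 1; ring
    · rw [indicator_of_notMem c1, indicator_of_notMem c2, zero_add]
      have : ((fun x => (x, y)) ⁻¹' KK s t) = ∅ := by
        rw [eq_empty_iff_forall_notMem]
        rintro x ⟨a1, a2, a3, a4⟩
        simp only at a1 a2 a3 a4
        obtain ⟨b1, b2, -, -⟩ := CC_y hs hs1 ht ht1 a1 a2 a3 a4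
        rcases lt_or_gt_of_ne h0 with h | h
        · exact c2 ⟨by linarith, by
            rcases b2.eq_or_lt with h' | h'
            · exact absurd h'.symm hyt1
            · linarith⟩
        · exact c1 ⟨h, lt_of_le_of_ne b1 hyt⟩
      rw [this, measure_empty]

theorem KK_int {s t : ℝ} (hs : 0 ≤ s) (hs1 : s ≤ 1) (ht : 0 ≤ t) (ht1 : t ≤ 1) :
    ∫⁻ y, volume ((fun x => (x, y)) ⁻¹' KK s t) = ENNReal.ofReal (1 / 2) := by
  have hae : ∀ᵐ y : ℝ, volume ((fun x => (x, y)) ⁻¹' KK s t) =
      (Ioo 0 t).indicator (fun y => ENNReal.ofReal (1 - y / t)) y +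
      (Ioo 0 (1 - t)).indicator (fun y => ENNReal.ofReal (1 - y / (1 - t))) (-y) := by
    have hfin : ({0, t, t - 1} : Set ℝ).Finite := by simp
    filter_upwards [hfin.measure_zero volume |> compl_mem_ae_iff.2] with y hy
    simp only [mem_compl_iff, mem_insert_iff, mem_singleton_iff, not_or] at hy
    exact KK_sec hs hs1 ht ht1 y hy.1 hy.2.1 hy.2.2
  rw [lintegral_congr_ae hae, lintegral_add_left, lintegral_indicator measurableSet_Ioo]
  · have e := lintegral_neg_eq_self (μ := (volume : Measure ℝ))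
      (fun y => (Ioo 0 (1 - t)).indicator (fun y => ENNReal.ofReal (1 - y / (1 - t))) y)
    rw [e, lintegral_indicator measurableSet_Ioo, tri_int ht, tri_int (by linarith),
      ← ENNReal.ofReal_add (by linarith) (by linarith)]
    congr 1; ring
  · apply Measurable.indicator _ measurableSet_Ioo
    fun_prop

theorem CC_volume {s t : ℝ} (hs : 0 ≤ s) (hs1 : s ≤ 1) (ht : 0 ≤ t) (ht1 : t ≤ 1) :
    2 * volume (CC s t) = 1 := by
  have hm : MeasurableSet (CC s t) := (CC_closed s t).measurableSet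
  have hp := (volume_preserving_piFinSuccAbove (fun _ : Fin 3 => ℝ) 0).symm
  have h1 : volume (CC s t) = ∫⁻ w : Fin 2 → ℝ, volume ((fun x => (x, w 0)) ⁻¹' KK s t) *
      (Icc (0 : ℝ) 1).indicator 1 (w 1) := by
    rw [← hp.measure_preimage_equiv (CC s t), Measure.volume_eq_prod, Measure.prod_apply_symm (hp.measurable hm)]
    apply lintegral_congr
    intro w
    have hsym : ∀ x : ℝ, (MeasurableEquiv.piFinSuccAbove (fun _ : Fin 3 => ℝ) 0).symm (x, w) =
        ![x, w 0, w 1] := by
      intro x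
      funext i
      fin_cases i <;> rfl
    have hmem : ∀ x : ℝ, (MeasurableEquiv.piFinSuccAbove (fun _ : Fin 3 => ℝ) 0).symm (x, w) ∈ CC s t ↔
        (x, w 0) ∈ KK s t ∧ w 1 ∈ Icc (0 : ℝ) 1 := by
      intro x
      rw [hsym]
      rfl
    by_cases hw : w 1 ∈ Icc (0 : ℝ) 1
    · rw [indicator_of_mem hw, Pi.one_apply, mul_one]
      congr 1
      ext x
      rw [mem_preimage, mem_preimage, mem_preimage, hmem]
      exact ⟨fun h => h.1, fun h => ⟨h, hw⟩⟩
    · rw [indicator_of_notMem hw, mul_zero]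
      have : ((fun x => (x, w)) ⁻¹' ((MeasurableEquiv.piFinSuccAbove (fun _ : Fin 3 => ℝ) 0).symm ⁻¹' CC s t)) = ∅ := by
        rw [eq_empty_iff_forall_notMem]
        intro x hx
        rw [mem_preimage, mem_preimage, hmem] at hx
        exact hw hx.2
      rw [this, measure_empty]
  have h2 : ∫⁻ w : Fin 2 → ℝ, volume ((fun x => (x, w 0)) ⁻¹' KK s t) *
      (Icc (0 : ℝ) 1).indicator 1 (w 1) = (∫⁻ y, volume ((fun x => (x, y)) ⁻¹' KK s t)) *
        ∫⁻ z, (Icc (0 : ℝ) 1).indicator 1 z := by
    rw [← lintegral_prod_mul, ← Measure.volume_eq_prod, ← (volume_preserving_finTwoArrow ℝ).lintegral_comp_emb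
      (MeasurableEquiv.measurableEmbedding _)]
    · rfl
    · exact (measurable_measure_prodMk_right (KK_meas s t)).aemeasurable
    · exact (measurable_one.indicator measurableSet_Icc).aemeasurable
  rw [h1, h2, KK_int hs hs1 ht ht1, lintegral_indicator_one measurableSet_Icc, Real.volume_Icc]
  rw [sub_zero, ENNReal.ofReal_one, mul_one]
  rw [show (2 : ENNReal) = ENNReal.ofReal 2 by simp, ← ENNReal.ofReal_mul (by norm_num)]
  norm_num

theorem vol_key (o : E) (v : Fin 3 → E) : ∃ c : ENNReal, ∀ A : Set (Fin 3 → ℝ), IsCompact A →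
    volume ((fun t : Fin 3 → ℝ => o + ∑ i, t i • v i) '' A) = c * volume A := by
  let L : (Fin 3 → ℝ) →ₗ[ℝ] (Fin 3 → ℝ) :=
    { toFun := fun x => WithLp.ofLp (∑ i, x i • v i)
      map_add' := by
        intro x y
        simp only [Pi.add_apply, add_smul, Finset.sum_add_distrib, WithLp.ofLp_add]
      map_smul' := by
        intro r x
        simp only [Pi.smul_apply, smul_eq_mul, mul_smul, ← Finset.smul_sum, WithLp.ofLp_smul, RingHom.id_apply] }
  refine ⟨ENNReal.ofReal |LinearMap.det L|, ?_⟩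
  intro A hA
  have h1 : (fun t : Fin 3 → ℝ => o + ∑ i, t i • v i) '' A =
      (fun z : E => -o + z) ⁻¹' ((@WithLp.ofLp 2 (Fin 3 → ℝ)) ⁻¹' (L '' A)) := by
    ext z
    simp only [mem_image, mem_preimage]
    constructor
    · rintro ⟨x, hx, rfl⟩
      exact ⟨x, hx, by simp [L]⟩
    · rintro ⟨x, hx, hz⟩
      refine ⟨x, hx, ?_⟩
      have : ∑ i, x i • v i = -o + z := WithLp.ofLp_injective 2 hz
      rw [this]; abel
  have hLc : IsCompact (L '' A) := hA.image (LinearMap.continuous_of_finiteDimensional L)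
  rw [h1, measure_preimage_add,
    (PiLp.volume_preserving_ofLp (Fin 3)).measure_preimage hLc.isClosed.measurableSet.nullMeasurableSet,
    Measure.addHaar_image_linearMap]

theorem hull_eq (o d1 d2 e : E) {s t : ℝ} (hs : 0 ≤ s) (hs1 : s ≤ 1) (ht : 0 ≤ t) (ht1 : t ≤ 1) :
    convexHull ℝ ((V8 o d1 d2 e s t : Finset E) : Set E) =
      (fun x : Fin 3 → ℝ => o + ∑ i, x i • (![d1, d2, e] : Fin 3 → E) i) '' CC s t := by
  apply Subset.antisymm
  · apply convexHull_min
    · intro z hz
      rw [Finset.mem_coe, V8, Finset.mem_image] at hz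
      obtain ⟨⟨i, b⟩, -, rfl⟩ := hz
      have hst : 0 ≤ s * t := mul_nonneg hs ht
      have hst1 : 0 ≤ s * (1 - t) := mul_nonneg hs (by linarith)
      have hst2 : 0 ≤ (1 - s) * t := mul_nonneg (by linarith) ht
      have hst3 : 0 ≤ (1 - s) * (1 - t) := mul_nonneg (by linarith) (by linarith)
      have hb : 0 ≤ (if b then (1 : ℝ) else 0) ∧ (if b then (1 : ℝ) else 0) ≤ 1 := by
        cases b <;> simp
      set r : ℝ := (if b then (1 : ℝ) else 0) with hr
      fin_cases i
      · refine ⟨![s, 0, r], ⟨⟨?_, ?_, ?_, ?_⟩, ?_, ?_⟩, ?_⟩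
        · simp; nlinarith
        · simp; nlinarith
        · simp; nlinarith
        · simp; nlinarith
        · simpa using hb.1
        · simpa using hb.2
        · simp only [Fin.sum_univ_three, bp]; simp [hr]; abel
      · refine ⟨![0, t, r], ⟨⟨?_, ?_, ?_, ?_⟩, ?_, ?_⟩, ?_⟩
        · simp
        · simp
        · simp; nlinarith
        · simp; nlinarith
        · simpa using hb.1
        · simpa using hb.2
        · simp only [Fin.sum_univ_three, bp]; simp [hr]; abel
      · refine ⟨![s - 1, 0, r], ⟨⟨?_, ?_, ?_, ?_⟩, ?_, ?_⟩, ?_⟩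
        · simp; nlinarith
        · simp; nlinarith
        · simp; nlinarith
        · simp; nlinarith
        · simpa using hb.1
        · simpa using hb.2
        · simp only [Fin.sum_univ_three, bp]; simp [hr]; module
      · refine ⟨![0, t - 1, r], ⟨⟨?_, ?_, ?_, ?_⟩, ?_, ?_⟩, ?_⟩
        · simp; nlinarith
        · simp; nlinarith
        · simp; nlinarith
        · simp; nlinarith
        · simpa using hb.1
        · simpa using hb.2
        · simp only [Fin.sum_univ_three, bp]; simp [hr]; module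
    · rintro _ ⟨x, hx, rfl⟩ _ ⟨y, hy, rfl⟩ a b ha hb hab
      refine ⟨a • x + b • y, ?_, ?_⟩
      · obtain ⟨⟨h1, h2, h3, h4⟩, h5, h6⟩ := hx
        obtain ⟨⟨k1, k2, k3, k4⟩, k5, k6⟩ := hy
        have hb' : b = 1 - a := by linarith
        refine ⟨⟨?_, ?_, ?_, ?_⟩, ?_, ?_⟩
        all_goals simp only [Pi.add_apply, Pi.smul_apply, smul_eq_mul]
        · have := mul_le_mul_of_nonneg_left h1 ha; have := mul_le_mul_of_nonneg_left k1 hb
          subst hb'; nlinarith
        · have := mul_le_mul_of_nonneg_left h2 ha; have := mul_le_mul_of_nonneg_left k2 hb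
          subst hb'; nlinarith
        · have := mul_le_mul_of_nonneg_left h3 ha; have := mul_le_mul_of_nonneg_left k3 hb
          subst hb'; nlinarith
        · have := mul_le_mul_of_nonneg_left h4 ha; have := mul_le_mul_of_nonneg_left k4 hb
          subst hb'; nlinarith
        · positivity
        · have := mul_le_mul_of_nonneg_left h6 ha; have := mul_le_mul_of_nonneg_left k6 hb
          linarith
      · have ho : o = a • o + b • o := by rw [← add_smul, hab, one_smul]
        simp only [Fin.sum_univ_three, Pi.add_apply, Pi.smul_apply, smul_eq_mul]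
        nth_rewrite 1 [ho]
        module
  · rintro _ ⟨x, ⟨⟨h1, h2, h3, h4⟩, h5, h6⟩, rfl⟩
    obtain ⟨a1, a2, a3, a4⟩ := CC_y hs hs1 ht ht1 h1 h2 h3 h4
    set H := convexHull ℝ ((V8 o d1 d2 e s t : Finset E) : Set E) with hH
    have hc : Convex ℝ H := convex_convexHull _ _
    have hv : ∀ i : Fin 4, ∀ b : Bool, bp o d1 d2 s t i + (if b then (1 : ℝ) else 0) • e ∈ H := by
      intro i b
      apply subset_convexHull
      rw [Finset.mem_coe, V8, Finset.mem_image]
      exact ⟨(i, b), Finset.mem_univ _, rfl⟩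
    have hz : ∀ i : Fin 4, bp o d1 d2 s t i + x 2 • e ∈ H := by
      intro i
      have := hc (hv i false) (hv i true) (by linarith : (0 : ℝ) ≤ 1 - x 2) h5 (by ring)
      convert this using 1
      simp; module
    have h0 : o + x 2 • e ∈ H := by
      have := hc (hz 0) (hz 2) (by linarith : (0 : ℝ) ≤ 1 - s) hs (by ring)
      convert this using 1
      simp [bp]; module
    -- the coordinate along d1
    have hX : ∃ α : ℝ, 0 ≤ α ∧ ∃ p : E, p + x 2 • e ∈ H ∧ α • (p - o) = x 0 • d1 ∧
        ((0 ≤ x 0 ∧ α * s = x 0 ∧ (s = 0 → α = 0)) ∨ (x 0 ≤ 0 ∧ α * (1 - s) = -x 0 ∧ (s = 1 → α = 0))) := by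
      rcases le_total 0 (x 0) with h | h
      · refine ⟨x 0 / s, by positivity, bp o d1 d2 s t 0, hz 0, ?_, Or.inl ⟨h, ?_, ?_⟩⟩
        · rcases hs.eq_or_lt with h' | h'
          · have : x 0 = 0 := by linarith
            rw [this]; simp
          · simp only [bp, Matrix.cons_val_zero, add_sub_cancel_left, smul_smul]
            congr 1; field_simp
        · rcases hs.eq_or_lt with h' | h'
          · have : x 0 = 0 := by linarith
            rw [this]; simp
          · field_simp
        · intro h'; rw [h']; simp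
      · have hs' : 0 ≤ 1 - s := by linarith
        refine ⟨-x 0 / (1 - s), div_nonneg (by linarith) hs', bp o d1 d2 s t 2, hz 2, ?_, Or.inr ⟨h, ?_, ?_⟩⟩
        · rcases hs'.eq_or_lt with h' | h'
          · have : x 0 = 0 := by linarith
            rw [this]; simp
          · have e1 : bp o d1 d2 s t 2 - o = (-(1 - s)) • d1 := by simp [bp]; module
            rw [e1, smul_smul]
            congr 1; field_simp
        · rcases hs'.eq_or_lt with h' | h'
          · have : x 0 = 0 := by linarith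
            rw [this]; simp
          · field_simp
        · intro h'; rw [h']; simp
    have hY : ∃ β : ℝ, 0 ≤ β ∧ ∃ p : E, p + x 2 • e ∈ H ∧ β • (p - o) = x 1 • d2 ∧
        ((0 ≤ x 1 ∧ β * t = x 1 ∧ (t = 0 → β = 0)) ∨ (x 1 ≤ 0 ∧ β * (1 - t) = -x 1 ∧ (t = 1 → β = 0))) := by
      rcases le_total 0 (x 1) with h | h
      · refine ⟨x 1 / t, by positivity, bp o d1 d2 s t 1, hz 1, ?_, Or.inl ⟨h, ?_, ?_⟩⟩
        · rcases ht.eq_or_lt with h' | h'
          · have : x 1 = 0 := by linarith
            rw [this]; simp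
          · have e1 : bp o d1 d2 s t 1 - o = t • d2 := by simp [bp]
            rw [e1, smul_smul]
            congr 1; field_simp
        · rcases ht.eq_or_lt with h' | h'
          · have : x 1 = 0 := by linarith
            rw [this]; simp
          · field_simp
        · intro h'; rw [h']; simp
      · have ht' : 0 ≤ 1 - t := by linarith
        refine ⟨-x 1 / (1 - t), div_nonneg (by linarith) ht', bp o d1 d2 s t 3, hz 3, ?_, Or.inr ⟨h, ?_, ?_⟩⟩
        · rcases ht'.eq_or_lt with h' | h'
          · have : x 1 = 0 := by linarith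
            rw [this]; simp
          · have e1 : bp o d1 d2 s t 3 - o = (-(1 - t)) • d2 := by simp [bp]; module
            rw [e1, smul_smul]
            congr 1; field_simp
        · rcases ht'.eq_or_lt with h' | h'
          · have : x 1 = 0 := by linarith
            rw [this]; simp
          · field_simp
        · intro h'; rw [h']; simp
    obtain ⟨α, hα, p1, hp1, e1, c1⟩ := hX
    obtain ⟨β, hβ, p2, hp2, e2, c2⟩ := hY
    have hsum : α + β ≤ 1 := by
      have hs' : 0 ≤ 1 - s := by linarith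
      have ht' : 0 ≤ 1 - t := by linarith
      rcases c1 with ⟨b1, b2, b3⟩ | ⟨b1, b2, b3⟩ <;> rcases c2 with ⟨b4, b5, b6⟩ | ⟨b4, b5, b6⟩
      · exact le_one_aux hs ht hα hβ (by rw [← b2, ← b5] at h1; nlinarith) (by linarith) (by linarith) b3 b6
      · exact le_one_aux hs ht' hα hβ (by
          have : x 1 = -(β * (1 - t)) := by linarith
          rw [← b2, this] at h3; nlinarith) (by linarith) (by linarith) b3 (fun h => b6 (by linarith))
      · exact le_one_aux hs' ht hα hβ (by
          have : x 0 = -(α * (1 - s)) := by linarith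
          rw [← b5, this] at h2; nlinarith) (by linarith) (by linarith) (fun h => b3 (by linarith)) b6
      · exact le_one_aux hs' ht' hα hβ (by
          have k0 : x 0 = -(α * (1 - s)) := by linarith
          have k1 : x 1 = -(β * (1 - t)) := by linarith
          rw [k0, k1] at h4; nlinarith) (by linarith) (by linarith) (fun h => b3 (by linarith))
          (fun h => b6 (by linarith))
    have h3p : α • (p1 + x 2 • e) + β • (p2 + x 2 • e) + (1 - α - β) • (o + x 2 • e) ∈ H := by
      have := hc.sum_mem (t := (Finset.univ : Finset (Fin 3))) (w := ![α, β, 1 - α - β])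
        (z := ![p1 + x 2 • e, p2 + x 2 • e, o + x 2 • e]) ?_ ?_ ?_
      · simpa [Fin.sum_univ_three] using this
      · intro i _; fin_cases i
        · simpa using hα
        · simpa using hβ
        · simp; linarith
      · simp [Fin.sum_univ_three]
      · intro i _; fin_cases i
        · simpa using hp1
        · simpa using hp2
        · simpa using h0
    convert h3p using 1
    have e3 : α • (p1 + x 2 • e) + β • (p2 + x 2 • e) + (1 - α - β) • (o + x 2 • e) =
        o + α • (p1 - o) + β • (p2 - o) + x 2 • e := by module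
    rw [e3, e1, e2]
    simp [Fin.sum_univ_three]; abel


theorem qp_volume (o d1 d2 e : E) (s t : ℝ) (h : LinearIndependent ℝ ![d1, d2, e])
    (hs : 0 ≤ s) (hs1 : s ≤ 1) (ht : 0 ≤ t) (ht1 : t ≤ 1) :
    2 * volume (convexHull ℝ ((V8 o d1 d2 e s t : Finset E) : Set E)) =
      volume (box o ![d1, d2, e]) := by
  obtain ⟨c, hc⟩ := vol_key o ![d1, d2, e]
  rw [hull_eq o d1 d2 e hs hs1 ht ht1, hc _ (CC_compact hs hs1 ht ht1)]
  unfold box
  rw [hc _ isCompact_Icc, Real.volume_Icc_pi, mul_left_comm, CC_volume hs hs1 ht ht1]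
  simp


end X_qp_volume
alias qp_volume := X_qp_volume.qp_volume

namespace X_box_scale

theorem box_scale (o o' d1 d2 e : E) (a b c : ℝ) (ha : 0 < a) (hb : 0 < b) (hc : 0 < c)
    (h : LinearIndependent ℝ ![d1, d2, e]) :
    volume (box o' ![a • d1, b • d2, c • e]) =
      ENNReal.ofReal (a * b * c) * volume (box o ![d1, d2, e]) := by
  have hfr : Module.finrank ℝ E = 3 := finrank_euclideanSpace_fin
  set B : Module.Basis (Fin 3) ℝ E := basisOfLinearIndependentOfCardEqFinrank h (by rw [hfr]; simp) with hBdef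
  have hB : ∀ j, B j = ![d1, d2, e] j := fun j => by
    rw [hBdef, coe_basisOfLinearIndependentOfCardEqFinrank]
  set L : E →ₗ[ℝ] E := B.constr ℝ (fun j => (![a, b, c] j) • B j) with hLdef
  have hL : ∀ j, L (B j) = (![a, b, c] j) • B j := fun j => B.constr_basis ℝ _ j
  have hLe : ∀ j, L (![d1, d2, e] j) = ![a • d1, b • d2, c • e] j := by
    intro j
    have h1 := hL j
    rw [hB] at h1
    rw [h1]
    fin_cases j <;> rfl
  have hdet : LinearMap.det L = a * b * c := by
    rw [← LinearMap.det_toMatrix B]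
    have h1 : LinearMap.toMatrix B B L = Matrix.diagonal ![a, b, c] := by
      ext i j
      rw [LinearMap.toMatrix_apply, hL, map_smul, Module.Basis.repr_self, Matrix.diagonal_apply,
        Finsupp.smul_apply, Finsupp.single_apply]
      by_cases hij : i = j
      · subst hij; simp
      · rw [if_neg hij, if_neg (fun hji => hij hji.symm)]; simp
    rw [h1, Matrix.det_diagonal, Fin.prod_univ_three]
    rfl
  have hbox : box o' ![a • d1, b • d2, c • e] =
      (fun x => (o' - L o) + x) '' (L '' box o ![d1, d2, e]) := by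
    unfold box
    rw [Set.image_image, Set.image_image]
    refine Set.image_congr fun t _ => ?_
    rw [map_add, map_sum]
    simp only [map_smul, hLe]
    abel
  rw [hbox, Set.image_add_left, measure_preimage_add, Measure.addHaar_image_linearMap, hdet,
    abs_of_pos (by positivity)]


end X_box_scale
alias box_scale := X_box_scale.box_scale

namespace X_slab_add

theorem level_null (l : E →ₗ[ℝ] ℝ) (hl : l ≠ 0) (c : ℝ) : volume {x : E | l x = c} = 0 := by
  obtain ⟨x0, hx0⟩ := (LinearMap.surjective hl) c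
  have h1 : {x : E | l x = c} ⊆ (AffineSubspace.mk' x0 (LinearMap.ker l) : Set E) := by
    intro x hx
    have hx' : l x = c := hx
    show x ∈ AffineSubspace.mk' x0 (LinearMap.ker l)
    rw [AffineSubspace.mem_mk', LinearMap.mem_ker]
    show l (x - x0) = 0
    rw [map_sub, hx', hx0, sub_self]
  refine measure_mono_null h1 (Measure.addHaar_affineSubspace volume _ ?_)
  intro h
  have h2 : (AffineSubspace.mk' x0 (LinearMap.ker l)).direction = ⊤ := by
    rw [h, AffineSubspace.direction_top]
  rw [AffineSubspace.direction_mk', LinearMap.ker_eq_top] at h2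
  exact hl h2

theorem slab_add (l : E →ₗ[ℝ] ℝ) (hl : l ≠ 0) (u v : ℝ) (huv : u < v) (p1 p2 p3 C : Set E)
    (m1 : MeasurableSet p1) (m2 : MeasurableSet p2) (m3 : MeasurableSet p3)
    (h1 : p1 ⊆ C) (h2 : p2 ⊆ C) (h3 : p3 ⊆ C)
    (b1 : ∀ x ∈ p1, u ≤ l x ∧ l x ≤ v) (b2 : ∀ x ∈ p2, v ≤ l x) (b3 : ∀ x ∈ p3, l x ≤ u) :
    volume p1 + volume p2 + volume p3 ≤ volume C := by
  have d12 : AEDisjoint volume p1 p2 := by
    refine measure_mono_null ?_ (level_null l hl v)
    rintro x ⟨hx1, hx2⟩
    exact le_antisymm (b1 x hx1).2 (b2 x hx2)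
  have d123 : AEDisjoint volume (p1 ∪ p2) p3 := by
    refine measure_mono_null ?_ (level_null l hl u)
    rintro x ⟨hx1 | hx2, hx3⟩
    · exact le_antisymm (b3 x hx3) (b1 x hx1).1
    · have e1 := b2 x hx2
      have e2 := b3 x hx3
      exfalso
      linarith
  rw [← measure_union₀ m2.nullMeasurableSet d12, ← measure_union₀ m3.nullMeasurableSet d123]
  exact measure_mono (union_subset (union_subset h1 h2) h3)


end X_slab_add
alias slab_add := X_slab_add.slab_add

end Pool.Agent.Helper584.FS
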