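import Pool.Agent.Helper584.FS.Lemmas

set_option autoImplicit false

open MeasureTheory Set

namespace Pool.Agent.Helper584.FS.Tet

open Pool.Agent.Helper584.FS

/-- Volume. -/
noncomputable def vol (S : Set E) : ℝ := (volume S).toReal

theorem exists_CP (P : Set E) (hP : IsPolyhedron P) :
    ∃ V : Finset E, P = convexHull ℝ (V : Set E) ∧ CP V := by
  obtain ⟨⟨W, rfl⟩, -⟩ := hP
  obtain ⟨V, h1, h2⟩ := min_vertices W
  exact ⟨V, h1.symm, h2⟩

theorem card_ge (P : Set E) (V : Finset E) (hP : P = convexHull ℝ (V : Set E))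
    (hi : (interior P).Nonempty) (hT : ¬ IsTetrahedron P) : 5 ≤ V.card := by
  by_contra hcon
  apply hT
  subst hP
  exact tetra_of_card V (by omega) hi

theorem mem_poly_next (V : Finset E) (hV : CP V)
    (hi : (interior (convexHull ℝ (V : Set E))).Nonempty) :
    IsPolyhedron (next (convexHull ℝ (V : Set E))) := by
  refine ⟨?_, ?_⟩
  · refine ⟨(edge_mid_finite V).toFinset, ?_⟩
    rw [Set.Finite.coe_toFinset]
    rfl
  · rw [next_eq V hV]
    exact M_interior V hi

theorem vol_ne_top (V : Finset E) : volume (convexHull ℝ (V : Set E)) ≠ ⊤ :=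
  (Set.Finite.isCompact_convexHull (𝕜 := ℝ) V.finite_toSet).measure_lt_top.ne

theorem poly_pos (P : Set E) (hP : IsPolyhedron P) : 0 < volume P :=
  Measure.measure_pos_of_nonempty_interior _ hP.2

theorem poly_ne_top (P : Set E) (hP : IsPolyhedron P) : volume P ≠ ⊤ := by
  obtain ⟨⟨W, rfl⟩, -⟩ := hP
  exact vol_ne_top W

theorem vol_pos (P : Set E) (hP : IsPolyhedron P) : 0 < vol P :=
  ENNReal.toReal_pos (poly_pos P hP).ne' (poly_ne_top P hP)

/-- one step, enn form -/
theorem step_enn (P : Set E) (hP : IsPolyhedron P) (hT : ¬ IsTetrahedron P) :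
    5 * volume P ≤ 8 * volume (next P) := by
  obtain ⟨V, hPV, hCP⟩ := exists_CP P hP
  have hcard := card_ge P V hPV hP.2 hT
  have h1 := exact V
  have h2 := sum_volume V 3 (fun x hx => ess_three V hcard x hx)
  have hfin := vol_ne_top V
  rw [hPV, next_eq V hCP]
  have h3 : 8 * volume (convexHull ℝ (V : Set E)) ≤ 8 * volume (M V) +
      3 * volume (convexHull ℝ (V : Set E)) := by
    rw [h1]
    exact add_le_add le_rfl (by simpa using h2)
  have h4 : 5 * volume (convexHull ℝ (V : Set E)) + 3 * volume (convexHull ℝ (V : Set E)) ≤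
      8 * volume (M V) + 3 * volume (convexHull ℝ (V : Set E)) := by
    rw [← add_mul]
    norm_num
    exact h3
  exact (ENNReal.add_le_add_iff_right (ENNReal.mul_ne_top (by norm_num) hfin)).1 h4

theorem next_poly (P : Set E) (hP : IsPolyhedron P) : IsPolyhedron (next P) := by
  obtain ⟨V, hPV, hCP⟩ := exists_CP P hP
  subst hPV
  exact mem_poly_next V hCP hP.2

theorem card_four (V : Finset E) (hi : (interior (convexHull ℝ (V : Set E))).Nonempty) :
    4 ≤ V.card := by
  by_contra hcon
  have h1 : affineSpan ℝ (V : Set E) = ⊤ :=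
    interior_convexHull_nonempty_iff_affineSpan_eq_top.1 hi
  have h3 : (vectorSpan ℝ (V : Set E)) = ⊤ := by
    rw [← direction_affineSpan, h1]
    simp
  by_cases h0 : V.card = 0
  · rw [Finset.card_eq_zero] at h0
    subst h0
    rcases hi with ⟨x, hx⟩
    have := interior_subset hx
    simp at this
  · have h4 : Module.finrank ℝ (vectorSpan ℝ (V : Set E)) ≤ 2 := by
      have := finrank_vectorSpan_image_finset_le ℝ (id : E → E) V (n := V.card - 1) (by omega)
      rw [Finset.image_id] at this
      omega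
    rw [h3] at h4
    simp at h4

theorem next_not_tetra (P : Set E) (hP : IsPolyhedron P) : ¬ IsTetrahedron (next P) := by
  obtain ⟨V, hPV, hCP⟩ := exists_CP P hP
  subst hPV
  rw [next_eq V hCP]
  exact M_not_tetra V hCP (card_four V hP.2)

theorem step_real (P : Set E) (hP : IsPolyhedron P) (hT : ¬ IsTetrahedron P) :
    5 / 8 * vol P ≤ vol (next P) := by
  have h := step_enn P hP hT
  have h2 := ENNReal.toReal_mono (ENNReal.mul_ne_top (by norm_num)
    (poly_ne_top _ (next_poly P hP))) h
  rw [ENNReal.toReal_mul, ENNReal.toReal_mul] at h2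
  simp only [ENNReal.toReal_ofNat] at h2
  unfold vol
  linarith

theorem tetra_poly (T : Set E) (hT : IsTetrahedron T) : IsPolyhedron T := by
  obtain ⟨v, hv, rfl⟩ := hT
  refine ⟨⟨Finset.univ.image v, by simp⟩, ?_⟩
  rw [interior_convexHull_nonempty_iff_affineSpan_eq_top]
  rw [hv.affineSpan_eq_top_iff_card_eq_finrank_add_one]
  simp

theorem tetra_CP (v : Fin 4 → E) (hv : AffineIndependent ℝ v) : CP (Finset.univ.image v) := by
  intro u hu hcon
  obtain ⟨i, -, rfl⟩ := Finset.mem_image.1 hu
  have h1 : (((Finset.univ.image v).erase (v i) : Finset E) : Set E) = v '' {j | j ≠ i} := by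
    ext x
    simp only [Finset.coe_erase, Finset.coe_image, Finset.coe_univ, image_univ, mem_diff,
      mem_range, mem_singleton_iff, mem_image, mem_setOf_eq]
    constructor
    · rintro ⟨⟨j, rfl⟩, h⟩
      exact ⟨j, fun h' => h (by rw [h']), rfl⟩
    · rintro ⟨j, hj, rfl⟩
      exact ⟨⟨j, rfl⟩, fun h => hj (hv.injective h)⟩
  rw [h1] at hcon
  have h2 := convexHull_subset_affineSpan _ hcon
  exact (hv.mem_affineSpan_iff i {j | j ≠ i}).1 h2 rfl

theorem tetra_one (T : Set E) (hT : IsTetrahedron T) : vol (next T) = 1 / 2 * vol T := by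
  obtain ⟨v, hv, hTv⟩ := hT
  set V : Finset E := Finset.univ.image v with hVdef
  have hTV : T = convexHull ℝ (V : Set E) := by rw [hTv, hVdef]; simp
  have hCP := tetra_CP v hv
  have h1 := exact V
  have h2 := tetra_sum v hv
  have h4 : ∑ u ∈ V, volume (convexHull ℝ (V : Set E) \
      convexHull ℝ ((V.erase u : Finset E) : Set E)) ≤ 4 * volume (convexHull ℝ (V : Set E)) := by
    calc _ ≤ ∑ u ∈ V, volume (convexHull ℝ (V : Set E)) :=
          Finset.sum_le_sum (fun u _ => measure_mono diff_subset)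
      _ = (V.card : ENNReal) * volume (convexHull ℝ (V : Set E)) := by
          rw [Finset.sum_const, nsmul_eq_mul]
      _ ≤ 4 * volume (convexHull ℝ (V : Set E)) := by
          gcongr
          have : V.card ≤ 4 := by
            rw [hVdef]
            exact Finset.card_image_le.trans (by simp)
          exact_mod_cast this
  have h5 := le_antisymm h4 h2
  rw [h5] at h1
  have hfin := vol_ne_top V
  have hfinM : volume (M V) ≠ ⊤ := (M_compact V).measure_lt_top.ne
  have h6 := congrArg ENNReal.toReal h1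
  rw [ENNReal.toReal_add (ENNReal.mul_ne_top (by norm_num) hfinM)
    (ENNReal.mul_ne_top (by norm_num) hfin), ENNReal.toReal_mul, ENNReal.toReal_mul,
    ENNReal.toReal_mul] at h6
  simp only [ENNReal.toReal_ofNat] at h6
  rw [hTV, next_eq V hCP]
  unfold vol
  linarith

theorem next_tetra_V6 (v : Fin 4 → E) (hv : AffineIndependent ℝ v) :
    next (convexHull ℝ (range v)) = convexHull ℝ ((V6 v : Finset E) : Set E) := by
  have h0 : convexHull ℝ (range v) = convexHull ℝ (((Finset.univ.image v : Finset E)) : Set E) := by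
    simp
  rw [h0, next_eq _ (tetra_CP v hv), M_hull]
  congr 1
  ext m
  simp only [V6, Finset.mem_image, Finset.mem_univ, true_and, mem_setOf_eq, Finset.coe_image,
    Finset.coe_filter, mem_image]
  constructor
  · rintro ⟨a, ⟨i, rfl⟩, b, ⟨j, rfl⟩, hab, rfl⟩
    have hij : i ≠ j := fun h => hab (by rw [h])
    rcases lt_or_gt_of_ne hij with h | h
    · exact ⟨(i, j), h, rfl⟩
    · exact ⟨(j, i), h, midpoint_comm _ _⟩
  · rintro ⟨⟨i, j⟩, h, rfl⟩
    exact ⟨v i, ⟨i, rfl⟩, v j, ⟨j, rfl⟩, fun h' => (ne_of_lt h) (hv.injective h'), rfl⟩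

theorem tetra_two (T : Set E) (hT : IsTetrahedron T) :
    vol (next (next T)) = 5 / 16 * vol T := by
  have hP := tetra_poly T hT
  have hlow := step_real (next T) (next_poly T hP) (next_not_tetra T hP)
  have h1 := tetra_one T hT
  obtain ⟨v, hv, hTv⟩ := hT
  have hO : next T = convexHull ℝ ((V6 v : Finset E) : Set E) := by
    rw [hTv]; exact next_tetra_V6 v hv
  have h2 := exact (V6 v)
  have h3 := octa_sum v hv
  have hsub : next (next T) ⊆ M (V6 v) := by
    rw [hO]
    exact convexHull_min (fun m hm => edge_mid_mem (V6 v) m hm) (M_convex _)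
  have hfin := vol_ne_top (V6 v)
  have hfinM : volume (M (V6 v)) ≠ ⊤ := (M_compact (V6 v)).measure_lt_top.ne
  have h4 : vol (next (next T)) ≤ vol (M (V6 v)) :=
    ENNReal.toReal_mono hfinM (measure_mono hsub)
  have h5 : 8 * volume (M (V6 v)) + 3 * volume (convexHull ℝ ((V6 v : Finset E) : Set E)) ≤
      8 * volume (convexHull ℝ ((V6 v : Finset E) : Set E)) := by
    rw [h2]
    exact add_le_add le_rfl h3
  have h6 := ENNReal.toReal_mono (ENNReal.mul_ne_top (by norm_num) hfin) h5
  rw [ENNReal.toReal_add (ENNReal.mul_ne_top (by norm_num) hfinM)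
    (ENNReal.mul_ne_top (by norm_num) hfin), ENNReal.toReal_mul, ENNReal.toReal_mul,
    ENNReal.toReal_mul] at h6
  simp only [ENNReal.toReal_ofNat] at h6
  have h7 : vol (next T) = (volume (convexHull ℝ ((V6 v : Finset E) : Set E))).toReal := by
    rw [hO]; rfl
  unfold vol at *
  linarith


end Pool.Agent.Helper584.FS.Tet
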